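import Mathlib
import Pool.Agent.Lib.MP_f4ff90_ag.TGen

/-!
# MP_f4ff90_ag, power-dominated maps: definitions

`e ≥ 2` is the degree; time scale `e ^ n`.
-/

set_option autoImplicit false

open Filter Topology

namespace MP_f4ff90_agP

/-- the value of the exponential sum `∑ c_μ exp (μ t)` at `t` -/
noncomputable def ev (t : ℝ) : AddMonoidAlgebra ℝ ℝ →ₐ[ℝ] ℝ :=
  AddMonoidAlgebra.lift ℝ ℝ ℝ
    { toFun := fun μ => Real.exp (μ.toAdd * t)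
      map_one' := by simp
      map_mul' := by intro a b; simp [add_mul, Real.exp_add] }

/-- `u n = ∑ G_n(μ) exp (μ e ^ n) + O (exp (- M e ^ n))`, finite sums, `G` periodic of period `r` -/
def Exq (e r : ℕ) (M : ℝ) (u : ℕ → ℝ) : Prop :=
  ∃ (G : ℕ → AddMonoidAlgebra ℝ ℝ) (C : ℝ) (n₀ : ℕ), (∀ n, G (n + r) = G n) ∧
    ∀ n ≥ n₀, |u n - ev ((e : ℝ) ^ n) (G n)| ≤ C * Real.exp (-(M * (e : ℝ) ^ n))

/-- eventually bounded -/
def Bd (u : ℕ → ℝ) : Prop := ∃ (C : ℝ) (n₀ : ℕ), ∀ n ≥ n₀, |u n| ≤ C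

/-- `u n = O (exp (- κ e ^ n))` -/
def Sml (e : ℕ) (κ : ℝ) (u : ℕ → ℝ) : Prop :=
  ∃ (C : ℝ) (n₀ : ℕ), ∀ n ≥ n₀, |u n| ≤ C * Real.exp (-(κ * (e : ℝ) ^ n))

lemma ev_single (t μ c : ℝ) : ev t (AddMonoidAlgebra.single μ c) = c * Real.exp (μ * t) := by
  simp [ev, AddMonoidAlgebra.lift_single]

end MP_f4ff90_agP
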