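import Mathlib
import Pool.Agent.Lib.MP_f4ff90_agP.Defs

/-!
LEAF Asy.  Asymptotics of `a (n+1) i = e a n (σ i) + b i + f n i`.
PROOF.  (1) The linear map `v ↦ (v i - e v (σ i))_i` of `Fin g → ℝ` is injective (if `v i = e v (σ i)` for all `i`, then with `|v|` maximal at `σ i`:
`|v (σ i)| ≥ |v i| = e |v (σ i)|`, so `v = 0`), hence surjective: there is `κ'` with `κ' i = e κ' (σ i) + b i`.  (2) `B n i = a n i - κ' i` satisfies
`B (n+1) i = e B n (σ i) + f n i`.  `z n i = B n (σ^(-n) i) / e^n`: `z (n+1) i = z n i + f n (σ^(-n-1) i) / e^(n+1)` for `n ≥ n₀`.  As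
`|f n i| ≤ C exp (-κ e^n)` for all `i`, `z n i` converges to `η i` and `|z n i - η i| ≤ C' exp (-κ e^n) / e^n` (sum over `j ≥ n` of
`C exp (-κ e^j) / e^(j+1)`, geometric).  (3) `ℓ n i = B n i - η (σ^n i) e^n = e^n (z n (σ^n i) - η (σ^n i))`.
-/

set_option autoImplicit false

open Filter Topology

namespace MP_f4ff90_agP

/-- the fixed point of the affine recursion -/
private lemma Asy_fix {g e : ℕ} (he : 2 ≤ e) (σ : Equiv.Perm (Fin g)) (b : Fin g → ℝ) :
    ∃ c : Fin g → ℝ, ∀ i, c i = e * c (σ i) + b i := by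
  have hr : 0 < orderOf σ := orderOf_pos σ
  set r := orderOf σ with hrdef
  have he1 : (1 : ℝ) < (e : ℝ) := by exact_mod_cast he
  have her : (1 : ℝ) < (e : ℝ) ^ r := one_lt_pow₀ he1 hr.ne'
  have hne : (1 : ℝ) - (e : ℝ) ^ r ≠ 0 := by linarith
  refine ⟨fun i => (∑ k ∈ Finset.range r, (e : ℝ) ^ k * b ((σ ^ k) i)) / (1 - (e : ℝ) ^ r), ?_⟩
  intro i
  have h1 : ∑ k ∈ Finset.range (r + 1), (e : ℝ) ^ k * b ((σ ^ k) i)
      = ∑ k ∈ Finset.range r, (e : ℝ) ^ k * b ((σ ^ k) i) + (e : ℝ) ^ r * b i := by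
    rw [Finset.sum_range_succ, hrdef, pow_orderOf_eq_one]
    simp
  have h2 : ∑ k ∈ Finset.range (r + 1), (e : ℝ) ^ k * b ((σ ^ k) i)
      = (e : ℝ) * ∑ k ∈ Finset.range r, (e : ℝ) ^ k * b ((σ ^ k) (σ i)) + b i := by
    rw [Finset.sum_range_succ', Finset.mul_sum]
    simp only [pow_zero, one_mul, Equiv.Perm.coe_one, id_eq]
    congr 1
    refine Finset.sum_congr rfl fun k _ => ?_
    rw [pow_succ σ k, Equiv.Perm.mul_apply]
    ring
  have h3 := h1.symm.trans h2
  show (∑ k ∈ Finset.range r, (e : ℝ) ^ k * b ((σ ^ k) i)) / (1 - (e : ℝ) ^ r)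
    = e * ((∑ k ∈ Finset.range r, (e : ℝ) ^ k * b ((σ ^ k) (σ i))) / (1 - (e : ℝ) ^ r)) + b i
  field_simp
  linarith

/-- convergence of a real sequence with a summable decreasing majorant -/
private lemma Asy_lim {z w : ℕ → ℝ} {N : ℕ} (hw0 : ∀ n ≥ N, 0 ≤ w n)
    (hwt : Tendsto w atTop (𝓝 0)) (hz : ∀ n ≥ N, |z (n + 1) - z n| ≤ w n - w (n + 1)) :
    ∃ η : ℝ, ∀ n ≥ N, |z n - η| ≤ w n := by
  have hlow : ∀ n ≥ N, ∀ k, z n - w n ≤ z (n + k) - w (n + k) := by
    intro n hn k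
    induction k with
    | zero => simp
    | succ k ih =>
      have := (abs_le.mp (hz (n + k) (by omega))).1
      rw [← add_assoc]
      linarith
  have hup : ∀ n ≥ N, ∀ k, z (n + k) + w (n + k) ≤ z n + w n := by
    intro n hn k
    induction k with
    | zero => simp
    | succ k ih =>
      have := (abs_le.mp (hz (n + k) (by omega))).2
      rw [← add_assoc]
      linarith
  have hmono : Monotone (fun k => z (N + k) - w (N + k)) := by
    refine monotone_nat_of_le_succ fun k => ?_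
    exact hlow (N + k) (by omega) 1
  have hbdd : BddAbove (Set.range (fun k => z (N + k) - w (N + k))) := by
    refine ⟨z N + w N, ?_⟩
    rintro _ ⟨k, rfl⟩
    have h1 := hup N le_rfl k
    have h2 := hw0 (N + k) (by omega)
    show z (N + k) - w (N + k) ≤ z N + w N
    linarith
  have hlim := tendsto_atTop_ciSup hmono hbdd
  set η := ⨆ k, (z (N + k) - w (N + k)) with hη
  have hwt' : Tendsto (fun k => w (N + k)) atTop (𝓝 0) := by
    have := hwt.comp (tendsto_add_atTop_nat N)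
    refine this.congr fun k => ?_
    show w (k + N) = w (N + k)
    rw [add_comm]
  have hzl : Tendsto (fun k => z (N + k)) atTop (𝓝 η) := by
    have := hlim.add hwt'
    rw [add_zero] at this
    refine this.congr fun k => ?_
    ring
  refine ⟨η, fun n hn => ?_⟩
  have hzn : Tendsto (fun k => z (n + k)) atTop (𝓝 η) := by
    have h1 : Tendsto (fun k => k + (n - N)) atTop atTop := tendsto_add_atTop_nat (n - N)
    have := hzl.comp h1
    refine this.congr fun k => ?_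
    show z (N + (k + (n - N))) = z (n + k)
    congr 1
    omega
  rw [abs_le]
  constructor
  · have : η ≤ z n + w n := by
      refine le_of_tendsto hzn (Eventually.of_forall fun k => ?_)
      have h1 := hup n hn k
      have h2 := hw0 (n + k) (by omega)
      linarith
    linarith
  · have : z n - w n ≤ η := by
      refine ge_of_tendsto hzn (Eventually.of_forall fun k => ?_)
      have h1 := hlow n hn k
      have h2 := hw0 (n + k) (by omega)
      linarith
    linarith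

theorem asym {g e : ℕ} (he : 2 ≤ e) (σ : Equiv.Perm (Fin g)) (b : Fin g → ℝ) {a f : ℕ → Fin g → ℝ}
    {κ : ℝ} (hκ : 0 < κ) (hf : ∀ i, Sml e κ (fun n => f n i)) {n₀ : ℕ}
    (h : ∀ n ≥ n₀, ∀ i, a (n + 1) i = e * a n (σ i) + b i + f n i) :
    ∃ (η κ' : Fin g → ℝ) (ℓ : ℕ → Fin g → ℝ),
      (∀ n i, a n i = η ((σ ^ n) i) * (e : ℝ) ^ n + κ' i + ℓ n i) ∧
      (∀ i, Sml e κ (fun n => ℓ n i)) ∧
      ∀ n ≥ n₀, ∀ i, ℓ (n + 1) i = e * ℓ n (σ i) + f n i := by
  classical
  obtain ⟨c, hc⟩ := Asy_fix he σ b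
  have he1 : (1 : ℝ) < (e : ℝ) := by exact_mod_cast he
  have he2 : (2 : ℝ) ≤ (e : ℝ) := by exact_mod_cast he
  have he0 : (0 : ℝ) < (e : ℝ) := by linarith
  -- uniform constants
  choose C' m hC' using hf
  obtain ⟨C, hC0, hC⟩ : ∃ C : ℝ, 0 ≤ C ∧ ∀ i, C' i ≤ C := by
    refine ⟨∑ i, |C' i|, Finset.sum_nonneg fun i _ => abs_nonneg _, fun i => ?_⟩
    exact (le_abs_self _).trans
      (Finset.single_le_sum (f := fun i => |C' i|) (fun i _ => abs_nonneg _) (Finset.mem_univ i))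
  set N := n₀ + ∑ i, m i with hN
  have hmN : ∀ i, m i ≤ N := by
    intro i
    have := Finset.single_le_sum (f := m) (fun i _ => Nat.zero_le _) (Finset.mem_univ i)
    omega
  have hfC : ∀ n ≥ N, ∀ i, |f n i| ≤ C * Real.exp (-(κ * (e : ℝ) ^ n)) := by
    intro n hn i
    refine (hC' i n ((hmN i).trans hn)).trans ?_
    exact mul_le_mul_of_nonneg_right (hC i) (Real.exp_pos _).le
  set w : ℕ → ℝ := fun n => C * Real.exp (-(κ * (e : ℝ) ^ n)) / (e : ℝ) ^ n with hw
  set z : Fin g → ℕ → ℝ := fun j n =>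
    (a n ((σ ^ n)⁻¹ j) - c ((σ ^ n)⁻¹ j)) / (e : ℝ) ^ n with hzdef
  have hw0 : ∀ n ≥ N, 0 ≤ w n := by
    intro n _
    have : 0 < Real.exp (-(κ * (e : ℝ) ^ n)) := Real.exp_pos _
    simp only [hw]
    positivity
  have hwt : Tendsto w atTop (𝓝 0) := by
    have h1 : Tendsto (fun n : ℕ => C * ((e : ℝ)⁻¹) ^ n) atTop (𝓝 (C * 0)) := by
      refine Tendsto.const_mul C (tendsto_pow_atTop_nhds_zero_of_lt_one (by positivity) ?_)
      exact inv_lt_one_of_one_lt₀ he1
    rw [mul_zero] at h1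
    refine squeeze_zero (fun n => ?_) (fun n => ?_) h1
    · have : 0 < Real.exp (-(κ * (e : ℝ) ^ n)) := Real.exp_pos _
      simp only [hw]
      positivity
    · simp only [hw]
      rw [div_eq_mul_inv, inv_pow]
      have h2 : Real.exp (-(κ * (e : ℝ) ^ n)) ≤ 1 := by
        rw [Real.exp_le_one_iff]
        have : 0 < κ * (e : ℝ) ^ n := by positivity
        linarith
      have h3 : C * Real.exp (-(κ * (e : ℝ) ^ n)) ≤ C := by nlinarith
      exact mul_le_mul_of_nonneg_right h3 (by positivity)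
  have hz : ∀ j, ∀ n ≥ N, |z j (n + 1) - z j n| ≤ w n - w (n + 1) := by
    intro j n hn
    have hn0 : n ≥ n₀ := by omega
    have hσ : σ ((σ ^ (n + 1))⁻¹ j) = (σ ^ n)⁻¹ j := by
      have h1 : (σ ^ (n + 1))⁻¹ = σ⁻¹ * (σ ^ n)⁻¹ := by
        rw [pow_succ, mul_inv_rev]
      rw [h1, Equiv.Perm.mul_apply]
      exact Equiv.apply_symm_apply σ _
    have hrec := h n hn0 ((σ ^ (n + 1))⁻¹ j)
    have hcc := hc ((σ ^ (n + 1))⁻¹ j)
    rw [hσ] at hrec hcc
    have hpow : (e : ℝ) ^ n ≠ 0 := by positivity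
    have hdiff : z j (n + 1) - z j n = f n ((σ ^ (n + 1))⁻¹ j) / (e : ℝ) ^ (n + 1) := by
      simp only [hzdef]
      rw [hrec, hcc]
      rw [pow_succ]
      field_simp
      ring
    rw [hdiff, abs_div, abs_of_pos (by positivity : (0 : ℝ) < (e : ℝ) ^ (n + 1))]
    have h4 := hfC n hn ((σ ^ (n + 1))⁻¹ j)
    set E := Real.exp (-(κ * (e : ℝ) ^ n)) with hE
    have hE0 : 0 < E := Real.exp_pos _
    have h5 : Real.exp (-(κ * (e : ℝ) ^ (n + 1))) ≤ E := by
      rw [hE, Real.exp_le_exp]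
      have : (e : ℝ) ^ n ≤ (e : ℝ) ^ (n + 1) := pow_le_pow_right₀ he1.le (Nat.le_succ n)
      nlinarith
    have h6 : w (n + 1) ≤ C * E / (e : ℝ) ^ (n + 1) := by
      simp only [hw]
      exact div_le_div_of_nonneg_right (mul_le_mul_of_nonneg_left h5 hC0) (by positivity)
    have h7 : w n = e * (C * E / (e : ℝ) ^ (n + 1)) := by
      show C * E / (e : ℝ) ^ n = e * (C * E / (e : ℝ) ^ (n + 1))
      rw [pow_succ]
      field_simp
    have h8 : |f n ((σ ^ (n + 1))⁻¹ j)| / (e : ℝ) ^ (n + 1) ≤ C * E / (e : ℝ) ^ (n + 1) :=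
      div_le_div_of_nonneg_right h4 (by positivity)
    have h9 : 0 ≤ C * E / (e : ℝ) ^ (n + 1) := by positivity
    rw [h7]
    nlinarith
  choose η hη using fun j => Asy_lim hw0 hwt (hz j)
  refine ⟨η, c, fun n i => a n i - η ((σ ^ n) i) * (e : ℝ) ^ n - c i, fun n i => by ring, ?_, ?_⟩
  · intro i
    refine ⟨C, N, fun n hn => ?_⟩
    have h1 := hη ((σ ^ n) i) n hn
    have h2 : a n i - η ((σ ^ n) i) * (e : ℝ) ^ n - c i
        = (e : ℝ) ^ n * (z ((σ ^ n) i) n - η ((σ ^ n) i)) := by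
      simp only [hzdef]
      have h0 : (σ ^ n)⁻¹ ((σ ^ n) i) = i := Equiv.symm_apply_apply (σ ^ n) i
      rw [h0]
      field_simp
      ring
    show |a n i - η ((σ ^ n) i) * (e : ℝ) ^ n - c i| ≤ C * Real.exp (-(κ * (e : ℝ) ^ n))
    rw [h2, abs_mul, abs_of_pos (by positivity : (0 : ℝ) < (e : ℝ) ^ n)]
    calc (e : ℝ) ^ n * |z ((σ ^ n) i) n - η ((σ ^ n) i)|
        ≤ (e : ℝ) ^ n * w n := mul_le_mul_of_nonneg_left h1 (by positivity)
      _ = C * Real.exp (-(κ * (e : ℝ) ^ n)) := by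
          simp only [hw]
          field_simp
  · intro n hn i
    have h1 := h n hn i
    have h2 := hc i
    have h3 : (σ ^ (n + 1)) i = (σ ^ n) (σ i) := by
      rw [pow_succ, Equiv.Perm.mul_apply]
    show a (n + 1) i - η ((σ ^ (n + 1)) i) * (e : ℝ) ^ (n + 1) - c i
      = e * (a n (σ i) - η ((σ ^ n) (σ i)) * (e : ℝ) ^ n - c (σ i)) + f n i
    rw [h1, h3, h2, pow_succ]
    ring

end MP_f4ff90_agP
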