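import Mathlib


/-!
LEAF Cnt.  Counting.
PROOF.  Let `δ = ε / (4 (g + 1))`.  If `B ≥ 1` and `B ≥ C / δ^e` then `C B^(e-1) ≤ (δ B)^e`, so a bad `a` has `|a i| < δ B` for some `i`.
The number of `a` in the box with `|a i| < δ B` is at most `(2 δ B + 1) (2 B + 1)^(g-1)` (`Fintype.card_piFinset`, `Finset.prod_update_of_mem` or a product
over `i` and the others), so there are at most `g (2 δ B + 1) (2 B + 1)^(g-1) ≤ ε (2 B + 1)^g` bad `a` as soon as
`g (2 δ B + 1) ≤ ε (2 B + 1)`: `2 g δ B ≤ ε B` and `g ≤ ε B` for large `B`.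
-/

set_option autoImplicit false

open Filter Topology

namespace MP_f4ff90_agP

private theorem Cnt_card {g : ℕ} (i : Fin g) (m B : ℕ) :
    (Fintype.piFinset fun j : Fin g => if j = i then Finset.Icc (-(m : ℤ)) m else
      Finset.Icc (-(B : ℤ)) B).card * (2 * B + 1) = (2 * m + 1) * (2 * B + 1) ^ g := by
  have hc : ∀ m : ℕ, (Finset.Icc (-(m : ℤ)) m).card = 2 * m + 1 := by
    intro m
    rw [Int.card_Icc]
    omega
  have h1 : ∀ j : Fin g, (if j = i then Finset.Icc (-(m : ℤ)) m else Finset.Icc (-(B : ℤ)) B).card =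
      if j = i then 2 * m + 1 else 2 * B + 1 := by
    intro j
    split_ifs <;> exact hc _
  rw [Fintype.card_piFinset, Finset.prod_congr rfl (fun j _ => h1 j),
    ← Finset.mul_prod_erase Finset.univ _ (Finset.mem_univ i), if_pos rfl, mul_assoc]
  congr 1
  have h2 : ∏ x ∈ Finset.univ.erase i, (if x = i then 2 * m + 1 else 2 * B + 1) =
      ∏ x ∈ Finset.univ.erase i, (2 * B + 1) :=
    Finset.prod_congr rfl fun x hx => if_neg (Finset.ne_of_mem_erase hx)
  have hg : 0 < g := i.pos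
  rw [h2, Finset.prod_const, Finset.card_erase_of_mem (Finset.mem_univ i), Finset.card_univ,
    Fintype.card_fin, ← pow_succ]
  congr 1
  omega

open Classical in
theorem count {g e : ℕ} (he : 1 ≤ e) (C : ℝ) (hC : 0 < C) : ∀ ε > (0 : ℝ), ∃ B₀ : ℕ, ∀ B ≥ B₀,
    (((Fintype.piFinset fun _ : Fin g => Finset.Icc (-(B : ℤ)) B).filter fun a =>
      ¬ ∀ i, C * (B : ℝ) ^ (e - 1) ≤ |(a i : ℝ)| ^ e).card : ℝ) ≤ ε * (2 * (B : ℝ) + 1) ^ g := by
  intro ε hε
  obtain ⟨δ, hδ⟩ : ∃ δ : ℝ, δ = ε / (4 * ((g : ℝ) + 1)) := ⟨_, rfl⟩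
  have hδ0 : 0 < δ := by rw [hδ]; positivity
  refine ⟨max ⌈C / δ ^ e⌉₊ ⌈(g : ℝ) / ε⌉₊, fun B hB => ?_⟩
  have hB1 : C / δ ^ e ≤ B := (Nat.le_ceil _).trans (by exact_mod_cast (le_max_left _ _).trans hB)
  have hB2 : (g : ℝ) / ε ≤ B := (Nat.le_ceil _).trans (by exact_mod_cast (le_max_right _ _).trans hB)
  have hB0 : (0 : ℝ) < B := lt_of_lt_of_le (by positivity) hB1
  rw [div_le_iff₀ (by positivity)] at hB1 hB2
  obtain ⟨m, hm⟩ : ∃ m : ℕ, m = ⌊δ * B⌋₊ := ⟨_, rfl⟩
  have hm1 : (m : ℝ) ≤ δ * B := by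
    rw [hm]
    exact Nat.floor_le (by positivity)
  have hm2 : δ * B < m + 1 := by
    rw [hm]
    exact Nat.lt_floor_add_one _
  have hsub : ((Fintype.piFinset fun _ : Fin g => Finset.Icc (-(B : ℤ)) B).filter fun a =>
      ¬ ∀ i, C * (B : ℝ) ^ (e - 1) ≤ |(a i : ℝ)| ^ e) ⊆
      Finset.univ.biUnion fun i : Fin g => Fintype.piFinset fun j : Fin g =>
        if j = i then Finset.Icc (-(m : ℤ)) m else Finset.Icc (-(B : ℤ)) B := by
    intro a ha
    rw [Finset.mem_filter, Fintype.mem_piFinset] at ha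
    obtain ⟨ha1, ha2⟩ := ha
    rw [not_forall] at ha2
    obtain ⟨i, hi⟩ := ha2
    rw [not_le] at hi
    rw [Finset.mem_biUnion]
    refine ⟨i, Finset.mem_univ i, ?_⟩
    rw [Fintype.mem_piFinset]
    intro j
    by_cases hj : j = i
    · rw [if_pos hj, hj, Finset.mem_Icc, ← abs_le]
      by_contra hcon
      rw [not_le] at hcon
      have h1 : (m : ℤ) + 1 ≤ |a i| := hcon
      have h2 : ((m : ℝ) + 1) ≤ |(a i : ℝ)| := by
        have : (((m : ℤ) + 1 : ℤ) : ℝ) ≤ ((|a i| : ℤ) : ℝ) := Int.cast_le.2 h1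
        simpa using this
      have h3 : (δ * B) ^ e ≤ |(a i : ℝ)| ^ e :=
        pow_le_pow_left₀ (by positivity) (hm2.le.trans h2) e
      have h4 : C * (B : ℝ) ^ (e - 1) ≤ (δ * B) ^ e := by
        have h5 : (B : ℝ) ^ e = (B : ℝ) ^ (e - 1) * B := by
          rw [← pow_succ]
          congr 1
          omega
        calc C * (B : ℝ) ^ (e - 1) ≤ B * δ ^ e * (B : ℝ) ^ (e - 1) :=
              mul_le_mul_of_nonneg_right hB1 (by positivity)
          _ = (δ * B) ^ e := by rw [mul_pow, h5]; ring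
      linarith
    · rw [if_neg hj]
      exact ha1 j
  have hcard := (Finset.card_le_card hsub).trans Finset.card_biUnion_le
  have hK : (0 : ℝ) < 2 * (B : ℝ) + 1 := by positivity
  have hone : ∀ i : Fin g, (((Fintype.piFinset fun j : Fin g =>
      if j = i then Finset.Icc (-(m : ℤ)) m else Finset.Icc (-(B : ℤ)) B).card : ℕ) : ℝ) =
      (2 * m + 1) * (2 * B + 1) ^ g / (2 * B + 1) := by
    intro i
    rw [eq_div_iff hK.ne']
    exact_mod_cast Cnt_card i m B
  have hsum : ((∑ i : Fin g, (Fintype.piFinset fun j : Fin g =>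
      if j = i then Finset.Icc (-(m : ℤ)) m else Finset.Icc (-(B : ℤ)) B).card : ℕ) : ℝ) =
      g * ((2 * m + 1) * (2 * B + 1) ^ g / (2 * B + 1)) := by
    rw [Nat.cast_sum, Finset.sum_congr rfl (fun i _ => hone i), Finset.sum_const, Finset.card_univ,
      Fintype.card_fin, nsmul_eq_mul]
  have hfin : (g : ℝ) * (2 * m + 1) ≤ ε * (2 * B + 1) := by
    have h1 : (g : ℝ) * (2 * m + 1) ≤ g * (2 * (δ * B) + 1) := by
      have : (0 : ℝ) ≤ g := Nat.cast_nonneg g
      nlinarith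
    have h2 : (g : ℝ) * (2 * (δ * B)) ≤ ε * B := by
      have h3 : (g : ℝ) * (2 * δ) ≤ ε := by
        rw [hδ]
        have hg0 : (0 : ℝ) ≤ g := Nat.cast_nonneg g
        rw [show (g : ℝ) * (2 * (ε / (4 * ((g : ℝ) + 1)))) = (g * ε) / (2 * ((g : ℝ) + 1)) by
          field_simp
          ring, div_le_iff₀ (by positivity)]
        nlinarith
      calc (g : ℝ) * (2 * (δ * B)) = g * (2 * δ) * B := by ring
        _ ≤ ε * B := mul_le_mul_of_nonneg_right h3 hB0.le
    nlinarith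
  calc _ ≤ ((∑ i : Fin g, (Fintype.piFinset fun j : Fin g =>
        if j = i then Finset.Icc (-(m : ℤ)) m else Finset.Icc (-(B : ℤ)) B).card : ℕ) : ℝ) := by
        exact_mod_cast hcard
    _ = g * ((2 * m + 1) * (2 * B + 1) ^ g / (2 * B + 1)) := hsum
    _ = (g * (2 * m + 1)) * ((2 * B + 1) ^ g / (2 * B + 1)) := by ring
    _ ≤ (ε * (2 * B + 1)) * ((2 * B + 1) ^ g / (2 * B + 1)) :=
        mul_le_mul_of_nonneg_right hfin (by positivity)
    _ = _ := by field_simp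

end MP_f4ff90_agP
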