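import Mathlib

/-!
LEAF CntL.  Counting lattice points with small linear forms.
PROOF.  For each `i` fix `k` with `A i k ≠ 0`.  Let `δ > 0`.  If `B ≥ 1` and `B ≥ C / δ^e` then `C B^(e-1) ≤ (δ B)^e`, so a bad `a` has `|∑_k A i k a k| < δ B` for some `i`.  For fixed other coordinates `a_j`, `j ≠ k`,
the values `a k` lie in an interval of length `2 δ B / |A i k|`, so there are at most `2 δ B / |A i k| + 1` of them: the number of the `a` in the box with `|ℓ_i(a)| < δ B` is at most `(2 δ B / |A i k| + 1) (2 B + 1)^(g-1)`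
(map `a ↦ (a with the k-th coordinate erased)`, fibres; e.g. `Finset.card_le_mul_card_image` with `Function.update a k 0`, whose image lies in a box of `(2B+1)^(g-1)` points).  Sum over `i`: at most
`g (2 δ B / α + 1) (2 B + 1)^(g-1)`, `α = min |A i k|`, and this is `≤ ε (2 B + 1)^g` if `g (2 δ B / α + 1) ≤ ε (2 B + 1)`: `δ = ε α / (2 (g + 1))` and `g ≤ ε B`.  Model: `count` in `Cnt.lean`.
-/

set_option autoImplicit false

open Filter Topology

namespace MP_f4ff90_agP

private theorem CntL_card {g : ℕ} (i : Fin g) (B : ℕ) :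
    (Fintype.piFinset fun j : Fin g => if j = i then ({0} : Finset ℤ) else
      Finset.Icc (-(B : ℤ)) B).card * (2 * B + 1) = (2 * B + 1) ^ g := by
  have hc : ∀ m : ℕ, (Finset.Icc (-(m : ℤ)) m).card = 2 * m + 1 := by
    intro m
    rw [Int.card_Icc]
    omega
  have h1 : ∀ j : Fin g, (if j = i then ({0} : Finset ℤ) else Finset.Icc (-(B : ℤ)) B).card =
      if j = i then 1 else 2 * B + 1 := by
    intro j
    split_ifs
    · exact Finset.card_singleton _
    · exact hc _
  rw [Fintype.card_piFinset, Finset.prod_congr rfl (fun j _ => h1 j),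
    ← Finset.mul_prod_erase Finset.univ _ (Finset.mem_univ i), if_pos rfl, one_mul]
  have h2 : ∏ x ∈ Finset.univ.erase i, (if x = i then 1 else 2 * B + 1) =
      ∏ x ∈ Finset.univ.erase i, (2 * B + 1) :=
    Finset.prod_congr rfl fun x hx => if_neg (Finset.ne_of_mem_erase hx)
  have hg : 0 < g := i.pos
  rw [h2, Finset.prod_const, Finset.card_erase_of_mem (Finset.mem_univ i), Finset.card_univ,
    Fintype.card_fin, ← pow_succ]
  congr 1
  omega

/-- integers which differ by at most `m` -/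
private theorem CntL_int (s : Finset ℤ) (m : ℕ) (h : ∀ x ∈ s, ∀ y ∈ s, x - y ≤ m) :
    s.card ≤ m + 1 := by
  rcases s.eq_empty_or_nonempty with hs | hs
  · rw [hs, Finset.card_empty]
    exact Nat.zero_le _
  · have h1 : s ⊆ Finset.Icc (s.min' hs) (s.min' hs + m) := by
      intro x hx
      rw [Finset.mem_Icc]
      refine ⟨Finset.min'_le _ _ hx, ?_⟩
      have := h x hx _ (Finset.min'_mem s hs)
      linarith
    refine (Finset.card_le_card h1).trans ?_
    rw [Int.card_Icc]
    omega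

open Classical in
/-- the number of the points of the box at which one linear form is small -/
private theorem CntL_one {g : ℕ} (L : Fin g → ℝ) (k : Fin g) (hk : L k ≠ 0) (B : ℕ) (D : ℝ)
    (hD : 0 ≤ D) :
    (((Fintype.piFinset fun _ : Fin g => Finset.Icc (-(B : ℤ)) B).filter fun a =>
      |∑ j, L j * (a j : ℝ)| < D).card : ℝ) * (2 * (B : ℝ) + 1) ≤
      (2 * D / |L k| + 1) * (2 * (B : ℝ) + 1) ^ g := by
  obtain ⟨s, hs⟩ : ∃ s, s = ((Fintype.piFinset fun _ : Fin g => Finset.Icc (-(B : ℤ)) B).filter fun a =>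
      |∑ j, L j * (a j : ℝ)| < D) := ⟨_, rfl⟩
  rw [← hs]
  have hk0 : 0 < |L k| := abs_pos.2 hk
  obtain ⟨m, hm⟩ : ∃ m : ℕ, m = ⌊2 * D / |L k|⌋₊ := ⟨_, rfl⟩
  have hm1 : (m : ℝ) ≤ 2 * D / |L k| := by
    rw [hm]
    exact Nat.floor_le (by positivity)
  have hm2 : 2 * D / |L k| < m + 1 := by
    rw [hm]
    exact Nat.lt_floor_add_one _
  -- the fibres
  have h1 : s.card ≤ (m + 1) * (s.image fun a => Function.update a k 0).card := by
    refine Finset.card_le_mul_card_image s (m + 1) fun b _ => ?_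
    have hinj : Set.InjOn (fun a : Fin g → ℤ => a k)
        (s.filter fun a => Function.update a k 0 = b : Finset (Fin g → ℤ)) := by
      intro a ha a' ha' haa
      rw [Finset.mem_coe, Finset.mem_filter] at ha ha'
      funext j
      by_cases hj : j = k
      · rw [hj]
        exact haa
      · have h2 := congrFun (ha.2.trans ha'.2.symm) j
        rwa [Function.update_of_ne hj, Function.update_of_ne hj] at h2
    rw [← Finset.card_image_of_injOn hinj]
    refine CntL_int _ m fun x hx y hy => ?_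
    rw [Finset.mem_image] at hx hy
    obtain ⟨a, ha, rfl⟩ := hx
    obtain ⟨a', ha', rfl⟩ := hy
    rw [Finset.mem_filter] at ha ha'
    have hsa := ha.1
    have hsa' := ha'.1
    rw [hs, Finset.mem_filter] at hsa hsa'
    have hoff : ∀ j, j ≠ k → a j = a' j := fun j hj => by
      have h2 := congrFun (ha.2.trans ha'.2.symm) j
      rwa [Function.update_of_ne hj, Function.update_of_ne hj] at h2
    have hdiff : ∑ j, L j * (a j : ℝ) - ∑ j, L j * (a' j : ℝ) = L k * ((a k : ℝ) - a' k) := by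
      rw [← Finset.sum_sub_distrib, Finset.sum_eq_single k]
      · ring
      · intro j _ hj
        rw [hoff j hj]
        ring
      · intro h
        exact absurd (Finset.mem_univ k) h
    have h3 : |L k| * |(a k : ℝ) - a' k| < 2 * D := by
      rw [← abs_mul, ← hdiff]
      have h4 := abs_sub (∑ j, L j * (a j : ℝ)) (∑ j, L j * (a' j : ℝ))
      have h5 := hsa.2
      have h6 := hsa'.2
      linarith
    have h4 : |(a k : ℝ) - a' k| < 2 * D / |L k| := by
      rw [lt_div_iff₀ hk0, mul_comm]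
      exact h3
    have h5 : ((a k - a' k : ℤ) : ℝ) < ((m + 1 : ℤ) : ℝ) := by
      push_cast
      exact (le_abs_self _).trans_lt (h4.trans hm2)
    have h6 : a k - a' k < (m + 1 : ℤ) := Int.cast_lt.1 h5
    omega
  have h2 : (s.image fun a => Function.update a k 0) ⊆
      Fintype.piFinset fun j : Fin g => if j = k then ({0} : Finset ℤ) else
        Finset.Icc (-(B : ℤ)) B := by
    intro b hb
    rw [Finset.mem_image] at hb
    obtain ⟨a, ha, rfl⟩ := hb
    rw [hs, Finset.mem_filter, Fintype.mem_piFinset] at ha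
    rw [Fintype.mem_piFinset]
    intro j
    by_cases hj : j = k
    · rw [if_pos hj, hj, Function.update_self, Finset.mem_singleton]
    · rw [if_neg hj, Function.update_of_ne hj]
      exact ha.1 j
  have h3 := (h1.trans (Nat.mul_le_mul_left _ (Finset.card_le_card h2)))
  have h4 : s.card * (2 * B + 1) ≤ (m + 1) * (2 * B + 1) ^ g := by
    calc s.card * (2 * B + 1) ≤ ((m + 1) * (Fintype.piFinset fun j : Fin g =>
          if j = k then ({0} : Finset ℤ) else Finset.Icc (-(B : ℤ)) B).card) * (2 * B + 1) :=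
        Nat.mul_le_mul_right _ h3
      _ = _ := by rw [mul_assoc, CntL_card]
  have h5 : (s.card : ℝ) * (2 * (B : ℝ) + 1) ≤ ((m : ℝ) + 1) * (2 * (B : ℝ) + 1) ^ g := by
    exact_mod_cast h4
  refine h5.trans (mul_le_mul_of_nonneg_right ?_ (by positivity))
  linarith

open Classical in
theorem countL {l g e : ℕ} (he : 1 ≤ e) (C : ℝ) (hC : 0 < C) (A : Fin l → Fin g → ℝ)
    (hA : ∀ i, ∃ k, A i k ≠ 0) : ∀ ε > (0 : ℝ), ∃ B₀ : ℕ, ∀ B ≥ B₀,
    (((Fintype.piFinset fun _ : Fin g => Finset.Icc (-(B : ℤ)) B).filter fun a =>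
      ¬ ∀ i, C * (B : ℝ) ^ (e - 1) ≤ |∑ k, A i k * (a k : ℝ)| ^ e).card : ℝ) ≤
      ε * (2 * (B : ℝ) + 1) ^ g := by
  intro ε hε
  choose k hk using hA
  obtain ⟨S, hS⟩ : ∃ S : ℝ, S = ∑ i, 1 / |A i (k i)| := ⟨_, rfl⟩
  have hS0 : 0 ≤ S := by
    rw [hS]
    exact Finset.sum_nonneg fun i _ => by positivity
  obtain ⟨δ, hδ⟩ : ∃ δ : ℝ, δ = ε / (2 * (S + 1)) := ⟨_, rfl⟩
  have hδ0 : 0 < δ := by rw [hδ]; positivity
  refine ⟨max ⌈C / δ ^ e⌉₊ ⌈(l : ℝ) / ε⌉₊, fun B hB => ?_⟩
  have hB1 : C / δ ^ e ≤ B := (Nat.le_ceil _).trans (by exact_mod_cast (le_max_left _ _).trans hB)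
  have hB2 : (l : ℝ) / ε ≤ B := (Nat.le_ceil _).trans (by exact_mod_cast (le_max_right _ _).trans hB)
  have hB0 : (0 : ℝ) < B := lt_of_lt_of_le (by positivity) hB1
  rw [div_le_iff₀ (by positivity)] at hB1 hB2
  have hsub : ((Fintype.piFinset fun _ : Fin g => Finset.Icc (-(B : ℤ)) B).filter fun a =>
      ¬ ∀ i, C * (B : ℝ) ^ (e - 1) ≤ |∑ k, A i k * (a k : ℝ)| ^ e) ⊆
      Finset.univ.biUnion fun i : Fin l =>
        (Fintype.piFinset fun _ : Fin g => Finset.Icc (-(B : ℤ)) B).filter fun a =>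
          |∑ j, A i j * (a j : ℝ)| < δ * B := by
    intro a ha
    rw [Finset.mem_filter] at ha
    obtain ⟨ha1, ha2⟩ := ha
    rw [not_forall] at ha2
    obtain ⟨i, hi⟩ := ha2
    rw [not_le] at hi
    rw [Finset.mem_biUnion]
    refine ⟨i, Finset.mem_univ i, ?_⟩
    rw [Finset.mem_filter]
    refine ⟨ha1, ?_⟩
    by_contra hcon
    rw [not_lt] at hcon
    have h3 : (δ * B) ^ e ≤ |∑ j, A i j * (a j : ℝ)| ^ e :=
      pow_le_pow_left₀ (by positivity) hcon e
    have h4 : C * (B : ℝ) ^ (e - 1) ≤ (δ * B) ^ e := by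
      have h5 : (B : ℝ) ^ e = (B : ℝ) ^ (e - 1) * B := by
        rw [← pow_succ]
        congr 1
        omega
      calc C * (B : ℝ) ^ (e - 1) ≤ B * δ ^ e * (B : ℝ) ^ (e - 1) :=
            mul_le_mul_of_nonneg_right hB1 (by positivity)
        _ = (δ * B) ^ e := by rw [mul_pow, h5]; ring
    linarith
  have hcard := (Finset.card_le_card hsub).trans Finset.card_biUnion_le
  have hK : (0 : ℝ) < 2 * (B : ℝ) + 1 := by positivity
  have hone : ∀ i : Fin l, ((((Fintype.piFinset fun _ : Fin g => Finset.Icc (-(B : ℤ)) B).filter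
      fun a => |∑ j, A i j * (a j : ℝ)| < δ * B).card : ℕ) : ℝ) ≤
      (2 * (δ * B) * (1 / |A i (k i)|) + 1) * ((2 * B + 1) ^ g / (2 * B + 1)) := by
    intro i
    have h1 := CntL_one (A i) (k i) (hk i) B (δ * B) (by positivity)
    rw [mul_one_div, ← mul_div_assoc, le_div_iff₀ hK]
    exact h1
  have hsum : ((∑ i : Fin l, ((Fintype.piFinset fun _ : Fin g => Finset.Icc (-(B : ℤ)) B).filter
      fun a => |∑ j, A i j * (a j : ℝ)| < δ * B).card : ℕ) : ℝ) ≤
      (2 * (δ * B) * S + l) * ((2 * B + 1) ^ g / (2 * B + 1)) := by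
    rw [Nat.cast_sum]
    refine (Finset.sum_le_sum fun i _ => hone i).trans (le_of_eq ?_)
    rw [← Finset.sum_mul, Finset.sum_add_distrib, ← Finset.mul_sum, ← hS, Finset.sum_const,
      Finset.card_univ, Fintype.card_fin, nsmul_eq_mul, mul_one]
  have hfin : 2 * (δ * B) * S + l ≤ ε * (2 * B + 1) := by
    have h1 : 2 * δ * S ≤ ε := by
      rw [hδ, show 2 * (ε / (2 * (S + 1))) * S = (ε * S) / (S + 1) by
        field_simp, div_le_iff₀ (by positivity)]
      nlinarith
    have h2 : 2 * (δ * B) * S ≤ ε * B := by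
      calc 2 * (δ * B) * S = 2 * δ * S * B := by ring
        _ ≤ ε * B := mul_le_mul_of_nonneg_right h1 hB0.le
    nlinarith
  calc _ ≤ ((∑ i : Fin l, ((Fintype.piFinset fun _ : Fin g => Finset.Icc (-(B : ℤ)) B).filter
      fun a => |∑ j, A i j * (a j : ℝ)| < δ * B).card : ℕ) : ℝ) := by
        exact_mod_cast hcard
    _ ≤ (2 * (δ * B) * S + l) * ((2 * B + 1) ^ g / (2 * B + 1)) := hsum
    _ ≤ (ε * (2 * B + 1)) * ((2 * B + 1) ^ g / (2 * B + 1)) :=
        mul_le_mul_of_nonneg_right hfin (by positivity)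
    _ = _ := by field_simp

end MP_f4ff90_agP
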