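import Pool.Agent.Lib.MP_f4ff90_agP.Defs

/-!
# Orbits along which the terms `c_i x_(σ i) ^ e` dominate: definitions
-/

set_option autoImplicit false

open Filter Topology

namespace MP_f4ff90_agP

variable {g : ℕ}

/-- the terms `c_i x_(σ i) ^ e` dominate along the orbit `x` of `F` -/
structure Dom (e : ℕ) (σ : Equiv.Perm (Fin g)) (F : Fin g → MvPolynomial (Fin g) ℝ)
    (x : ℕ → Fin g → ℝ) : Prop where
  coeff : ∀ i, (F i).coeff (Finsupp.single (σ i) e) ≠ 0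
  orbit : ∀ n i, x (n + 1) i = MvPolynomial.eval (x n) (F i)
  ne : ∃ n₀, ∀ n ≥ n₀, ∀ i, x n i ≠ 0
  dom : ∀ i, ∀ m ∈ (F i).support, m ≠ Finsupp.single (σ i) e →
    Tendsto (fun n => (∏ j, x n j ^ m j) / x n (σ i) ^ e) atTop (𝓝 0)

/-- the ratio of the monomial `m` and of `x_(σ i) ^ e` -/
noncomputable def Tt (e : ℕ) (σ : Equiv.Perm (Fin g)) (x : ℕ → Fin g → ℝ) (i : Fin g)
    (m : Fin g →₀ ℕ) (n : ℕ) : ℝ := (∏ j, x n j ^ m j) / x n (σ i) ^ e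

/-- the relative error -/
noncomputable def eps (e : ℕ) (σ : Equiv.Perm (Fin g)) (F : Fin g → MvPolynomial (Fin g) ℝ)
    (x : ℕ → Fin g → ℝ) (n : ℕ) (i : Fin g) : ℝ :=
  ∑ m ∈ (F i).support.erase (Finsupp.single (σ i) e),
    ((F i).coeff m / (F i).coeff (Finsupp.single (σ i) e)) * Tt e σ x i m n

/-- the representation `x n i = γ n i exp (η (σ ^ n i) e ^ n) exp (ℓ n i)` -/
structure Rp (e r : ℕ) (σ : Equiv.Perm (Fin g)) (F : Fin g → MvPolynomial (Fin g) ℝ)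
    (x : ℕ → Fin g → ℝ) (κ : ℝ) (η : Fin g → ℝ) (γ ℓ : ℕ → Fin g → ℝ) (n₁ : ℕ) : Prop where
  kpos : 0 < κ
  rpos : 0 < r
  sig : σ ^ r = 1
  per : ∀ n i, γ (n + r) i = γ n i
  gne : ∀ n i, γ n i ≠ 0
  rep : ∀ n ≥ n₁, ∀ i, x n i = γ n i * Real.exp (η ((σ ^ n) i) * (e : ℝ) ^ n) * Real.exp (ℓ n i)
  sml : ∀ i, Sml e κ (fun n => ℓ n i)
  recu : ∀ n ≥ n₁, ∀ i, ℓ (n + 1) i = e * ℓ n (σ i) + Real.log (1 + eps e σ F x n i)
  smT : ∀ i, ∀ m ∈ (F i).support, m ≠ Finsupp.single (σ i) e → Sml e κ (Tt e σ x i m)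

end MP_f4ff90_agP
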