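import Mathlib
import Pool.Agent.Lib.MP_f4ff90_agP.Defs

/-!
LEAF Grw.  Growth.
PROOF.  `b = C / (e^r - 1)` (`C ≥ 0` w.l.o.g.), `s n = - t n - b`: `s (n+r) ≥ e^r s n` for `n ≥ n₀` since `C + b = e^r b`.  Choose `N ≥ n₀` with `s n ≥ 1` for all
`n ≥ N`.  For `n = N + j + k r`, `j < r`: `s n ≥ e^(k r) = e^n / e^(N+j) ≥ e^n / e^(N+r)`.  `κ = e^(-(N+r))`, `n₁ = N`; `- t n ≥ s n`.
-/

set_option autoImplicit false

open Filter Topology

namespace MP_f4ff90_agP

theorem growth {e r : ℕ} (he : 2 ≤ e) (hr : 0 < r) {t : ℕ → ℝ} (hbot : Tendsto t atTop atBot) {C : ℝ}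
    {n₀ : ℕ} (h : ∀ n ≥ n₀, |t (n + r) - (e : ℝ) ^ r * t n| ≤ C) :
    ∃ κ > 0, ∃ n₁, ∀ n ≥ n₁, t n ≤ -(κ * (e : ℝ) ^ n) := by
  have hC : 0 ≤ C := le_trans (abs_nonneg _) (h n₀ le_rfl)
  have he1 : (1 : ℝ) < e := by exact_mod_cast he
  have he0 : (0 : ℝ) < e := by linarith
  have her : 1 < (e : ℝ) ^ r := one_lt_pow₀ he1 hr.ne'
  have hd : 0 < (e : ℝ) ^ r - 1 := by linarith
  obtain ⟨b, hb, hb0⟩ : ∃ b : ℝ, ((e : ℝ) ^ r - 1) * b = C ∧ 0 ≤ b :=
    ⟨C / ((e : ℝ) ^ r - 1), by field_simp, by positivity⟩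
  have step : ∀ n ≥ n₀, (e : ℝ) ^ r * (-t n - b) ≤ -t (n + r) - b := by
    intro n hn
    have := (abs_le.1 (h n hn)).2
    nlinarith
  have iter : ∀ k : ℕ, ∀ n ≥ n₀, (e : ℝ) ^ (k * r) * (-t n - b) ≤ -t (n + k * r) - b := by
    intro k
    induction k with
    | zero => intro n _; simp
    | succ k ih =>
      intro n hn
      have h1 := ih n hn
      have h2 := step (n + k * r) (by omega)
      have e1 : n + k * r + r = n + (k + 1) * r := by ring
      rw [e1] at h2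
      have e2 : (e : ℝ) ^ ((k + 1) * r) = (e : ℝ) ^ r * (e : ℝ) ^ (k * r) := by
        rw [← pow_add]; congr 1; ring
      rw [e2, mul_assoc]
      exact le_trans (mul_le_mul_of_nonneg_left h1 (by positivity)) h2
  obtain ⟨N', hN'⟩ := eventually_atTop.1 (hbot.eventually (eventually_le_atBot (-(1 + b))))
  set N := max N' n₀ with hN
  have hNs : ∀ n ≥ N, 1 ≤ -t n - b := by
    intro n hn
    have := hN' n (le_trans (le_max_left _ _) hn)
    linarith
  refine ⟨((e : ℝ) ^ (N + r))⁻¹, by positivity, N, ?_⟩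
  intro n hn
  set m := n - N with hm
  have hnm : n = N + m % r + (m / r) * r := by
    have := Nat.mod_add_div m r
    have h3 : r * (m / r) = (m / r) * r := Nat.mul_comm _ _
    omega
  have hlt : m % r < r := Nat.mod_lt _ hr
  have h1 := iter (m / r) (N + m % r) (by
    have : n₀ ≤ N := le_max_right _ _
    omega)
  rw [← hnm] at h1
  have h2 := hNs (N + m % r) (by omega)
  have h3 : (e : ℝ) ^ ((m / r) * r) ≤ -t n - b := by
    refine le_trans ?_ h1
    exact le_mul_of_one_le_right (by positivity) h2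
  have h4 : ((e : ℝ) ^ (N + r))⁻¹ * (e : ℝ) ^ n ≤ (e : ℝ) ^ ((m / r) * r) := by
    rw [inv_mul_le_iff₀ (by positivity), ← pow_add]
    exact pow_le_pow_right₀ he1.le (by omega)
  linarith

end MP_f4ff90_agP
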