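import Mathlib
import Pool.Agent.Lib.MP_f4ff90_agP.DomD
import Pool.Agent.Lib.MP_f4ff90_agP.Grw

/-!
LEAF DomA.  The ratios are doubly exponentially small.
PROOF.  `orb_eps`: `MvPolynomial.eval_eq` (sum over the support), the term of `single (σ i) e` is `c_i x_(σ i)^e` (`Finset.add_sum_erase`), the others
`coeff m * ∏ x_j^(m j) = c_i x_(σ i)^e * (coeff m / c_i) * Tt`.
`dom_sml`: `eps n i → 0` by `h.dom`.  For `n ≥ n₀` with `|eps| ≤ 1/2`: `a n i = log |x n i|` satisfies `a (n+1) i = e a n (σ i) + log |c_i| + log |1 + eps n i|`,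
so `|a (n+1) i - e a n (σ i)| ≤ A` for `n ≥ n₀`; by induction on `k`, `|a (n+k) i - e^k a n (σ^k i)| ≤ A_k`; with `r = orderOf σ`:
`|a (n+r) i - e^r a n i| ≤ A_r`.  For a pair `(i, m)`: `t n = log |Tt n| = ∑_j m_j a n j - e a n (σ i)` satisfies `|t (n+r) - e^r t n| ≤ A'`, and `t n → -∞` as
`Tt n → 0`, `Tt n ≠ 0`.  `growth` gives `κ(i,m) > 0`; take the minimum over the finitely many pairs (`κ = 1` if there are none);
`|Tt n| = exp (t n) ≤ exp (-κ e^n)`.
-/

set_option autoImplicit false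

open Filter Topology

namespace MP_f4ff90_agP

variable {g e : ℕ} {σ : Equiv.Perm (Fin g)} {F : Fin g → MvPolynomial (Fin g) ℝ} {x : ℕ → Fin g → ℝ}

theorem orb_eps (h : Dom e σ F x) : ∃ n₀, ∀ n ≥ n₀, ∀ i, x (n + 1) i =
    (F i).coeff (Finsupp.single (σ i) e) * x n (σ i) ^ e * (1 + eps e σ F x n i) := by
  obtain ⟨n₀, h0⟩ := h.ne
  refine ⟨n₀, fun n hn i => ?_⟩
  have hX : x n (σ i) ^ e ≠ 0 := pow_ne_zero _ (h0 n hn _)
  have hc := h.coeff i
  have hmem : Finsupp.single (σ i) e ∈ (F i).support := MvPolynomial.mem_support_iff.2 hc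
  rw [h.orbit n i, MvPolynomial.eval_eq', ← Finset.add_sum_erase _ _ hmem]
  have h1 : ∏ j, x n j ^ (Finsupp.single (σ i) e) j = x n (σ i) ^ e := by
    rw [Finset.prod_eq_single (σ i)]
    · rw [Finsupp.single_eq_same]
    · intro j _ hj
      rw [Finsupp.single_eq_of_ne hj, pow_zero]
    · intro hj
      exact absurd (Finset.mem_univ _) hj
  rw [h1, mul_add, mul_one, eps, Finset.mul_sum]
  congr 1
  refine Finset.sum_congr rfl fun m _ => ?_
  unfold Tt
  field_simp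

private lemma DomA_min {ι : Type*} (S : Finset ι) (P : ι → ℝ → Prop)
    (mono : ∀ p κ κ', κ' ≤ κ → P p κ → P p κ') (h : ∀ p ∈ S, ∃ κ > 0, P p κ) :
    ∃ κ > 0, ∀ p ∈ S, P p κ := by
  classical
  induction S using Finset.induction_on with
  | empty => exact ⟨1, one_pos, by simp⟩
  | insert a S ha ih =>
    obtain ⟨κ, hκ, h1⟩ := ih fun p hp => h p (Finset.mem_insert_of_mem hp)
    obtain ⟨κ', hκ', h2⟩ := h a (Finset.mem_insert_self a S)
    refine ⟨min κ κ', lt_min hκ hκ', fun p hp => ?_⟩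
    rcases Finset.mem_insert.1 hp with rfl | hp
    · exact mono _ _ _ (min_le_right _ _) h2
    · exact mono _ _ _ (min_le_left _ _) (h1 p hp)

private lemma DomA_mono {κ κ' : ℝ} (h : κ' ≤ κ) {u : ℕ → ℝ} (hu : Sml e κ u) : Sml e κ' u := by
  obtain ⟨C, n₀, h1⟩ := hu
  refine ⟨|C|, n₀, fun n hn => (h1 n hn).trans ?_⟩
  have h2 : C * Real.exp (-(κ * (e : ℝ) ^ n)) ≤ |C| * Real.exp (-(κ * (e : ℝ) ^ n)) :=
    mul_le_mul_of_nonneg_right (le_abs_self C) (Real.exp_pos _).le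
  refine h2.trans (mul_le_mul_of_nonneg_left (Real.exp_le_exp.2 ?_) (abs_nonneg C))
  have h3 : (0 : ℝ) ≤ (e : ℝ) ^ n := by positivity
  nlinarith

private lemma DomA_eps (h : Dom e σ F x) (i : Fin g) :
    Tendsto (fun n => eps e σ F x n i) atTop (𝓝 0) := by
  unfold eps
  have h1 : ∀ m ∈ (F i).support.erase (Finsupp.single (σ i) e), Tendsto (fun n =>
      ((F i).coeff m / (F i).coeff (Finsupp.single (σ i) e)) * Tt e σ x i m n) atTop (𝓝 0) := by
    intro m hm
    have h2 := (h.dom i m (Finset.mem_of_mem_erase hm) (Finset.ne_of_mem_erase hm)).const_mul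
      ((F i).coeff m / (F i).coeff (Finsupp.single (σ i) e))
    rw [mul_zero] at h2
    exact h2
  have h3 := tendsto_finsetSum _ h1
  rw [Finset.sum_const_zero] at h3
  exact h3

private lemma DomA_log {y : ℝ} (hy : |y| ≤ 1 / 2) : abs (Real.log (abs (1 + y))) ≤ Real.log 2 := by
  obtain ⟨h1, h2⟩ := abs_le.1 hy
  have h3 : (1 : ℝ) / 2 ≤ 1 + y := by linarith
  rw [abs_of_pos (by linarith : (0 : ℝ) < 1 + y), abs_le]
  constructor
  · rw [← Real.log_inv]
    exact Real.log_le_log (by norm_num) (by norm_num at h3 ⊢; linarith)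
  · exact Real.log_le_log (by linarith) (by linarith)

/-- one step and `k` steps of the orbit -/
private lemma DomA_step (h : Dom e σ F x) : ∃ n₁, (∀ n ≥ n₁, ∀ i, x n i ≠ 0) ∧ ∀ k, ∃ A : ℝ,
    ∀ n ≥ n₁, ∀ i, abs (Real.log |x (n + k) i| - (e : ℝ) ^ k * Real.log |x n ((σ ^ k) i)|) ≤ A := by
  obtain ⟨n₀, h0⟩ := h.ne
  obtain ⟨n₂, h2⟩ := orb_eps h
  have h3 : ∀ᶠ n in atTop, ∀ i, |eps e σ F x n i| ≤ 1 / 2 := by
    rw [eventually_all]
    intro i
    have h4 := (DomA_eps h i).abs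
    rw [abs_zero] at h4
    exact (h4.eventually (gt_mem_nhds (by norm_num : (0 : ℝ) < 1 / 2))).mono fun n hn => hn.le
  obtain ⟨n₃, h3⟩ := eventually_atTop.1 h3
  refine ⟨max n₀ (max n₂ n₃), fun n hn i => h0 n (le_trans (le_max_left _ _) hn) i, ?_⟩
  set A : ℝ := ∑ i, abs (Real.log |(F i).coeff (Finsupp.single (σ i) e)|) + Real.log 2 with hA
  have h5 : ∀ n ≥ max n₀ (max n₂ n₃), ∀ i,
      abs (Real.log |x (n + 1) i| - (e : ℝ) * Real.log |x n (σ i)|) ≤ A := by
    intro n hn i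
    have hn0 : n₀ ≤ n := le_trans (le_max_left _ _) hn
    have hn2 : n₂ ≤ n := le_trans (le_trans (le_max_left _ _) (le_max_right _ _)) hn
    have hn3 : n₃ ≤ n := le_trans (le_trans (le_max_right _ _) (le_max_right _ _)) hn
    have h6 := h3 n hn3 i
    have h7 : (0 : ℝ) < 1 + eps e σ F x n i := by
      have := (abs_le.1 h6).1
      linarith
    have h8 : Real.log |x (n + 1) i| = Real.log |(F i).coeff (Finsupp.single (σ i) e)| +
        (e : ℝ) * Real.log |x n (σ i)| + Real.log |1 + eps e σ F x n i| := by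
      rw [h2 n hn2 i, abs_mul, abs_mul, abs_pow, Real.log_mul, Real.log_mul, Real.log_pow]
      · exact abs_ne_zero.2 (h.coeff i)
      · exact pow_ne_zero _ (abs_ne_zero.2 (h0 n hn0 _))
      · exact mul_ne_zero (abs_ne_zero.2 (h.coeff i)) (pow_ne_zero _ (abs_ne_zero.2 (h0 n hn0 _)))
      · exact abs_ne_zero.2 h7.ne'
    have h9 := DomA_log h6
    have h10 : abs (Real.log |(F i).coeff (Finsupp.single (σ i) e)|) ≤
        ∑ i, abs (Real.log |(F i).coeff (Finsupp.single (σ i) e)|) :=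
      Finset.single_le_sum (f := fun i => abs (Real.log |(F i).coeff (Finsupp.single (σ i) e)|))
        (fun i _ => abs_nonneg _) (Finset.mem_univ i)
    have h11 : Real.log |x (n + 1) i| - (e : ℝ) * Real.log |x n (σ i)| =
        Real.log |(F i).coeff (Finsupp.single (σ i) e)| + Real.log |1 + eps e σ F x n i| := by
      rw [h8]
      ring
    rw [h11]
    refine (abs_add_le _ _).trans ?_
    rw [hA]
    linarith
  intro k
  induction k with
  | zero =>
    refine ⟨0, fun n _ i => ?_⟩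
    simp
  | succ k ih =>
    obtain ⟨B, hB⟩ := ih
    refine ⟨A + (e : ℝ) * B, fun n hn i => ?_⟩
    have h6 := h5 (n + k) (by omega) i
    have h7 := hB n hn (σ i)
    have h8 : Real.log |x (n + (k + 1)) i| -
        (e : ℝ) ^ (k + 1) * Real.log |x n ((σ ^ (k + 1)) i)| =
        (Real.log |x (n + k + 1) i| - (e : ℝ) * Real.log |x (n + k) (σ i)|) +
        (e : ℝ) * (Real.log |x (n + k) (σ i)| -
          (e : ℝ) ^ k * Real.log |x n ((σ ^ k) (σ i))|) := by
      have h9 : (σ ^ (k + 1)) i = (σ ^ k) (σ i) := by rw [pow_succ]; rfl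
      rw [h9, ← add_assoc]
      ring
    rw [h8]
    refine (abs_add_le _ _).trans (add_le_add h6 ?_)
    rw [abs_mul, Nat.abs_cast]
    exact mul_le_mul_of_nonneg_left h7 (Nat.cast_nonneg _)

private lemma DomA_tt (h : Dom e σ F x) (he : 2 ≤ e) (i : Fin g) (m : Fin g →₀ ℕ)
    (hm : m ∈ (F i).support) (hne : m ≠ Finsupp.single (σ i) e) :
    ∃ κ > 0, Sml e κ (Tt e σ x i m) := by
  obtain ⟨n₁, h1, h2⟩ := DomA_step h
  obtain ⟨A, hA⟩ := h2 (orderOf σ)
  have hA' : ∀ n ≥ n₁, ∀ j, abs (Real.log |x (n + orderOf σ) j| -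
      (e : ℝ) ^ (orderOf σ) * Real.log |x n j|) ≤ A := by
    intro n hn j
    have h3 := hA n hn j
    rw [pow_orderOf_eq_one, Equiv.Perm.one_apply] at h3
    exact h3
  set t : ℕ → ℝ := fun n => ∑ j, (m j : ℝ) * Real.log |x n j| - (e : ℝ) * Real.log |x n (σ i)|
    with ht
  have hT0 : ∀ n ≥ n₁, Tt e σ x i m n ≠ 0 := by
    intro n hn
    unfold Tt
    exact div_ne_zero (Finset.prod_ne_zero_iff.2 fun j _ => pow_ne_zero _ (h1 n hn j))
      (pow_ne_zero _ (h1 n hn _))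
  have hTt : ∀ n ≥ n₁, Real.log |Tt e σ x i m n| = t n := by
    intro n hn
    unfold Tt
    rw [abs_div, Finset.abs_prod, abs_pow, Real.log_div, Real.log_prod, Real.log_pow]
    · rw [ht]
      congr 1
      refine Finset.sum_congr rfl fun j _ => ?_
      rw [abs_pow, Real.log_pow]
    · intro j _
      exact abs_ne_zero.2 (pow_ne_zero _ (h1 n hn j))
    · exact Finset.prod_ne_zero_iff.2 fun j _ => abs_ne_zero.2 (pow_ne_zero _ (h1 n hn j))
    · exact pow_ne_zero _ (abs_ne_zero.2 (h1 n hn _))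
  have hbot : Tendsto t atTop atBot := by
    have h3 : Tendsto (fun n => Tt e σ x i m n) atTop (𝓝[≠] 0) := by
      refine tendsto_nhdsWithin_iff.2 ⟨h.dom i m hm hne, ?_⟩
      exact eventually_atTop.2 ⟨n₁, fun n hn => hT0 n hn⟩
    have h4 := Real.tendsto_log_nhdsNE_zero.comp h3
    refine h4.congr' (eventually_atTop.2 ⟨n₁, fun n hn => ?_⟩)
    rw [Function.comp_apply, ← Real.log_abs]
    exact hTt n hn
  have hC : ∀ n ≥ n₁, |t (n + orderOf σ) - (e : ℝ) ^ (orderOf σ) * t n| ≤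
      (∑ j, (m j : ℝ)) * A + (e : ℝ) * A := by
    intro n hn
    have h3 : t (n + orderOf σ) - (e : ℝ) ^ (orderOf σ) * t n =
        ∑ j, (m j : ℝ) * (Real.log |x (n + orderOf σ) j| -
          (e : ℝ) ^ (orderOf σ) * Real.log |x n j|) -
        (e : ℝ) * (Real.log |x (n + orderOf σ) (σ i)| -
          (e : ℝ) ^ (orderOf σ) * Real.log |x n (σ i)|) := by
      simp only [ht, mul_sub, Finset.sum_sub_distrib, Finset.mul_sum]
      have h4 : ∀ j : Fin g, (e : ℝ) ^ (orderOf σ) * ((m j : ℝ) * Real.log |x n j|) =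
          (m j : ℝ) * ((e : ℝ) ^ (orderOf σ) * Real.log |x n j|) := fun j => by ring
      rw [Finset.sum_congr rfl fun j _ => h4 j]
      ring
    rw [h3]
    refine (abs_sub _ _).trans (add_le_add ?_ ?_)
    · refine (Finset.abs_sum_le_sum_abs _ _).trans ?_
      rw [Finset.sum_mul]
      refine Finset.sum_le_sum fun j _ => ?_
      rw [abs_mul, Nat.abs_cast]
      exact mul_le_mul_of_nonneg_left (hA' n hn j) (Nat.cast_nonneg _)
    · rw [abs_mul, Nat.abs_cast]
      exact mul_le_mul_of_nonneg_left (hA' n hn (σ i)) (Nat.cast_nonneg _)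
  obtain ⟨κ, hκ, n₂, h5⟩ := growth he (orderOf_pos σ) hbot hC
  refine ⟨κ, hκ, 1, max n₁ n₂, fun n hn => ?_⟩
  have hn1 : n₁ ≤ n := le_trans (le_max_left _ _) hn
  have hn2 : n₂ ≤ n := le_trans (le_max_right _ _) hn
  rw [one_mul, ← Real.exp_log (abs_pos.2 (hT0 n hn1)), hTt n hn1]
  exact Real.exp_le_exp.2 (h5 n hn2)

theorem dom_sml (he : 2 ≤ e) (h : Dom e σ F x) : ∃ κ > 0, ∀ i, ∀ m ∈ (F i).support,
    m ≠ Finsupp.single (σ i) e → Sml e κ (Tt e σ x i m) := by
  obtain ⟨κ, hκ, h1⟩ := DomA_min Finset.univ (fun (i : Fin g) κ => ∀ m ∈ (F i).support,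
      m ≠ Finsupp.single (σ i) e → Sml e κ (Tt e σ x i m))
    (fun i κ κ' hk h2 m hm hne => DomA_mono hk (h2 m hm hne))
    (fun i _ => by
      obtain ⟨κ, hκ, h2⟩ := DomA_min (F i).support
        (fun m κ => m ≠ Finsupp.single (σ i) e → Sml e κ (Tt e σ x i m))
        (fun m κ κ' hk h2 hne => DomA_mono hk (h2 hne))
        (fun m hm => by
          by_cases hne : m = Finsupp.single (σ i) e
          · exact ⟨1, one_pos, fun h3 => absurd hne h3⟩
          · obtain ⟨κ, hκ, h3⟩ := DomA_tt h he i m hm hne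
            exact ⟨κ, hκ, fun _ => h3⟩)
      exact ⟨κ, hκ, fun m hm hne => h2 m hm hne⟩)
  exact ⟨κ, hκ, fun i => h1 i (Finset.mem_univ i)⟩

end MP_f4ff90_agP
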