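import Mathlib
import Pool.Agent.Lib.MP_f4ff90_agP.Defs

/-!
LEAF ExA.  Closure properties of the class `Exq`.
PROOFS.  `e ≥ 2`, so `(e:ℝ)^n ≥ 1`.  In all definitions one may replace `C` by `|C|` (or `max C 0`).
`exq_const`: `G n = single 0 c`.  `exq_add`, `exq_smul`: add, scale the `G`s (`ev` is an algebra homomorphism).
`exq_mul`: with `U = ev .. (G n)`, `V = ev .. (H n)`: `uv - UV = (u - U) v + U (v - V)`, `|U| ≤ |u| + C exp(-M e^n) ≤ |u| + C`
(`M ≥ 0`); `ev (G * H) = ev G * ev H`.  `exq_shift`: if `G n = ∑ c_μ single μ` put `G' n = ∑ c_μ single (e μ)` of `G (n + 1)`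
(`AddMonoidAlgebra.mapDomain` or `AddMonoidAlgebra.mapDomainRingHom` with `μ ↦ e * μ`; `ev t (G') = ev (e t) G`), error `exp(-M e^(n+1)) ≤ exp(-M e^n)`.
`exq_single_mul`: `G' n = single (θ n) (c n) * G n`; `|c n|` takes finitely many values (periodic), `θ n ≤ θ₀`.
`exq_small`: `G = 0`.
-/

set_option autoImplicit false
set_option linter.unusedVariables false

open Filter Topology

namespace MP_f4ff90_agP

private theorem ExA_up {M E C : ℝ} (hE : 0 ≤ E) (h : M ≤ C * E) : M ≤ |C| * E :=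
  h.trans (mul_le_mul_of_nonneg_right (le_abs_self C) hE)

theorem exq_congr {e r : ℕ} {M : ℝ} {u v : ℕ → ℝ} (h : ∃ n₀, ∀ n ≥ n₀, u n = v n) (hu : Exq e r M u) :
    Exq e r M v := by
  obtain ⟨n₀, h0⟩ := h
  obtain ⟨G, C, n₁, hG, h1⟩ := hu
  refine ⟨G, C, max n₀ n₁, hG, fun n hn => ?_⟩
  rw [← h0 n (le_trans (le_max_left _ _) hn)]
  exact h1 n (le_trans (le_max_right _ _) hn)

theorem exq_mono {e r : ℕ} (he : 2 ≤ e) {M M' : ℝ} {u : ℕ → ℝ} (h : M' ≤ M) (hu : Exq e r M u) :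
    Exq e r M' u := by
  obtain ⟨G, C, n₁, hG, h1⟩ := hu
  refine ⟨G, |C|, n₁, hG, fun n hn => ?_⟩
  refine (ExA_up (Real.exp_nonneg _) (h1 n hn)).trans ?_
  refine mul_le_mul_of_nonneg_left (Real.exp_le_exp.2 ?_) (abs_nonneg C)
  have : (0 : ℝ) ≤ (e : ℝ) ^ n := by positivity
  have := mul_le_mul_of_nonneg_right h this
  linarith

theorem exq_const {e r : ℕ} (he : 2 ≤ e) (M c : ℝ) : Exq e r M (fun _ => c) := by
  refine ⟨fun _ => AddMonoidAlgebra.single 0 c, 0, 0, fun _ => rfl, fun n _ => ?_⟩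
  rw [ev_single]
  simp

theorem exq_small {e r : ℕ} {M : ℝ} {u : ℕ → ℝ} (hu : Sml e M u) : Exq e r M u := by
  obtain ⟨C, n₀, h⟩ := hu
  refine ⟨fun _ => 0, C, n₀, fun _ => rfl, fun n hn => ?_⟩
  rw [map_zero, sub_zero]
  exact h n hn

theorem exq_add {e r : ℕ} {M : ℝ} {u v : ℕ → ℝ} (hu : Exq e r M u) (hv : Exq e r M v) :
    Exq e r M (fun n => u n + v n) := by
  obtain ⟨G, C, n₁, hG, h1⟩ := hu
  obtain ⟨H, D, n₂, hH, h2⟩ := hv
  refine ⟨fun n => G n + H n, C + D, max n₁ n₂, fun n => by simp only [hG n, hH n], fun n hn => ?_⟩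
  rw [map_add]
  have e1 := h1 n (le_trans (le_max_left _ _) hn)
  have e2 := h2 n (le_trans (le_max_right _ _) hn)
  have e3 : u n + v n - (ev ((e : ℝ) ^ n) (G n) + ev ((e : ℝ) ^ n) (H n)) =
      (u n - ev ((e : ℝ) ^ n) (G n)) + (v n - ev ((e : ℝ) ^ n) (H n)) := by ring
  rw [e3]
  refine (abs_add_le _ _).trans ?_
  rw [add_mul]
  exact add_le_add e1 e2

theorem exq_smul {e r : ℕ} {M : ℝ} {u : ℕ → ℝ} (c : ℝ) (hu : Exq e r M u) :
    Exq e r M (fun n => c * u n) := by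
  obtain ⟨G, C, n₁, hG, h1⟩ := hu
  refine ⟨fun n => c • G n, |c| * C, n₁, fun n => by simp only [hG n], fun n hn => ?_⟩
  rw [map_smul, smul_eq_mul, ← mul_sub, abs_mul, mul_assoc]
  exact mul_le_mul_of_nonneg_left (h1 n hn) (abs_nonneg c)

theorem exq_sum {e r : ℕ} (he : 2 ≤ e) {M : ℝ} {ι : Type*} (s : Finset ι) (u : ι → ℕ → ℝ)
    (hu : ∀ i ∈ s, Exq e r M (u i)) : Exq e r M (fun n => ∑ i ∈ s, u i n) := by
  classical
  induction s using Finset.induction_on with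
  | empty =>
    simp only [Finset.sum_empty]
    exact exq_const he M 0
  | insert i s hi ih =>
    have h1 := exq_add (hu i (Finset.mem_insert_self i s)) (ih fun j hj => hu j (Finset.mem_insert_of_mem hj))
    simp only [Finset.sum_insert hi]
    exact h1

theorem exq_mul {e r : ℕ} (he : 2 ≤ e) {M : ℝ} (hM : 0 ≤ M) {u v : ℕ → ℝ} (hu : Exq e r M u)
    (hv : Exq e r M v) (bu : Bd u) (bv : Bd v) : Exq e r M (fun n => u n * v n) := by
  obtain ⟨G, C, n₁, hG, h1⟩ := hu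
  obtain ⟨H, D, n₂, hH, h2⟩ := hv
  obtain ⟨A, n₃, h3⟩ := bu
  obtain ⟨B, n₄, h4⟩ := bv
  refine ⟨fun n => G n * H n, |C| * |B| + (|A| + |C|) * |D|, n₁ + n₂ + n₃ + n₄, fun n => by simp only [hG n, hH n],
    fun n hn => ?_⟩
  have e1 := h1 n (by omega)
  have e2 := h2 n (by omega)
  have e3 := (h3 n (by omega)).trans (le_abs_self A)
  have e4 := (h4 n (by omega)).trans (le_abs_self B)
  rw [map_mul]
  set U := ev ((e : ℝ) ^ n) (G n)
  set V := ev ((e : ℝ) ^ n) (H n)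
  set E := Real.exp (-(M * (e : ℝ) ^ n)) with hE
  have hE0 : 0 ≤ E := Real.exp_nonneg _
  have hE1 : E ≤ 1 := by
    rw [hE, Real.exp_le_one_iff]
    have : 0 ≤ M * (e : ℝ) ^ n := by positivity
    linarith
  have e1' := ExA_up hE0 e1
  have e2' := ExA_up hE0 e2
  have e5 : |U| ≤ |A| + |C| := by
    have h5 : U = u n - (u n - U) := by ring
    rw [h5]
    refine (abs_sub _ _).trans (add_le_add e3 (e1'.trans ?_))
    calc |C| * E ≤ |C| * 1 := mul_le_mul_of_nonneg_left hE1 (abs_nonneg C)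
      _ = |C| := mul_one _
  have e6 : u n * v n - U * V = (u n - U) * v n + U * (v n - V) := by ring
  rw [e6]
  refine (abs_add_le _ _).trans ?_
  rw [abs_mul, abs_mul]
  have e7 : |u n - U| * |v n| ≤ (|C| * E) * |B| := mul_le_mul e1' e4 (abs_nonneg _) (by positivity)
  have e8 : |U| * |v n - V| ≤ (|A| + |C|) * (|D| * E) := mul_le_mul e5 e2' (abs_nonneg _) (by positivity)
  calc |u n - U| * |v n| + |U| * |v n - V| ≤ (|C| * E) * |B| + (|A| + |C|) * (|D| * E) := add_le_add e7 e8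
    _ = (|C| * |B| + (|A| + |C|) * |D|) * E := by ring

theorem exq_pow {e r : ℕ} (he : 2 ≤ e) {M : ℝ} (hM : 0 ≤ M) {u : ℕ → ℝ} (hu : Exq e r M u)
    (bu : Bd u) (k : ℕ) : Exq e r M (fun n => u n ^ k) := by
  induction k with
  | zero =>
    simp only [pow_zero]
    exact exq_const he M 1
  | succ k ih =>
    have hb : Bd (fun n => u n ^ k) := by
      obtain ⟨A, n₃, h3⟩ := bu
      refine ⟨A ^ k, n₃, fun n hn => ?_⟩
      rw [abs_pow]
      exact pow_le_pow_left₀ (abs_nonneg _) (h3 n hn) k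
    simp only [pow_succ]
    exact exq_mul he hM ih hu hb bu

private theorem ExA_dil (t a : ℝ) (g : AddMonoidAlgebra ℝ ℝ) :
    ev t (AddMonoidAlgebra.mapDomainAlgHom ℝ ℝ (AddMonoidHom.mulLeft a : ℝ →+ ℝ) g) = ev (a * t) g := by
  induction g using AddMonoidAlgebra.induction_linear with
  | zero => simp only [map_zero]
  | add f g hf hg => simp only [map_add, hf, hg]
  | single μ c =>
    have h : AddMonoidAlgebra.mapDomainAlgHom ℝ ℝ (AddMonoidHom.mulLeft a : ℝ →+ ℝ) (AddMonoidAlgebra.single μ c) =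
        AddMonoidAlgebra.single (a * μ) c := by
      simp
    rw [h, ev_single, ev_single]
    congr 2
    ring

theorem exq_shift {e r : ℕ} (he : 2 ≤ e) {M : ℝ} (hM : 0 ≤ M) {u : ℕ → ℝ} (hu : Exq e r M u)
    (k : ℕ) : Exq e r M (fun n => u (n + k)) := by
  obtain ⟨G, C, n₁, hG, h1⟩ := hu
  refine ⟨fun n => AddMonoidAlgebra.mapDomainAlgHom ℝ ℝ (AddMonoidHom.mulLeft ((e : ℝ) ^ k) : ℝ →+ ℝ) (G (n + k)), |C|, n₁,
    fun n => ?_, fun n hn => ?_⟩
  · have : n + r + k = n + k + r := by omega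
    simp only [this, hG]
  · rw [ExA_dil]
    have e1 := ExA_up (Real.exp_nonneg _) (h1 (n + k) (by omega))
    have e2 : (e : ℝ) ^ k * (e : ℝ) ^ n = (e : ℝ) ^ (n + k) := by rw [pow_add, mul_comm]
    rw [e2]
    refine e1.trans (mul_le_mul_of_nonneg_left (Real.exp_le_exp.2 ?_) (abs_nonneg C))
    have e3 : (e : ℝ) ^ n ≤ (e : ℝ) ^ (n + k) := pow_le_pow_right₀ (by exact_mod_cast (by omega : 1 ≤ e)) (by omega)
    have := mul_le_mul_of_nonneg_left e3 hM
    linarith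

theorem exq_single_mul {e r : ℕ} (he : 2 ≤ e) (hr : 0 < r) {M : ℝ} {v : ℕ → ℝ} (hv : Exq e r M v)
    (θ c : ℕ → ℝ) (hθ : ∀ n, θ (n + r) = θ n) (hc : ∀ n, c (n + r) = c n) (θ₀ : ℝ)
    (h : ∀ n, θ n ≤ θ₀) : Exq e r (M - θ₀) (fun n => c n * Real.exp (θ n * (e : ℝ) ^ n) * v n) := by
  obtain ⟨G, C, n₁, hG, h1⟩ := hv
  have hc' : ∀ n, |c n| ≤ ∑ i ∈ Finset.range r, |c i| := by
    intro n
    have hp : Function.Periodic c r := hc
    rw [← hp.map_mod_nat n]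
    exact Finset.single_le_sum (f := fun i => |c i|) (fun i _ => abs_nonneg _) (Finset.mem_range.2 (Nat.mod_lt n hr))
  refine ⟨fun n => AddMonoidAlgebra.single (θ n) (c n) * G n, (∑ i ∈ Finset.range r, |c i|) * |C|, n₁,
    fun n => by simp only [hθ n, hc n, hG n], fun n hn => ?_⟩
  have e1 := ExA_up (Real.exp_nonneg _) (h1 n hn)
  rw [map_mul, ev_single, ← mul_sub, abs_mul, abs_mul, abs_of_pos (Real.exp_pos _)]
  have e2 : Real.exp (θ n * (e : ℝ) ^ n) ≤ Real.exp (θ₀ * (e : ℝ) ^ n) :=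
    Real.exp_le_exp.2 (mul_le_mul_of_nonneg_right (h n) (by positivity))
  have hs : 0 ≤ ∑ i ∈ Finset.range r, |c i| := Finset.sum_nonneg fun _ _ => abs_nonneg _
  calc |c n| * Real.exp (θ n * (e : ℝ) ^ n) * |v n - ev ((e : ℝ) ^ n) (G n)|
      ≤ (∑ i ∈ Finset.range r, |c i|) * Real.exp (θ₀ * (e : ℝ) ^ n) * (|C| * Real.exp (-(M * (e : ℝ) ^ n))) :=
        mul_le_mul (mul_le_mul (hc' n) e2 (Real.exp_nonneg _) hs) e1 (abs_nonneg _) (by positivity)
    _ = (∑ i ∈ Finset.range r, |c i|) * |C| * (Real.exp (θ₀ * (e : ℝ) ^ n) * Real.exp (-(M * (e : ℝ) ^ n))) := by ring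
    _ = (∑ i ∈ Finset.range r, |c i|) * |C| * Real.exp (-((M - θ₀) * (e : ℝ) ^ n)) := by
        rw [← Real.exp_add]
        congr 2
        ring

end MP_f4ff90_agP
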