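import Mathlib
import Pool.Agent.Lib.MP_f4ff90_agP.ExA

/-!
LEAF ExE.  Exponential and logarithm of small sequences.
PROOF.  `|w n| ≤ C exp (-κ e^n)`, so `w n → 0`.  Choose `K` with `K κ ≥ M`.  `exp w = ∑_(k<K) w^k / k! + R`, `|R| ≤ 2 |w|^K` for `|w| ≤ 1`
(`Real.exp_bound` or similar; any bound `C |w|^K`), `log (1 + w) = ∑_(1≤k<K) ± w^k / k + R`, `|R| ≤ 2 |w|^K` for `|w| ≤ 1/2`
(`Real.abs_log_sub_add_sum_range_le`).  `R` is `Sml e M`, so `exq_small`; the polynomial part is in the class by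
`exq_pow`, `exq_smul`, `exq_sum` (`w` is bounded, `M ≥ 0`).
-/

set_option autoImplicit false

open Filter Topology

namespace MP_f4ff90_agP

/-- A small sequence is eventually below every positive bound. -/
private theorem ExE_tend {e : ℕ} (he : 2 ≤ e) {κ : ℝ} (hκ : 0 < κ) {w : ℕ → ℝ} (hs : Sml e κ w)
    {δ : ℝ} (hδ : 0 < δ) : ∃ n₀ : ℕ, ∀ n ≥ n₀, |w n| ≤ δ := by
  obtain ⟨C, n₀, h⟩ := hs
  have he1 : (1 : ℝ) < (e : ℝ) := by exact_mod_cast (by omega : 1 < e)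
  have h1 : Tendsto (fun n : ℕ => κ * (e : ℝ) ^ n) atTop atTop :=
    (tendsto_pow_atTop_atTop_of_one_lt he1).const_mul_atTop hκ
  have h2 : Tendsto (fun n : ℕ => C * Real.exp (-(κ * (e : ℝ) ^ n))) atTop (𝓝 (C * 0)) :=
    (Real.tendsto_exp_neg_atTop_nhds_zero.comp h1).const_mul C
  rw [mul_zero] at h2
  obtain ⟨n₁, h3⟩ := eventually_atTop.1 (h2.eventually_lt_const hδ)
  exact ⟨max n₀ n₁, fun n hn => (h n (le_of_max_le_left hn)).trans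
    (h3 n (le_of_max_le_right hn)).le⟩

/-- Terms of order `K` are small of order `M ≤ K κ`. -/
private theorem ExE_rem {e : ℕ} {κ M : ℝ} {w R : ℕ → ℝ} (hs : Sml e κ w) (K : ℕ) (D : ℝ)
    (hD : 0 ≤ D) (hK : M ≤ K * κ) (h : ∃ n₀ : ℕ, ∀ n ≥ n₀, |R n| ≤ D * |w n| ^ K) :
    Sml e M R := by
  obtain ⟨C, n₀, h0⟩ := hs
  obtain ⟨n₁, h1⟩ := h
  refine ⟨D * C ^ K, max n₀ n₁, fun n hn => ?_⟩
  have h2 := h0 n (le_of_max_le_left hn)
  have h3 := h1 n (le_of_max_le_right hn)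
  have h4 : 0 ≤ (e : ℝ) ^ n := by positivity
  have hC : 0 ≤ C := by
    by_contra hC
    have := mul_neg_of_neg_of_pos (not_le.1 hC) (Real.exp_pos (-(κ * (e : ℝ) ^ n)))
    linarith [abs_nonneg (w n)]
  have h5 : |w n| ^ K ≤ C ^ K * Real.exp (-(M * (e : ℝ) ^ n)) := by
    refine (pow_le_pow_left₀ (abs_nonneg _) h2 K).trans ?_
    rw [mul_pow, ← Real.exp_nat_mul]
    refine mul_le_mul_of_nonneg_left (Real.exp_le_exp.2 ?_) (pow_nonneg hC K)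
    have h6 := mul_le_mul_of_nonneg_right hK h4
    linarith
  calc |R n| ≤ D * |w n| ^ K := h3
    _ ≤ D * (C ^ K * Real.exp (-(M * (e : ℝ) ^ n))) := mul_le_mul_of_nonneg_left h5 hD
    _ = D * C ^ K * Real.exp (-(M * (e : ℝ) ^ n)) := by ring

private theorem ExE_bd {e : ℕ} (he : 2 ≤ e) {κ : ℝ} (hκ : 0 < κ) {w : ℕ → ℝ} (hs : Sml e κ w) :
    Bd w := by
  obtain ⟨n₀, h⟩ := ExE_tend he hκ hs one_pos
  exact ⟨1, n₀, h⟩

private theorem ExE_K {κ : ℝ} (hκ : 0 < κ) (M : ℝ) : ∃ K : ℕ, 0 < K ∧ M ≤ K * κ := by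
  obtain ⟨K, hK⟩ := exists_nat_gt (M / κ)
  refine ⟨K + 1, Nat.succ_pos K, ?_⟩
  have h1 : M < K * κ := (div_lt_iff₀ hκ).1 hK
  push_cast
  linarith

theorem exq_exp {e r : ℕ} (he : 2 ≤ e) {κ M : ℝ} (hκ : 0 < κ) (hM : 0 ≤ M) {w : ℕ → ℝ}
    (hs : Sml e κ w) (hw : Exq e r M w) : Exq e r M (fun n => Real.exp (w n)) := by
  obtain ⟨K, hK0, hK⟩ := ExE_K hκ M
  obtain ⟨n₀, h0⟩ := ExE_tend he hκ hs one_pos
  have h1 : Exq e r M (fun n => ∑ m ∈ Finset.range K, ((m.factorial : ℝ)⁻¹) * w n ^ m) :=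
    exq_sum he _ (fun m n => ((m.factorial : ℝ)⁻¹) * w n ^ m) fun m _ =>
      exq_smul _ (exq_pow he hM hw (ExE_bd he hκ hs) m)
  have h2 : Sml e M (fun n => Real.exp (w n) -
      ∑ m ∈ Finset.range K, ((m.factorial : ℝ)⁻¹) * w n ^ m) := by
    refine ExE_rem hs K ((K.succ : ℝ) * ((K.factorial : ℝ) * K)⁻¹) (by positivity) hK
      ⟨n₀, fun n hn => ?_⟩
    have h3 := Real.exp_bound (h0 n hn) hK0
    have h4 : ∑ m ∈ Finset.range K, w n ^ m / (m.factorial : ℝ) =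
        ∑ m ∈ Finset.range K, ((m.factorial : ℝ)⁻¹) * w n ^ m :=
      Finset.sum_congr rfl fun m _ => by rw [div_eq_mul_inv, mul_comm]
    rw [h4] at h3
    refine h3.trans (le_of_eq ?_)
    rw [mul_comm (_ * _) (|w n| ^ K), div_eq_mul_inv]
  refine exq_congr ⟨0, fun n _ => ?_⟩ (exq_add h1 (exq_small h2))
  ring

/-- The remainder of the logarithm. -/
private theorem ExE_logb {x : ℝ} (hx : |x| ≤ 1 / 2) (K : ℕ) :
    |Real.log (1 + x) + ∑ i ∈ Finset.range K, ((i : ℝ) + 1)⁻¹ * (-x) ^ (i + 1)| ≤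
      2 * |x| ^ (K + 1) := by
  have h1 : |(-x)| < 1 := by rw [abs_neg]; linarith
  have h2 := Real.abs_log_sub_add_sum_range_le h1 K
  rw [abs_neg] at h2
  have h3 : ∑ i ∈ Finset.range K, (-x) ^ (i + 1) / ((i : ℝ) + 1) =
      ∑ i ∈ Finset.range K, ((i : ℝ) + 1)⁻¹ * (-x) ^ (i + 1) :=
    Finset.sum_congr rfl fun i _ => by rw [div_eq_mul_inv, mul_comm]
  rw [h3, sub_neg_eq_add, add_comm] at h2
  refine h2.trans ?_
  have h4 : 0 < 1 - |x| := by linarith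
  rw [div_le_iff₀ h4]
  have h5 : 0 ≤ |x| ^ (K + 1) := by positivity
  nlinarith [mul_nonneg h5 (by linarith : (0 : ℝ) ≤ 1 / 2 - |x|)]

theorem exq_log {e r : ℕ} (he : 2 ≤ e) {κ M : ℝ} (hκ : 0 < κ) (hM : 0 ≤ M) {w : ℕ → ℝ}
    (hs : Sml e κ w) (hw : Exq e r M w) : Exq e r M (fun n => Real.log (1 + w n)) := by
  obtain ⟨K, hK0, hK⟩ := ExE_K hκ M
  obtain ⟨n₀, h0⟩ := ExE_tend he hκ hs (by norm_num : (0 : ℝ) < 1 / 2)
  have h1 : Exq e r M (fun n => ∑ i ∈ Finset.range K,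
      (-(((i : ℝ) + 1)⁻¹ * (-1) ^ (i + 1))) * w n ^ (i + 1)) :=
    exq_sum he _ (fun (i : ℕ) n => (-(((i : ℝ) + 1)⁻¹ * (-1) ^ (i + 1))) * w n ^ (i + 1))
      fun m _ => exq_smul _ (exq_pow he hM hw (ExE_bd he hκ hs) (m + 1))
  have h2 : Sml e M (fun n => Real.log (1 + w n) +
      ∑ i ∈ Finset.range K, ((i : ℝ) + 1)⁻¹ * (-w n) ^ (i + 1)) := by
    refine ExE_rem hs (K + 1) 2 (by norm_num) ?_ ⟨n₀, fun n hn => ExE_logb (h0 n hn) K⟩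
    push_cast
    linarith
  refine exq_congr ⟨0, fun n _ => ?_⟩ (exq_add h1 (exq_small h2))
  have h3 : ∑ i ∈ Finset.range K, (-(((i : ℝ) + 1)⁻¹ * (-1) ^ (i + 1))) * w n ^ (i + 1) =
      -∑ i ∈ Finset.range K, ((i : ℝ) + 1)⁻¹ * (-w n) ^ (i + 1) := by
    rw [← Finset.sum_neg_distrib]
    refine Finset.sum_congr rfl fun i _ => ?_
    rw [neg_pow (w n) (i + 1)]
    ring
  rw [h3]
  ring

/-- `w` small implies `log (1 + w)` small -/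
theorem sml_log {e : ℕ} (he : 2 ≤ e) {κ : ℝ} (hκ : 0 < κ) {w : ℕ → ℝ} (hs : Sml e κ w) :
    Sml e κ (fun n => Real.log (1 + w n)) := by
  obtain ⟨n₀, h0⟩ := ExE_tend he hκ hs (by norm_num : (0 : ℝ) < 1 / 2)
  refine ExE_rem hs 1 2 (by norm_num) ?_ ⟨n₀, fun n hn => ?_⟩
  · push_cast
    linarith
  · have h1 := ExE_logb (h0 n hn) 0
    rw [Finset.range_zero, Finset.sum_empty, add_zero, zero_add] at h1
    exact h1

end MP_f4ff90_agP
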