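import Mathlib
import Pool.Agent.Lib.MP_f4ff90_agP.Defs

/-!
LEAF Sgn.  Signs.
PROOF.  `e` even: `s (n+1) i = c i` for `n ≥ n₀`, so `s` is constant from `n₀ + 1` on.  `e` odd: `s (n+1) i = c i * s n (σ i)`, so for `n ≥ n₀`
`s (n+k) i = (∏_(j<k) c (σ^j i)) * s n (σ^k i)`; with `k = orderOf σ`: `s (n+k) i = γ i * s n i`, `γ i = ± 1`, and twice this gives `s n i`.
-/

set_option autoImplicit false

open Filter Topology

namespace MP_f4ff90_agP

private lemma Sgn_prod {ι : Type*} (S : Finset ι) {f : ι → ℝ} (h : ∀ i, f i = 1 ∨ f i = -1) :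
    (∏ i ∈ S, f i) * (∏ i ∈ S, f i) = 1 := by
  rw [← Finset.prod_mul_distrib]
  refine Finset.prod_eq_one fun i _ => ?_
  rcases h i with h | h <;> rw [h] <;> norm_num

private lemma Sgn_iter {g e : ℕ} (σ : Equiv.Perm (Fin g)) {s : ℕ → Fin g → ℝ} {c : Fin g → ℝ}
    (hs : ∀ n i, s n i = 1 ∨ s n i = -1) {n₀ : ℕ}
    (h : ∀ n ≥ n₀, ∀ i, s (n + 1) i = c i * s n (σ i) ^ e) (he : Odd e) (n : ℕ) (hn : n₀ ≤ n) :
    ∀ (k : ℕ) (i : Fin g), s (n + k) i = (∏ j ∈ Finset.range k, c ((σ ^ j) i)) * s n ((σ ^ k) i) := by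
  intro k
  induction k with
  | zero => intro i; simp
  | succ k ih =>
    intro i
    have h1 : s (n + k) (σ i) ^ e = s (n + k) (σ i) := by
      rcases hs (n + k) (σ i) with h2 | h2
      · rw [h2, one_pow]
      · rw [h2, he.neg_one_pow]
    rw [← add_assoc, h (n + k) (by omega) i, h1, ih (σ i), Finset.prod_range_succ', pow_zero,
      Equiv.Perm.one_apply]
    have h3 : ∀ j : ℕ, (σ ^ (j + 1)) i = (σ ^ j) (σ i) := fun j => by
      rw [pow_succ, Equiv.Perm.mul_apply]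
    have h4 : ∏ j ∈ Finset.range k, c ((σ ^ (j + 1)) i) = ∏ j ∈ Finset.range k, c ((σ ^ j) (σ i)) :=
      Finset.prod_congr rfl fun j _ => by rw [h3 j]
    rw [h3 k, h4]
    ring

theorem signs {g e : ℕ} (σ : Equiv.Perm (Fin g)) {s : ℕ → Fin g → ℝ} {c : Fin g → ℝ}
    (hs : ∀ n i, s n i = 1 ∨ s n i = -1) (hc : ∀ i, c i = 1 ∨ c i = -1) {n₀ : ℕ}
    (h : ∀ n ≥ n₀, ∀ i, s (n + 1) i = c i * s n (σ i) ^ e) :
    ∀ n ≥ n₀ + 1, ∀ i, s (n + 2 * orderOf σ) i = s n i := by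
  intro n hn i
  rcases Nat.even_or_odd e with he | he
  · have h1 : ∀ m ≥ n₀ + 1, s m i = c i := by
      intro m hm
      obtain ⟨m, rfl⟩ : ∃ l, m = l + 1 := ⟨m - 1, by omega⟩
      rw [h m (by omega) i]
      rcases hs m (σ i) with h2 | h2
      · rw [h2, one_pow, mul_one]
      · rw [h2, he.neg_one_pow, mul_one]
    rw [h1 _ (by omega), h1 _ hn]
  · have h1 : ∀ m ≥ n₀, s (m + orderOf σ) i =
        (∏ j ∈ Finset.range (orderOf σ), c ((σ ^ j) i)) * s m i := by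
      intro m hm
      have h2 := Sgn_iter σ hs h he m hm (orderOf σ) i
      rwa [pow_orderOf_eq_one, Equiv.Perm.one_apply] at h2
    have h2 := Sgn_prod (Finset.range (orderOf σ)) (f := fun j => c ((σ ^ j) i)) fun j => hc _
    rw [two_mul, ← add_assoc, h1 _ (by omega), h1 _ (by omega), ← mul_assoc, h2, one_mul]

end MP_f4ff90_agP
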