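import Mathlib
import Pool.Agent.Lib.MP_f4ff90_agP.DomA
import Pool.Agent.Lib.MP_f4ff90_agP.Asy
import Pool.Agent.Lib.MP_f4ff90_agP.Sgn
import Pool.Agent.Lib.MP_f4ff90_agP.ExE

/-!
LEAF DomB.  The representation.
PROOF.  `κ` of `dom_sml`.  `eps n i` is a finite combination of `Sml e κ` sequences, so `Sml e κ`, and `f n i = log (1 + eps n i)` is `Sml e κ` (`sml_log`).
For `n ≥ n₁`: `x n i ≠ 0`, `|eps n i| < 1`, `orb_eps`.  `a n i = log |x n i|` satisfies `a (n+1) i = e a n (σ i) + log |c_i| + f n i` for `n ≥ n₁`, so `asym` gives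
`η, κ', ℓ`: `|x n i| = exp (η (σ^n i) e^n) exp (κ' i) exp (ℓ n i)`.  Signs: `s n i = 1` if `0 ≤ x n i`, else `-1`; `s (n+1) i = sgn (c_i) * s n (σ i)^e` for
`n ≥ n₁` (`1 + eps > 0`), so by `signs` `s (n + r) i = s n i` for `n ≥ n₁ + 1`, `r = 2 * orderOf σ`.  `γ n i = s (n + r * (n₁ + 1)) i * exp (κ' i)`: periodic for all `n`, equal to
`s n i * exp (κ' i)` for `n ≥ n₁ + 1`.  `σ ^ r = 1`: `pow_mul`, `pow_orderOf_eq_one`.  `r > 0`: `orderOf_pos`.
-/

set_option autoImplicit false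

open Filter Topology

namespace MP_f4ff90_agP

variable {g e : ℕ} {σ : Equiv.Perm (Fin g)} {F : Fin g → MvPolynomial (Fin g) ℝ} {x : ℕ → Fin g → ℝ}

private theorem DomB_zero (κ : ℝ) : Sml e κ (fun _ => 0) :=
  ⟨0, 0, fun n _ => by simp⟩

private theorem DomB_add {κ : ℝ} {u v : ℕ → ℝ} (hu : Sml e κ u) (hv : Sml e κ v) :
    Sml e κ (fun n => u n + v n) := by
  obtain ⟨C, n₀, h⟩ := hu
  obtain ⟨D, m₀, h'⟩ := hv
  refine ⟨C + D, max n₀ m₀, fun n hn => ?_⟩
  have h1 := h n ((le_max_left _ _).trans hn)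
  have h2 := h' n ((le_max_right _ _).trans hn)
  calc |u n + v n| ≤ |u n| + |v n| := abs_add_le _ _
    _ ≤ C * Real.exp (-(κ * (e : ℝ) ^ n)) + D * Real.exp (-(κ * (e : ℝ) ^ n)) := add_le_add h1 h2
    _ = (C + D) * Real.exp (-(κ * (e : ℝ) ^ n)) := by ring

private theorem DomB_smul {κ : ℝ} {u : ℕ → ℝ} (c : ℝ) (hu : Sml e κ u) :
    Sml e κ (fun n => c * u n) := by
  obtain ⟨C, n₀, h⟩ := hu
  refine ⟨|c| * C, n₀, fun n hn => ?_⟩
  rw [abs_mul, mul_assoc]
  exact mul_le_mul_of_nonneg_left (h n hn) (abs_nonneg c)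

private theorem DomB_sum {κ : ℝ} {ι : Type*} (s : Finset ι) (u : ι → ℕ → ℝ)
    (hu : ∀ i ∈ s, Sml e κ (u i)) : Sml e κ (fun n => ∑ i ∈ s, u i n) := by
  classical
  induction s using Finset.induction_on with
  | empty =>
    simp only [Finset.sum_empty]
    exact DomB_zero κ
  | insert a s ha ih =>
    simp only [Finset.sum_insert ha]
    exact DomB_add (hu a (Finset.mem_insert_self _ _))
      (ih fun i hi => hu i (Finset.mem_insert_of_mem hi))

private theorem DomB_lt (he : 2 ≤ e) {κ : ℝ} (hκ : 0 < κ) {u : ℕ → ℝ} (hu : Sml e κ u) :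
    ∃ N, ∀ n ≥ N, |u n| < 1 := by
  obtain ⟨C, n₀, h⟩ := hu
  have he1 : (1 : ℝ) < e := by exact_mod_cast he
  have h1 : Tendsto (fun n : ℕ => C * Real.exp (-(κ * (e : ℝ) ^ n))) atTop (𝓝 (C * 0)) :=
    (Real.tendsto_exp_neg_atTop_nhds_zero.comp
      ((tendsto_pow_atTop_atTop_of_one_lt he1).const_mul_atTop hκ)).const_mul C
  rw [mul_zero] at h1
  obtain ⟨N, hN⟩ := eventually_atTop.1 (h1.eventually (gt_mem_nhds (zero_lt_one' ℝ)))
  exact ⟨max n₀ N, fun n hn => (h n ((le_max_left _ _).trans hn)).trans_lt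
    (hN n ((le_max_right _ _).trans hn))⟩

private theorem DomB_sgn {y : ℝ} (hy : y ≠ 0) : y / |y| = 1 ∨ y / |y| = -1 := by
  rcases lt_or_gt_of_ne hy with h | h
  · right
    rw [abs_of_neg h, div_neg, div_self hy]
  · left
    rw [abs_of_pos h, div_self hy]

theorem exists_rp (he : 2 ≤ e) (h : Dom e σ F x) :
    ∃ (κ : ℝ) (η : Fin g → ℝ) (γ ℓ : ℕ → Fin g → ℝ) (n₁ : ℕ), Rp e (2 * orderOf σ) σ F x κ η γ ℓ n₁ := by
  classical
  obtain ⟨κ, hκ, hT⟩ := dom_sml he h
  have heps : ∀ i, Sml e κ (fun n => eps e σ F x n i) := by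
    intro i
    unfold eps
    refine DomB_sum _ _ fun m hm => ?_
    rw [Finset.mem_erase] at hm
    exact DomB_smul _ (hT i m hm.2 hm.1)
  have hlog : ∀ i, Sml e κ (fun n => Real.log (1 + eps e σ F x n i)) := fun i =>
    sml_log he hκ (heps i)
  choose N1 hN1 using fun i => DomB_lt he hκ (heps i)
  obtain ⟨N2, hN2⟩ := orb_eps h
  obtain ⟨N3, hN3⟩ := h.ne
  set N : ℕ := max (Finset.univ.sup N1) (max N2 N3) with hN
  have a1 : ∀ n ≥ N, ∀ i, 0 < 1 + eps e σ F x n i := by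
    intro n hn i
    have h1 := hN1 i n ((Finset.le_sup (Finset.mem_univ i)).trans ((le_max_left _ _).trans hn))
    have h2 := (abs_lt.1 h1).1
    linarith
  have a2 : ∀ n ≥ N, ∀ i, x (n + 1) i =
      (F i).coeff (Finsupp.single (σ i) e) * x n (σ i) ^ e * (1 + eps e σ F x n i) := fun n hn =>
    hN2 n (((le_max_left _ _).trans (le_max_right _ _)).trans hn)
  have a3 : ∀ n ≥ N, ∀ i, x n i ≠ 0 := fun n hn =>
    hN3 n (((le_max_right _ _).trans (le_max_right _ _)).trans hn)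
  obtain ⟨η, κ', ℓ, b1, b2, b3⟩ := asym he σ
    (fun i => Real.log |(F i).coeff (Finsupp.single (σ i) e)|)
    (a := fun n i => Real.log |x n i|) (f := fun n i => Real.log (1 + eps e σ F x n i)) hκ hlog
    (n₀ := N) (by
      intro n hn i
      have h1 := a1 n hn i
      have h2 : |(F i).coeff (Finsupp.single (σ i) e)| ≠ 0 := abs_ne_zero.2 (h.coeff i)
      have h3 : |x n (σ i)| ^ e ≠ 0 := pow_ne_zero _ (abs_ne_zero.2 (a3 n hn _))
      rw [a2 n hn i, abs_mul, abs_mul, abs_pow, abs_of_pos h1,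
        Real.log_mul (mul_ne_zero h2 h3) h1.ne', Real.log_mul h2 h3, Real.log_pow]
      ring)
  set s : ℕ → Fin g → ℝ := fun n i => if x n i = 0 then 1 else x n i / |x n i| with hs
  have s1 : ∀ n i, s n i = 1 ∨ s n i = -1 := by
    intro n i
    rw [hs]
    simp only
    split_ifs with h0
    · exact Or.inl rfl
    · exact DomB_sgn h0
  have s2 : ∀ n ≥ N, ∀ i, s n i = x n i / |x n i| := fun n hn i => by
    rw [hs]
    simp only
    rw [if_neg (a3 n hn i)]
  have s3 := signs σ (s := s) (e := e)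
    (c := fun i => (F i).coeff (Finsupp.single (σ i) e) / |(F i).coeff (Finsupp.single (σ i) e)|)
    s1 (fun i => DomB_sgn (h.coeff i)) (n₀ := N) (by
      intro n hn i
      have h1 := a1 n hn i
      have h2 : |(F i).coeff (Finsupp.single (σ i) e)| ≠ 0 := abs_ne_zero.2 (h.coeff i)
      have h3 : |x n (σ i)| ≠ 0 := abs_ne_zero.2 (a3 n hn _)
      rw [s2 n hn (σ i), s2 (n + 1) (Nat.le_succ_of_le hn) i, a2 n hn i, abs_mul, abs_mul, abs_pow,
        abs_of_pos h1, div_pow]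
      field_simp)
  set r : ℕ := 2 * orderOf σ with hr
  have hr0 : 0 < r := Nat.mul_pos two_pos (orderOf_pos σ)
  have s4 : ∀ k n, N + 1 ≤ n → ∀ i, s (n + r * k) i = s n i := by
    intro k
    induction k with
    | zero => intro n _ i; rw [mul_zero, add_zero]
    | succ k ih =>
      intro n hn i
      rw [show n + r * (k + 1) = (n + r * k) + r by ring, s3 (n + r * k) (by omega) i, ih n hn i]
  have s5 : N + 1 ≤ r * (N + 1) := Nat.le_mul_of_pos_left _ hr0
  refine ⟨κ, η, fun n i => s (n + r * (N + 1)) i * Real.exp (κ' i), ℓ, N + 1, ?_⟩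
  refine ⟨hκ, hr0, ?_, ?_, ?_, ?_, b2, ?_, hT⟩
  · rw [hr, pow_mul', pow_orderOf_eq_one, one_pow]
  · intro n i
    rw [show n + r + r * (N + 1) = (n + r * (N + 1)) + r by ring, s3 _ (by omega) i]
  · intro n i
    refine mul_ne_zero ?_ (Real.exp_pos _).ne'
    rcases s1 (n + r * (N + 1)) i with h1 | h1 <;> rw [h1] <;> norm_num
  · intro n hn i
    have hn' : n ≥ N := (Nat.le_succ N).trans hn
    have h1 : |x n i| = Real.exp (η ((σ ^ n) i) * (e : ℝ) ^ n + κ' i + ℓ n i) := by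
      rw [← b1 n i, Real.exp_log (abs_pos.2 (a3 n hn' i))]
    have h2 : x n i = s n i * |x n i| := by
      rw [s2 n hn' i, div_mul_cancel₀ _ (abs_ne_zero.2 (a3 n hn' i))]
    rw [s4 (N + 1) n hn i]
    calc x n i = s n i * |x n i| := h2
      _ = s n i * Real.exp (η ((σ ^ n) i) * (e : ℝ) ^ n + κ' i + ℓ n i) := by rw [h1]
      _ = _ := by
        rw [Real.exp_add, Real.exp_add]
        ring
  · intro n hn i
    exact b3 n ((Nat.le_succ N).trans hn) i

end MP_f4ff90_agP
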