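import Mathlib
import Pool.Agent.Lib.MP_f4ff90_agP.ExA

/-!
LEAF ExO.  Solutions of `ℓ (n+1) i = e ℓ n (σ i) + f n i`.
PROOF.  `ℓ n j = (ℓ (n+1) (σ⁻¹ j) - f n (σ⁻¹ j)) / e` for `n ≥ n₀`; iterate `K` times (induction on `K`):
`ℓ n j = e^(-K) ℓ (n+K) (σ^(-K) j) - ∑_(k<K) e^(-k-1) f (n+k) (σ^(-k-1) j)`.  Choose `K` with `κ e^K ≥ M`: the first term is at
most `C exp (-κ e^(n+K)) ≤ C exp (-M e^n)`, so `exq_small`; the others: `exq_shift`, `exq_smul`, `exq_sum`.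
-/

set_option autoImplicit false

open Filter Topology

namespace MP_f4ff90_agP

private theorem ExO_iter {g e r : ℕ} (he : 2 ≤ e) (σ : Equiv.Perm (Fin g)) {M : ℝ} (hM : 0 ≤ M)
    {ℓ f : ℕ → Fin g → ℝ} {n₀ : ℕ}
    (h : ∀ n ≥ n₀, ∀ i, ℓ (n + 1) i = e * ℓ n (σ i) + f n i)
    (hf : ∀ i, Exq e r M (fun n => f n i)) (j : Fin g) (K : ℕ) :
    ∃ (v : ℕ → ℝ) (j' : Fin g) (c : ℝ), Exq e r M v ∧ ∀ n ≥ n₀, ℓ n j = c * ℓ (n + K) j' + v n := by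
  have he0 : (e : ℝ) ≠ 0 := by
    have : (0 : ℝ) < e := by exact_mod_cast (by omega : 0 < e)
    exact this.ne'
  induction K with
  | zero => exact ⟨fun _ => 0, j, 1, exq_const he M 0, fun n _ => by rw [add_zero, one_mul, add_zero]⟩
  | succ K ih =>
    obtain ⟨v, j', c, hv, hn⟩ := ih
    refine ⟨fun n => v n + -(c / e) * f (n + K) (σ.symm j'), σ.symm j', c / e,
      exq_add hv (exq_smul (-(c / e)) (exq_shift he hM (hf (σ.symm j')) K)), fun n hn0 => ?_⟩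
    have h1 := h (n + K) (le_trans hn0 (Nat.le_add_right n K)) (σ.symm j')
    rw [Equiv.apply_symm_apply] at h1
    rw [hn n hn0]
    have h2 : n + (K + 1) = n + K + 1 := by omega
    rw [h2, h1]
    field_simp
    ring

theorem exq_op {g e r : ℕ} (he : 2 ≤ e) (σ : Equiv.Perm (Fin g)) {κ M : ℝ} (hκ : 0 < κ) (hM : 0 ≤ M)
    {ℓ f : ℕ → Fin g → ℝ} (hℓ : ∀ i, Sml e κ (fun n => ℓ n i)) {n₀ : ℕ}
    (h : ∀ n ≥ n₀, ∀ i, ℓ (n + 1) i = e * ℓ n (σ i) + f n i)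
    (hf : ∀ i, Exq e r M (fun n => f n i)) : ∀ i, Exq e r M (fun n => ℓ n i) := by
  intro j
  have he1 : (1 : ℝ) < e := by exact_mod_cast (by omega : 1 < e)
  obtain ⟨K, hK⟩ := pow_unbounded_of_one_lt (M / κ) he1
  obtain ⟨v, j', c, hv, hn⟩ := ExO_iter he σ hM h hf j K
  have hs : Sml e M (fun n => c * ℓ (n + K) j') := by
    obtain ⟨C, n₁, hC⟩ := hℓ j'
    refine ⟨|c| * |C|, n₁, fun n hn1 => ?_⟩
    have h1 := hC (n + K) (le_trans hn1 (Nat.le_add_right n K))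
    have h2 : M * (e : ℝ) ^ n ≤ κ * (e : ℝ) ^ (n + K) := by
      rw [pow_add]
      have h3 : M ≤ κ * (e : ℝ) ^ K := by
        rw [div_lt_iff₀ hκ] at hK
        linarith
      have h4 : (0 : ℝ) ≤ (e : ℝ) ^ n := by positivity
      nlinarith
    rw [abs_mul, mul_assoc]
    refine mul_le_mul_of_nonneg_left ?_ (abs_nonneg c)
    calc |ℓ (n + K) j'| ≤ C * Real.exp (-(κ * (e : ℝ) ^ (n + K))) := h1
      _ ≤ |C| * Real.exp (-(κ * (e : ℝ) ^ (n + K))) :=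
        mul_le_mul_of_nonneg_right (le_abs_self C) (Real.exp_pos _).le
      _ ≤ |C| * Real.exp (-(M * (e : ℝ) ^ n)) :=
        mul_le_mul_of_nonneg_left (Real.exp_le_exp.2 (neg_le_neg h2)) (abs_nonneg C)
  exact exq_congr ⟨n₀, fun n hn0 => (hn n hn0).symm⟩ (exq_add (exq_small hs) hv)

end MP_f4ff90_agP
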