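import Mathlib
import Pool.Agent.Lib.MP_f4ff90_agP.DomD
import Pool.Agent.Lib.MP_f4ff90_agP.ExE
import Pool.Agent.Lib.MP_f4ff90_agP.ExO

/-!
LEAF DomC.  Bootstrapping.
PROOF.  `theta_le`: `θ n = ∑_j m_j η (σ^n j) - e η (σ^n (σ i))` is `r`-periodic (`σ^r = 1`).  For `n ≥ n₁` `Tt n = C_n exp (θ n e^n) exp (∑ m_j ℓ n j - e ℓ n (σ i))`,
`C_n = ∏ γ n j^(m j) / γ n (σ i)^e ≠ 0` periodic, the last factor tends to 1; `|Tt n| ≤ C exp (-κ e^n)`; so along the class of `n` mod `r`, `(θ n + κ) e^N ≤ C'` for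
all large `N ≡ n`, which forces `θ n ≤ -κ`.
`exq_monom`: for a vector of integers exponents `p - q` (here `m` and `single (σ i) e`; also `q = 0`), if `Exq M (ℓ i)` for all `i` (`M ≥ 0`) then
`v n = exp (∑ m_j ℓ n j - e ℓ n (σ i))` is in `Exq M` (`exq_exp`; the exponent is `Sml e κ`) and `exq_single_mul`.
`boot`: induction on `k`.  `k = 0`: `exq_small`, `exq_mono`.  Step: `Exq (k κ)` for all `ℓ i` gives `Exq (k κ + κ)` for `Tt` (`exq_single_mul`, `θ₀ = -κ`, and `exq_congr`), so for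
`eps` (`exq_sum`, `exq_smul`), so for `log (1 + eps)` (`exq_log`; `eps` is `Sml e κ`), so for `ℓ i` by `exq_op`.
-/

set_option autoImplicit false

open Filter Topology

namespace MP_f4ff90_agP

variable {g e r : ℕ} {σ : Equiv.Perm (Fin g)} {F : Fin g → MvPolynomial (Fin g) ℝ} {x : ℕ → Fin g → ℝ}
  {κ : ℝ} {η : Fin g → ℝ} {γ ℓ : ℕ → Fin g → ℝ} {n₁ : ℕ}

private theorem DomC_prod (h : Rp e r σ F x κ η γ ℓ n₁) (m : Fin g → ℕ) {n : ℕ} (hn : n₁ ≤ n) :
    ∏ j, x n j ^ m j = (∏ j, γ n j ^ m j) *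
      Real.exp ((∑ j, (m j : ℝ) * η ((σ ^ n) j)) * (e : ℝ) ^ n) *
      Real.exp (∑ j, (m j : ℝ) * ℓ n j) := by
  rw [Finset.sum_mul, Real.exp_sum, Real.exp_sum, ← Finset.prod_mul_distrib,
    ← Finset.prod_mul_distrib]
  refine Finset.prod_congr rfl fun j _ => ?_
  rw [h.rep n hn j, mul_pow, mul_pow, ← Real.exp_nat_mul, ← Real.exp_nat_mul]
  congr 2
  ring_nf

private theorem DomC_sig (h : Rp e r σ F x κ η γ ℓ n₁) (n : ℕ) : σ ^ (n + r) = σ ^ n := by
  rw [pow_add, h.sig, mul_one]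

/-- The exponent of the ratio. -/
private noncomputable def DomC_th (e : ℕ) (σ : Equiv.Perm (Fin g)) (η : Fin g → ℝ) (i : Fin g)
    (m : Fin g → ℕ) (n : ℕ) : ℝ :=
  (∑ j, (m j : ℝ) * η ((σ ^ n) j)) - e * η ((σ ^ n) (σ i))

/-- The coefficient of the ratio. -/
private noncomputable def DomC_c (e : ℕ) (σ : Equiv.Perm (Fin g)) (γ : ℕ → Fin g → ℝ) (i : Fin g)
    (m : Fin g → ℕ) (n : ℕ) : ℝ :=
  (∏ j, γ n j ^ m j) / γ n (σ i) ^ e

/-- The small exponent of the ratio. -/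
private noncomputable def DomC_w (e : ℕ) (σ : Equiv.Perm (Fin g)) (ℓ : ℕ → Fin g → ℝ) (i : Fin g)
    (m : Fin g → ℕ) (n : ℕ) : ℝ :=
  (∑ j, (m j : ℝ) * ℓ n j) + (-(e : ℝ)) * ℓ n (σ i)

private theorem DomC_th_per (h : Rp e r σ F x κ η γ ℓ n₁) (i : Fin g) (m : Fin g → ℕ) (n : ℕ) :
    DomC_th e σ η i m (n + r) = DomC_th e σ η i m n := by
  unfold DomC_th
  rw [DomC_sig h]

private theorem DomC_c_per (h : Rp e r σ F x κ η γ ℓ n₁) (i : Fin g) (m : Fin g → ℕ) (n : ℕ) :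
    DomC_c e σ γ i m (n + r) = DomC_c e σ γ i m n := by
  unfold DomC_c
  simp only [h.per]

private theorem DomC_c_ne (h : Rp e r σ F x κ η γ ℓ n₁) (i : Fin g) (m : Fin g → ℕ) (n : ℕ) :
    DomC_c e σ γ i m n ≠ 0 := by
  unfold DomC_c
  exact div_ne_zero (Finset.prod_ne_zero_iff.2 fun j _ => pow_ne_zero _ (h.gne n j))
    (pow_ne_zero _ (h.gne n (σ i)))

private theorem DomC_Tt (h : Rp e r σ F x κ η γ ℓ n₁) (i : Fin g) (m : Fin g →₀ ℕ) {n : ℕ}
    (hn : n₁ ≤ n) : Tt e σ x i m n = DomC_c e σ γ i m n *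
      Real.exp (DomC_th e σ η i m n * (e : ℝ) ^ n) * Real.exp (DomC_w e σ ℓ i m n) := by
  have h1 := DomC_prod h m hn
  have h2 : x n (σ i) ^ e = γ n (σ i) ^ e * Real.exp ((e : ℝ) * η ((σ ^ n) (σ i)) * (e : ℝ) ^ n) *
      Real.exp ((e : ℝ) * ℓ n (σ i)) := by
    rw [h.rep n hn (σ i), mul_pow, mul_pow, ← Real.exp_nat_mul, ← Real.exp_nat_mul]
    congr 2
    ring_nf
  unfold Tt DomC_c DomC_th DomC_w
  rw [h1, h2, sub_mul, Real.exp_sub, Real.exp_add, neg_mul, Real.exp_neg]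
  have h3 := pow_ne_zero e (h.gne n (σ i))
  have h4 := Real.exp_ne_zero ((e : ℝ) * η ((σ ^ n) (σ i)) * (e : ℝ) ^ n)
  have h5 := Real.exp_ne_zero ((e : ℝ) * ℓ n (σ i))
  field_simp

private theorem DomC_sml_smul {u : ℕ → ℝ} (c : ℝ) (h : Sml e κ u) : Sml e κ (fun n => c * u n) := by
  obtain ⟨C, n₀, hC⟩ := h
  refine ⟨|c| * C, n₀, fun n hn => ?_⟩
  rw [abs_mul, mul_assoc]
  exact mul_le_mul_of_nonneg_left (hC n hn) (abs_nonneg c)

private theorem DomC_sml_add {u v : ℕ → ℝ} (hu : Sml e κ u) (hv : Sml e κ v) :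
    Sml e κ (fun n => u n + v n) := by
  obtain ⟨C, n₀, hC⟩ := hu
  obtain ⟨C', n₀', hC'⟩ := hv
  refine ⟨C + C', max n₀ n₀', fun n hn => ?_⟩
  rw [add_mul]
  exact (abs_add_le _ _).trans (add_le_add (hC n ((le_max_left _ _).trans hn))
    (hC' n ((le_max_right _ _).trans hn)))

private theorem DomC_sml_zero : Sml e κ (fun _ => (0 : ℝ)) :=
  ⟨0, 0, fun n _ => by simp⟩

private theorem DomC_sml_sum {ι : Type*} (s : Finset ι) (u : ι → ℕ → ℝ)
    (hu : ∀ i ∈ s, Sml e κ (u i)) : Sml e κ (fun n => ∑ i ∈ s, u i n) := by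
  classical
  induction s using Finset.induction_on with
  | empty =>
    simp only [Finset.sum_empty]
    exact DomC_sml_zero
  | insert a t ha ih =>
    simp only [Finset.sum_insert ha]
    exact DomC_sml_add (hu a (Finset.mem_insert_self a t))
      (ih fun i hi => hu i (Finset.mem_insert_of_mem hi))

private theorem DomC_w_sml (h : Rp e r σ F x κ η γ ℓ n₁) (i : Fin g) (m : Fin g → ℕ) :
    Sml e κ (DomC_w e σ ℓ i m) :=
  DomC_sml_add (DomC_sml_sum Finset.univ (fun j n => (m j : ℝ) * ℓ n j) fun j _ =>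
    DomC_sml_smul _ (h.sml j)) (DomC_sml_smul _ (h.sml (σ i)))

private theorem DomC_w_exq (he : 2 ≤ e) {M : ℝ} (hl : ∀ i, Exq e r M (fun n => ℓ n i)) (i : Fin g)
    (m : Fin g → ℕ) : Exq e r M (DomC_w e σ ℓ i m) :=
  exq_add (exq_sum he Finset.univ (fun j n => (m j : ℝ) * ℓ n j) fun j _ =>
    exq_smul _ (hl j)) (exq_smul _ (hl (σ i)))

private theorem DomC_pow_tendsto (he : 2 ≤ e) (n : ℕ) (hr : 0 < r) :
    Tendsto (fun t : ℕ => (e : ℝ) ^ (n + r * t)) atTop atTop := by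
  have h1 : Tendsto (fun k : ℕ => (e : ℝ) ^ k) atTop atTop :=
    tendsto_pow_atTop_atTop_of_one_lt (by exact_mod_cast (by omega : 1 < e))
  refine h1.comp ?_
  refine tendsto_atTop_mono (fun t => ?_) tendsto_id
  have h2 : 1 * t ≤ r * t := Nat.mul_le_mul_right t hr
  show t ≤ n + r * t
  omega

private theorem DomC_per {f : ℕ → ℝ} (hf : ∀ n, f (n + r) = f n) (n t : ℕ) :
    f (n + r * t) = f n := by
  induction t with
  | zero => simp
  | succ t ih =>
    rw [Nat.mul_succ, ← add_assoc, hf, ih]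

private theorem DomC_th_le (he : 2 ≤ e) (h : Rp e r σ F x κ η γ ℓ n₁) (i : Fin g)
    {m : Fin g →₀ ℕ} (hm : m ∈ (F i).support) (hm' : m ≠ Finsupp.single (σ i) e) (n : ℕ) :
    DomC_th e σ η i m n ≤ -κ := by
  by_contra hlt
  rw [not_le] at hlt
  obtain ⟨C, n₀, hC⟩ := h.smT i m hm hm'
  obtain ⟨C', n₀', hC'⟩ := DomC_w_sml h i m
  have hc := abs_pos.2 (DomC_c_ne h i m n)
  have hpos : 0 < DomC_th e σ η i m n + κ := by linarith
  have hk := h.kpos
  -- the quantity is bounded along the class of `n`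
  have hbd : ∀ᶠ t : ℕ in atTop, |DomC_c e σ γ i m n| *
      ((DomC_th e σ η i m n + κ) * (e : ℝ) ^ (n + r * t)) ≤ C * Real.exp |C'| := by
    filter_upwards [eventually_ge_atTop (n₀ + n₀' + n₁)] with t ht
    have hr := h.rpos
    have hN : n₀ + n₀' + n₁ ≤ n + r * t := by nlinarith [Nat.zero_le n]
    have h1 := hC (n + r * t) (by omega)
    rw [DomC_Tt h i m (by omega : n₁ ≤ n + r * t), DomC_per (DomC_c_per h i m),
      DomC_per (DomC_th_per h i m), abs_mul, abs_mul, Real.abs_exp, Real.abs_exp] at h1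
    have h2 := hC' (n + r * t) (by omega)
    have h3 : Real.exp (-(κ * (e : ℝ) ^ (n + r * t))) ≤ 1 := by
      rw [Real.exp_le_one_iff]
      have : (0 : ℝ) ≤ (e : ℝ) ^ (n + r * t) := by positivity
      nlinarith
    have h4 : -|C'| ≤ DomC_w e σ ℓ i m (n + r * t) := by
      have h5 : |DomC_w e σ ℓ i m (n + r * t)| ≤ |C'| := by
        refine h2.trans ?_
        calc C' * Real.exp (-(κ * (e : ℝ) ^ (n + r * t)))
            ≤ |C'| * Real.exp (-(κ * (e : ℝ) ^ (n + r * t))) :=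
              mul_le_mul_of_nonneg_right (le_abs_self _) (Real.exp_pos _).le
          _ ≤ |C'| * 1 := mul_le_mul_of_nonneg_left h3 (abs_nonneg _)
          _ = |C'| := mul_one _
      exact (abs_le.1 h5).1
    have h5 : 1 ≤ Real.exp |C'| * Real.exp (DomC_w e σ ℓ i m (n + r * t)) := by
      rw [← Real.exp_add, Real.one_le_exp_iff]
      linarith
    have h6 : (DomC_th e σ η i m n + κ) * (e : ℝ) ^ (n + r * t) ≤
        Real.exp ((DomC_th e σ η i m n + κ) * (e : ℝ) ^ (n + r * t)) := by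
      have := Real.add_one_le_exp ((DomC_th e σ η i m n + κ) * (e : ℝ) ^ (n + r * t))
      linarith
    have h7 : Real.exp ((DomC_th e σ η i m n + κ) * (e : ℝ) ^ (n + r * t)) *
        Real.exp (-(κ * (e : ℝ) ^ (n + r * t))) =
        Real.exp (DomC_th e σ η i m n * (e : ℝ) ^ (n + r * t)) := by
      rw [← Real.exp_add]
      congr 1
      ring
    have hE := Real.exp_pos (-(κ * (e : ℝ) ^ (n + r * t)))
    have hW := Real.exp_pos (DomC_w e σ ℓ i m (n + r * t))
    have hA := Real.exp_pos |C'|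
    -- multiply by the positive exponential
    have h8 : |DomC_c e σ γ i m n| *
        Real.exp ((DomC_th e σ η i m n + κ) * (e : ℝ) ^ (n + r * t)) *
        Real.exp (DomC_w e σ ℓ i m (n + r * t)) ≤ C := by
      have h9 : (|DomC_c e σ γ i m n| *
        Real.exp ((DomC_th e σ η i m n + κ) * (e : ℝ) ^ (n + r * t)) *
        Real.exp (DomC_w e σ ℓ i m (n + r * t))) * Real.exp (-(κ * (e : ℝ) ^ (n + r * t))) ≤
        C * Real.exp (-(κ * (e : ℝ) ^ (n + r * t))) := by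
        refine le_trans (le_of_eq ?_) h1
        rw [← h7]
        ring
      exact le_of_mul_le_mul_right h9 hE
    calc |DomC_c e σ γ i m n| * ((DomC_th e σ η i m n + κ) * (e : ℝ) ^ (n + r * t))
        ≤ |DomC_c e σ γ i m n| *
          Real.exp ((DomC_th e σ η i m n + κ) * (e : ℝ) ^ (n + r * t)) :=
          mul_le_mul_of_nonneg_left h6 hc.le
      _ = (|DomC_c e σ γ i m n| *
          Real.exp ((DomC_th e σ η i m n + κ) * (e : ℝ) ^ (n + r * t))) * 1 := (mul_one _).symm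
      _ ≤ (|DomC_c e σ γ i m n| *
          Real.exp ((DomC_th e σ η i m n + κ) * (e : ℝ) ^ (n + r * t))) *
          (Real.exp |C'| * Real.exp (DomC_w e σ ℓ i m (n + r * t))) :=
          mul_le_mul_of_nonneg_left h5 (mul_nonneg hc.le (Real.exp_pos _).le)
      _ = (|DomC_c e σ γ i m n| *
          Real.exp ((DomC_th e σ η i m n + κ) * (e : ℝ) ^ (n + r * t)) *
          Real.exp (DomC_w e σ ℓ i m (n + r * t))) * Real.exp |C'| := by ring
      _ ≤ C * Real.exp |C'| := mul_le_mul_of_nonneg_right h8 hA.le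
  have htop : Tendsto (fun t : ℕ => |DomC_c e σ γ i m n| *
      ((DomC_th e σ η i m n + κ) * (e : ℝ) ^ (n + r * t))) atTop atTop :=
    ((DomC_pow_tendsto he n h.rpos).const_mul_atTop hpos).const_mul_atTop hc
  obtain ⟨t, h1, h2⟩ := (hbd.and (htop.eventually_gt_atTop (C * Real.exp |C'|))).exists
  linarith

private theorem DomC_step (he : 2 ≤ e) (h : Rp e r σ F x κ η γ ℓ n₁) {M : ℝ} (hM : 0 ≤ M)
    (hl : ∀ i, Exq e r M (fun n => ℓ n i)) : ∀ i, Exq e r (M + κ) (fun n => ℓ n i) := by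
  have hk := h.kpos
  have hT : ∀ i, ∀ m ∈ (F i).support, m ≠ Finsupp.single (σ i) e →
      Exq e r (M + κ) (Tt e σ x i m) := by
    intro i m hm hm'
    have h1 := exq_exp he hk hM (DomC_w_sml h i m) (DomC_w_exq he hl i m)
    have h2 := exq_single_mul he h.rpos h1 (DomC_th e σ η i m) (DomC_c e σ γ i m)
      (DomC_th_per h i m) (DomC_c_per h i m) (-κ) (DomC_th_le he h i hm hm')
    rw [sub_neg_eq_add] at h2
    exact exq_congr ⟨n₁, fun n hn => (DomC_Tt h i m hn).symm⟩ h2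
  have hE : ∀ i, Exq e r (M + κ) (fun n => eps e σ F x n i) := by
    intro i
    refine exq_sum he _ (fun m n =>
      ((F i).coeff m / (F i).coeff (Finsupp.single (σ i) e)) * Tt e σ x i m n) fun m hm => ?_
    rw [Finset.mem_erase] at hm
    exact exq_smul _ (hT i m hm.2 hm.1)
  have hS : ∀ i, Sml e κ (fun n => eps e σ F x n i) := by
    intro i
    refine DomC_sml_sum _ (fun m n =>
      ((F i).coeff m / (F i).coeff (Finsupp.single (σ i) e)) * Tt e σ x i m n) fun m hm => ?_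
    rw [Finset.mem_erase] at hm
    exact DomC_sml_smul _ (h.smT i m hm.2 hm.1)
  have hM' : 0 ≤ M + κ := by linarith
  exact exq_op he σ hk hM' (fun i => h.sml i) (n₀ := n₁) h.recu
    (fun i => exq_log he hk hM' (hS i) (hE i))

theorem boot (he : 2 ≤ e) (h : Rp e r σ F x κ η γ ℓ n₁) (k : ℕ) :
    ∀ i, Exq e r (k * κ) (fun n => ℓ n i) := by
  induction k with
  | zero =>
    intro i
    have h1 : ((0 : ℕ) : ℝ) * κ ≤ κ := by
      rw [Nat.cast_zero, zero_mul]
      exact h.kpos.le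
    exact exq_mono he h1 (exq_small (h.sml i))
  | succ k ih =>
    have h1 : (((k + 1 : ℕ) : ℝ)) * κ = k * κ + κ := by
      push_cast
      ring
    rw [h1]
    exact DomC_step he h (mul_nonneg (Nat.cast_nonneg k) h.kpos.le) ih

end MP_f4ff90_agP
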