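import Mathlib
import Pool.Agent.Lib.MP_f4ff90_agP.DomC

/-!
LEAF DomE.  Polynomials along the orbit.
PROOF.  `eval (x n) P = ∑_β coeff_β ∏ x_j^(β j)` (`MvPolynomial.eval_eq'`).  For one `β` and `n ≥ n₁`:
`∏ x n j^(β j) = (∏ γ n j^(β j)) exp (θ n e^n) exp (∑ β_j ℓ n j)`, `θ n = ∑ β_j η (σ^n j)` periodic, so `θ n ≤ θ₀` for some `θ₀`.  Choose `k` with
`k κ ≥ M + θ₀`, `boot` gives `Exq (k κ)` for all `ℓ j`, so for `∑ β_j ℓ n j`, `exq_exp`, `exq_single_mul` (`k κ - θ₀ ≥ M`), `exq_mono`, `exq_smul`, `exq_sum`.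
-/

set_option autoImplicit false

open Filter Topology

namespace MP_f4ff90_agP

variable {g e r : ℕ} {σ : Equiv.Perm (Fin g)} {F : Fin g → MvPolynomial (Fin g) ℝ} {x : ℕ → Fin g → ℝ}
  {κ : ℝ} {η : Fin g → ℝ} {γ ℓ : ℕ → Fin g → ℝ} {n₁ : ℕ}

/-- a linear combination of small sequences is small -/
private theorem DomE_sml_sum {κ : ℝ} (b : Fin g → ℝ) (l : ℕ → Fin g → ℝ)
    (h : ∀ i, Sml e κ (fun n => l n i)) : Sml e κ (fun n => ∑ j, b j * l n j) := by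
  choose C n₀ hC using h
  refine ⟨∑ j, |b j| * C j, ∑ j, n₀ j, fun n hn => ?_⟩
  rw [Finset.sum_mul]
  refine (Finset.abs_sum_le_sum_abs _ _).trans (Finset.sum_le_sum fun j _ => ?_)
  rw [abs_mul, mul_assoc]
  refine mul_le_mul_of_nonneg_left (hC j n ?_) (abs_nonneg _)
  exact (Finset.single_le_sum (f := n₀) (fun i _ => Nat.zero_le _) (Finset.mem_univ j)).trans hn

private theorem DomE_monom (he : 2 ≤ e) (h : Rp e r σ F x κ η γ ℓ n₁) (β : Fin g →₀ ℕ) (M : ℝ) :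
    Exq e r M (fun n => ∏ j, x n j ^ β j) := by
  set θ₀ : ℝ := ∑ j, (β j : ℝ) * ∑ i, |η i| with hθ₀
  obtain ⟨k, hk⟩ := exists_nat_ge ((M + θ₀) / κ)
  have hk1 : M + θ₀ ≤ k * κ := (div_le_iff₀ h.kpos).1 hk
  have hM1 : (0 : ℝ) ≤ k * κ := mul_nonneg (Nat.cast_nonneg k) h.kpos.le
  have hw : Exq e r (k * κ) (fun n => ∑ j, (β j : ℝ) * ℓ n j) :=
    exq_sum he Finset.univ (fun j n => (β j : ℝ) * ℓ n j) fun j _ =>
      exq_smul (β j : ℝ) (boot he h k j)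
  have hs : Sml e κ (fun n => ∑ j, (β j : ℝ) * ℓ n j) := DomE_sml_sum _ ℓ h.sml
  have hexp := exq_exp he h.kpos hM1 hs hw
  have hper : ∀ n, σ ^ (n + r) = σ ^ n := fun n => by rw [pow_add, h.sig, mul_one]
  have hbd : ∀ n, (fun n => ∑ j, (β j : ℝ) * η ((σ ^ n) j)) n ≤ θ₀ := by
    intro n
    refine Finset.sum_le_sum fun j _ => ?_
    refine mul_le_mul_of_nonneg_left ?_ (Nat.cast_nonneg _)
    exact (le_abs_self _).trans (Finset.single_le_sum (f := fun i => |η i|)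
      (fun i _ => abs_nonneg _) (Finset.mem_univ ((σ ^ n) j)))
  have hmain := exq_single_mul he h.rpos hexp (fun n => ∑ j, (β j : ℝ) * η ((σ ^ n) j))
    (fun n => ∏ j, γ n j ^ β j) (fun n => by simp only [hper n])
    (fun n => by simp only [h.per n]) θ₀ hbd
  have hmono : Exq e r M _ := exq_mono he (by linarith) hmain
  refine exq_congr ⟨n₁, fun n hn => ?_⟩ hmono
  have hx : ∀ j, x n j ^ β j = γ n j ^ β j * Real.exp ((β j : ℝ) * (η ((σ ^ n) j) * (e : ℝ) ^ n)) *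
      Real.exp ((β j : ℝ) * ℓ n j) := by
    intro j
    rw [h.rep n hn j, mul_pow, mul_pow, Real.exp_nat_mul, Real.exp_nat_mul]
  rw [Finset.prod_congr rfl fun j _ => hx j, Finset.prod_mul_distrib, Finset.prod_mul_distrib,
    ← Real.exp_sum, ← Real.exp_sum, Finset.sum_mul]
  simp only [mul_assoc]

theorem exq_poly (he : 2 ≤ e) (h : Rp e r σ F x κ η γ ℓ n₁) (P : MvPolynomial (Fin g) ℝ) (M : ℝ) :
    Exq e r M (fun n => MvPolynomial.eval (x n) P) := by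
  have h1 : Exq e r M (fun n => ∑ β ∈ P.support, P.coeff β * ∏ j, x n j ^ β j) :=
    exq_sum he P.support (fun β n => P.coeff β * ∏ j, x n j ^ β j) fun β _ =>
      exq_smul (P.coeff β) (DomE_monom he h β M)
  refine exq_congr ⟨0, fun n _ => ?_⟩ h1
  rw [MvPolynomial.eval_eq']

end MP_f4ff90_agP
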