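import Mathlib
import Pool.Agent.Lib.MP_f4ff90_agP.Defs

/-!
LEAF ExD.  The dichotomy.
PROOF.  `G (c + r k) = G c`.  Let `Δ` be the set of the `μ` in the support of `G c` with `μ > -M`.  If `Δ` is empty, all terms of
`ev (e^n) (G c)` are at most `|c_μ| exp (-M e^n)`: second case.  Otherwise let `μ₀ = max Δ`, `γ = c_(μ₀) ≠ 0`; `u n exp (-μ₀ e^n) → γ` along the
class (all other exponents are smaller, `e^n → ∞`, the error is `C exp (-(M + μ₀) e^n) → 0`), so the sign of `u n` is eventually the sign of `γ`.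
-/

set_option autoImplicit false

open Filter Topology

namespace MP_f4ff90_agP

private lemma ExD_ev (t : ℝ) (g : AddMonoidAlgebra ℝ ℝ) :
    ev t g = ∑ μ ∈ g.coeff.support, g.coeff μ * Real.exp (μ * t) := by
  simp [ev, AddMonoidAlgebra.lift_apply, Finsupp.sum]

private lemma ExD_per {r : ℕ} {α : Type*} (G : ℕ → α) (hG : ∀ n, G (n + r) = G n) (c k : ℕ) :
    G (c + r * k) = G c := by
  induction k with
  | zero => simp
  | succ k ih => rw [Nat.mul_succ, ← Nat.add_assoc, hG, ih]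

theorem exq_dich {e r : ℕ} (he : 2 ≤ e) (hr : 0 < r) {M : ℝ} {u : ℕ → ℝ} (h : Exq e r M u) (c : ℕ) :
    (∃ (s : SignType) (n₀ : ℕ), s ≠ 0 ∧ ∀ k, n₀ ≤ k → SignType.sign (u (c + r * k)) = s) ∨
    (∃ (C : ℝ) (n₀ : ℕ), ∀ k, n₀ ≤ k → |u (c + r * k)| ≤ C * Real.exp (-(M * (e : ℝ) ^ (c + r * k)))) := by
  obtain ⟨G, C, n₀, hG, hu⟩ := h
  have hGc : ∀ k, G (c + r * k) = G c := ExD_per G hG c
  have hk : ∀ k, n₀ ≤ k → n₀ ≤ c + r * k := by
    intro k hk
    have : k ≤ r * k := Nat.le_mul_of_pos_left k hr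
    omega
  set g : AddMonoidAlgebra ℝ ℝ := G c with hg
  have he1 : (1 : ℝ) < e := by exact_mod_cast he
  by_cases hD : ∃ μ ∈ g.coeff.support, -M < μ
  · left
    obtain ⟨μ₁, hμ₁, hμ₁M⟩ := hD
    have hne : (g.coeff.support.filter fun μ => -M < μ).Nonempty :=
      ⟨μ₁, Finset.mem_filter.2 ⟨hμ₁, hμ₁M⟩⟩
    set μ₀ := (g.coeff.support.filter fun μ => -M < μ).max' hne with hμ₀
    have hmem := Finset.max'_mem _ hne
    rw [← hμ₀, Finset.mem_filter] at hmem
    have hlt : ∀ μ ∈ g.coeff.support, μ ≠ μ₀ → μ < μ₀ := by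
      intro μ hμ hne'
      by_cases hμM : -M < μ
      · exact lt_of_le_of_ne (Finset.le_max' _ μ (Finset.mem_filter.2 ⟨hμ, hμM⟩)) hne'
      · exact lt_of_le_of_lt (not_lt.1 hμM) hmem.2
    have hγ : g.coeff μ₀ ≠ 0 := Finsupp.mem_support_iff.1 hmem.1
    have ht : Tendsto (fun k : ℕ => (e : ℝ) ^ (c + r * k)) atTop atTop := by
      have h1 : Tendsto (fun n : ℕ => (e : ℝ) ^ n) atTop atTop := tendsto_pow_atTop_atTop_of_one_lt he1
      refine h1.comp (tendsto_atTop_mono (fun k => ?_) tendsto_id)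
      have : k ≤ r * k := Nat.le_mul_of_pos_left k hr
      simp only [id_eq]
      omega
    have hexp : ∀ a : ℝ, a < 0 → Tendsto (fun k : ℕ => Real.exp (a * (e : ℝ) ^ (c + r * k))) atTop (𝓝 0) := by
      intro a ha
      exact Real.tendsto_exp_atBot.comp (Tendsto.const_mul_atTop_of_neg ha ht)
    have hlim1 : Tendsto (fun k : ℕ => ∑ μ ∈ g.coeff.support, g.coeff μ * Real.exp ((μ - μ₀) * (e : ℝ) ^ (c + r * k)))
        atTop (𝓝 (∑ μ ∈ g.coeff.support, if μ = μ₀ then g.coeff μ₀ else 0)) := by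
      refine tendsto_finsetSum _ fun μ hμ => ?_
      by_cases hμe : μ = μ₀
      · subst hμe
        simp
      · rw [if_neg hμe]
        have := (hexp (μ - μ₀) (sub_neg.2 (hlt μ hμ hμe))).const_mul (g.coeff μ)
        simpa using this
    have hlim2 : Tendsto (fun k : ℕ => (u (c + r * k) - ev ((e : ℝ) ^ (c + r * k)) g) *
        Real.exp (-μ₀ * (e : ℝ) ^ (c + r * k))) atTop (𝓝 0) := by
      have h3 : Tendsto (fun k : ℕ => C * Real.exp (-(M + μ₀) * (e : ℝ) ^ (c + r * k))) atTop (𝓝 0) := by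
        have := (hexp (-(M + μ₀)) (by linarith [hmem.2])).const_mul C
        simpa using this
      refine squeeze_zero_norm' ?_ h3
      filter_upwards [eventually_ge_atTop n₀] with k hk'
      have h4 := hu (c + r * k) (hk k hk')
      rw [hGc k] at h4
      rw [Real.norm_eq_abs, abs_mul, Real.abs_exp]
      have h5 : Real.exp (-(M + μ₀) * (e : ℝ) ^ (c + r * k)) =
          Real.exp (-(M * (e : ℝ) ^ (c + r * k))) * Real.exp (-μ₀ * (e : ℝ) ^ (c + r * k)) := by
        rw [← Real.exp_add]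
        congr 1
        ring
      rw [h5, ← mul_assoc]
      exact mul_le_mul_of_nonneg_right h4 (Real.exp_pos _).le
    have hlim : Tendsto (fun k : ℕ => u (c + r * k) * Real.exp (-μ₀ * (e : ℝ) ^ (c + r * k))) atTop (𝓝 (g.coeff μ₀)) := by
      have h6 : (∑ μ ∈ g.coeff.support, if μ = μ₀ then g.coeff μ₀ else 0) = g.coeff μ₀ := by
        rw [Finset.sum_ite_eq' g.coeff.support μ₀ (fun _ => g.coeff μ₀), if_pos hmem.1]
      have h7 := hlim1.add hlim2
      rw [h6, add_zero] at h7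
      refine h7.congr fun k => ?_
      have h8 : (∑ μ ∈ g.coeff.support, g.coeff μ * Real.exp ((μ - μ₀) * (e : ℝ) ^ (c + r * k))) =
          ev ((e : ℝ) ^ (c + r * k)) g * Real.exp (-μ₀ * (e : ℝ) ^ (c + r * k)) := by
        rw [ExD_ev, Finset.sum_mul]
        refine Finset.sum_congr rfl fun μ _ => ?_
        rw [mul_assoc, ← Real.exp_add]
        congr 2
        ring
      rw [h8]
      ring
    rcases lt_or_gt_of_ne hγ with hneg | hpos
    · refine ⟨-1, ?_⟩
      obtain ⟨n₁, hn₁⟩ := eventually_atTop.1 (hlim.eventually_lt_const hneg)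
      refine ⟨n₁, by decide, fun k hk' => ?_⟩
      have h9 := hn₁ k hk'
      have h10 : u (c + r * k) < 0 := by
        by_contra hcon
        exact absurd h9 (not_lt.2 (mul_nonneg (not_lt.1 hcon) (Real.exp_pos _).le))
      exact sign_neg h10
    · refine ⟨1, ?_⟩
      obtain ⟨n₁, hn₁⟩ := eventually_atTop.1 (hlim.eventually_const_lt hpos)
      refine ⟨n₁, by decide, fun k hk' => ?_⟩
      have h9 := hn₁ k hk'
      have h10 : 0 < u (c + r * k) := by
        by_contra hcon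
        exact absurd h9 (not_lt.2 (mul_nonpos_of_nonpos_of_nonneg (not_lt.1 hcon) (Real.exp_pos _).le))
      exact sign_pos h10
  · right
    push Not at hD
    refine ⟨C + ∑ μ ∈ g.coeff.support, |g.coeff μ|, n₀, fun k hk' => ?_⟩
    have h4 := hu (c + r * k) (hk k hk')
    rw [hGc k] at h4
    have hpos : (0 : ℝ) ≤ (e : ℝ) ^ (c + r * k) := by positivity
    have h5 : |ev ((e : ℝ) ^ (c + r * k)) g| ≤
        (∑ μ ∈ g.coeff.support, |g.coeff μ|) * Real.exp (-(M * (e : ℝ) ^ (c + r * k))) := by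
      rw [ExD_ev, Finset.sum_mul]
      refine (Finset.abs_sum_le_sum_abs _ _).trans (Finset.sum_le_sum fun μ hμ => ?_)
      rw [abs_mul, Real.abs_exp]
      refine mul_le_mul_of_nonneg_left (Real.exp_le_exp.2 ?_) (abs_nonneg _)
      have := mul_le_mul_of_nonneg_right (hD μ hμ) hpos
      linarith
    have h6 : |u (c + r * k)| ≤ |u (c + r * k) - ev ((e : ℝ) ^ (c + r * k)) g| +
        |ev ((e : ℝ) ^ (c + r * k)) g| := by
      have := abs_add_le (u (c + r * k) - ev ((e : ℝ) ^ (c + r * k)) g) (ev ((e : ℝ) ^ (c + r * k)) g)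
      rwa [sub_add_cancel] at this
    calc |u (c + r * k)| ≤ _ := h6
      _ ≤ C * Real.exp (-(M * (e : ℝ) ^ (c + r * k))) +
          (∑ μ ∈ g.coeff.support, |g.coeff μ|) * Real.exp (-(M * (e : ℝ) ^ (c + r * k))) := add_le_add h4 h5
      _ = _ := by ring

end MP_f4ff90_agP
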