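import Pool.Agent.Lib.MP_f4ff90_agP.Main

/-!
# Power-dominated maps: final form
-/

set_option autoImplicit false

open Filter Topology

namespace MP_f4ff90_agP

open Pool.Agent.Lib.MP_f4ff90_ag

/-- the conclusions -/
def Concl {g : ℕ} {K : Type*} [Field K] (L : Type*) [Field L] [Algebra K L] (τ : K →+* ℝ) (m : ℕ)
    (x : ℕ → Fin g → K) : Prop :=
  SignPer τ m x ∧ DML L m x ∧ (IrredClosure L x → GenericInClosure L x) ∧
    (ZDense L x → ZGeneric L x)

theorem concl_of {g : ℕ} {K : Type*} [Field K] [CharZero K] (L : Type*) [Field L] [Algebra K L]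
    (τ : K →+* ℝ) {m : ℕ} (hm : 0 < m) (F : Fin g → MvPolynomial (Fin g) K) (x : ℕ → Fin g → K)
    (hx : ∀ n i, x (n + 1) i = MvPolynomial.eval (x n) (F i)) (h : SignPer τ m x) :
    Concl L τ m x := by
  have hx' : IsOrbit F (fun _ => 1) x := by
    intro n i
    rw [map_one, div_one]
    exact ⟨one_ne_zero, hx n i⟩
  have : CharZero L := charZero_of_injective_algebraMap (algebraMap K L).injective
  have : Infinite L := inferInstance
  exact ⟨h, h.hyp.dml, fun hi => h.hyp.generic hx' hm hi, fun hd => ZDense.generic hx' hm h.hyp hd⟩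

/-- **Part 1** -/
theorem main_one {g : ℕ} {K : Type*} [Field K] [NumberField K] (L : Type*) [Field L] [Algebra K L]
    (τ : K →+* ℝ) {e : ℕ} (he : 2 ≤ e) (σ : Equiv.Perm (Fin g)) (F : Fin g → MvPolynomial (Fin g) K)
    (hF : ∀ i, (F i).totalDegree ≤ e) (x : ℕ → Fin g → K)
    (hx : ∀ n i, x (n + 1) i = MvPolynomial.eval (x n) (F i))
    (hc : ∀ i, (F i).coeff (Finsupp.single (σ i) e) ≠ 0) (hne : ∃ n₀, ∀ n ≥ n₀, ∀ i, x n i ≠ 0)
    (hdom : ∀ i, ∀ m ∈ (F i).support, m ≠ Finsupp.single (σ i) e →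
      Tendsto (fun n => τ ((∏ j, x n j ^ m j) / x n (σ i) ^ e)) atTop (𝓝 0)) :
    Concl L τ (2 * orderOf σ) x := by
  refine concl_of L τ (Nat.mul_pos two_pos (orderOf_pos σ)) F x hx ?_
  refine sign_main τ he σ F hF x hx ⟨fun i => ?_, fun n i => ?_, ?_, fun i m hm hm' => ?_⟩
  · rw [MvPolynomial.coeff_map]
    exact (map_ne_zero τ).2 (hc i)
  · rw [MvPolynomial.eval_map, hx]
    exact MvPolynomial.eval₂_comp (f := τ) (g := x n) (p := F i)
  · obtain ⟨n₀, h⟩ := hne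
    exact ⟨n₀, fun n hn i => (map_ne_zero τ).2 (h n hn i)⟩
  · refine (hdom i m (MvPolynomial.support_map_subset _ _ hm) hm').congr fun n => ?_
    rw [map_div₀, map_prod, map_pow]
    simp only [map_pow]

/-- the map with the components `c_i x_(σ i) ^ e + P_i` -/
noncomputable def pw {g : ℕ} {R : Type*} [CommSemiring R] (e : ℕ) (σ : Equiv.Perm (Fin g))
    (c : Fin g → R) (P : Fin g → MvPolynomial (Fin g) R) (i : Fin g) : MvPolynomial (Fin g) R :=
  MvPolynomial.C (c i) * MvPolynomial.X (σ i) ^ e + P i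

theorem pw_deg {g : ℕ} {R : Type*} [CommRing R] [Nontrivial R] {e : ℕ} (σ : Equiv.Perm (Fin g))
    (c : Fin g → R) (P : Fin g → MvPolynomial (Fin g) R) (hP : ∀ i, (P i).totalDegree < e) (i : Fin g) :
    (pw e σ c P i).totalDegree ≤ e := by
  refine (MvPolynomial.totalDegree_add _ _).trans (max_le ?_ (hP i).le)
  refine (MvPolynomial.totalDegree_mul _ _).trans ?_
  rw [MvPolynomial.totalDegree_C, zero_add]
  refine (MvPolynomial.totalDegree_pow _ _).trans ?_
  rw [MvPolynomial.totalDegree_X, mul_one]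

theorem pw_coeff {g : ℕ} {R : Type*} [CommRing R] {e : ℕ} (σ : Equiv.Perm (Fin g))
    (c : Fin g → R) (P : Fin g → MvPolynomial (Fin g) R) (hP : ∀ i, (P i).totalDegree < e) (i : Fin g) :
    (pw e σ c P i).coeff (Finsupp.single (σ i) e) = c i := by
  have h1 : (P i).coeff (Finsupp.single (σ i) e) = 0 := by
    refine MvPolynomial.coeff_eq_zero_of_totalDegree_lt ?_
    rw [← Finsupp.degree_apply, Finsupp.degree_single]
    exact hP i
  rw [pw, MvPolynomial.coeff_add, h1, add_zero, MvPolynomial.coeff_C_mul,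
    MvPolynomial.coeff_X_pow, if_pos rfl, mul_one]

theorem pw_supp {g : ℕ} {R : Type*} [CommRing R] {e : ℕ} (σ : Equiv.Perm (Fin g))
    (c : Fin g → R) (P : Fin g → MvPolynomial (Fin g) R) (hP : ∀ i, (P i).totalDegree < e) (i : Fin g)
    (m : Fin g →₀ ℕ) (hm : m ∈ (pw e σ c P i).support) (hne : m ≠ Finsupp.single (σ i) e) :
    m.degree < e := by
  rw [MvPolynomial.mem_support_iff, pw, MvPolynomial.coeff_add, MvPolynomial.coeff_C_mul,
    MvPolynomial.coeff_X_pow, if_neg (fun h => hne h.symm), mul_zero, zero_add] at hm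
  by_contra hlt
  refine hm (MvPolynomial.coeff_eq_zero_of_totalDegree_lt ?_)
  rw [← Finsupp.degree_apply]
  exact lt_of_lt_of_le (hP i) (not_lt.1 hlt)

/-- **Part 2** -/
theorem main_two {g : ℕ} {K : Type*} [Field K] [NumberField K] (τ : K →+* ℝ) {e : ℕ} (he : 2 ≤ e)
    (σ : Equiv.Perm (Fin g)) (c : Fin g → K) (hc : ∀ i, c i ≠ 0)
    (P : Fin g → MvPolynomial (Fin g) K) (hP : ∀ i, (P i).totalDegree < e) :
    ∃ C : ℝ, 0 < C ∧ ∀ x : ℕ → Fin g → K,
      (∀ n i, x (n + 1) i = MvPolynomial.eval (x n) (pw e σ c P i)) →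
      ∀ X : ℝ, 1 ≤ X → (∀ j, |τ (x 0 j)| ≤ X) → (∀ i, C * X ^ (e - 1) ≤ |τ (x 0 i)| ^ e) →
      SignPer τ (2 * orderOf σ) x := by
  obtain ⟨C, hC, h⟩ := region he σ (fun i => MvPolynomial.map τ (pw e σ c P i))
    (fun i => by
      rw [MvPolynomial.coeff_map, pw_coeff σ c P hP]
      exact (map_ne_zero τ).2 (hc i))
    (fun i m hm hne => pw_supp σ c P hP i m (MvPolynomial.support_map_subset _ _ hm) hne)
  refine ⟨C, hC, fun x hx X hX h1 h2 => ?_⟩
  refine sign_main τ he σ _ (pw_deg σ c P hP) x hx (h (fun n i => τ (x n i)) ?_ X hX h1 h2)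
  intro n i
  show τ (x (n + 1) i) = _
  rw [MvPolynomial.eval_map, hx]
  exact MvPolynomial.eval₂_comp (f := τ) (g := x n) (p := pw e σ c P i)

/-- the orbit of an integral point -/
noncomputable def orbZ {g : ℕ} (F : Fin g → MvPolynomial (Fin g) ℤ) (a : Fin g → ℤ) : ℕ → Fin g → ℤ
  | 0 => a
  | n + 1 => fun i => MvPolynomial.eval (orbZ F a n) (F i)

theorem orbZ_cast {g : ℕ} (F : Fin g → MvPolynomial (Fin g) ℤ) (a : Fin g → ℤ) (n : ℕ) (i : Fin g) :
    ((orbZ F a (n + 1) i : ℤ) : ℚ) = MvPolynomial.eval (fun j => ((orbZ F a n j : ℤ) : ℚ))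
      (MvPolynomial.map (Int.castRingHom ℚ) (F i)) := by
  rw [MvPolynomial.eval_map]
  exact (MvPolynomial.eval₂_comp (f := Int.castRingHom ℚ) (g := orbZ F a n) (p := F i))

open Classical in
/-- **Part 3** -/
theorem main_three {g : ℕ} {e : ℕ} (he : 2 ≤ e) (σ : Equiv.Perm (Fin g)) (c : Fin g → ℤ)
    (hc : ∀ i, c i ≠ 0) (P : Fin g → MvPolynomial (Fin g) ℤ) (hP : ∀ i, (P i).totalDegree < e) :
    ∀ ε > (0 : ℝ), ∃ B₀ : ℕ, ∀ B ≥ B₀,
      (((Fintype.piFinset fun _ : Fin g => Finset.Icc (-(B : ℤ)) B).filter fun a =>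
        ¬ SignPer (Rat.castHom ℝ) (2 * orderOf σ)
          (fun n i => ((orbZ (pw e σ c P) a n i : ℤ) : ℚ))).card : ℝ) ≤
        ε * (2 * (B : ℝ) + 1) ^ g := by
  have hPQ : ∀ i, (MvPolynomial.map (Int.castRingHom ℚ) (P i)).totalDegree < e := fun i =>
    lt_of_le_of_lt (Finset.sup_mono (MvPolynomial.support_map_subset _ _)) (hP i)
  obtain ⟨C, hC, h⟩ := main_two (Rat.castHom ℝ) he σ (fun i => ((c i : ℤ) : ℚ))
    (fun i => by exact_mod_cast hc i) (fun i => MvPolynomial.map (Int.castRingHom ℚ) (P i)) hPQ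
  have hpw : ∀ i, MvPolynomial.map (Int.castRingHom ℚ) (pw e σ c P i) =
      pw e σ (fun i => ((c i : ℤ) : ℚ)) (fun i => MvPolynomial.map (Int.castRingHom ℚ) (P i)) i := by
    intro i
    simp [pw]
  intro ε hε
  obtain ⟨B₀, hB⟩ := count (g := g) (e := e) (by omega) C hC ε hε
  refine ⟨max B₀ 1, fun B hB1 => le_trans ?_ (hB B (le_trans (le_max_left _ _) hB1))⟩
  have hB2 : 1 ≤ B := le_trans (le_max_right _ _) hB1
  refine Nat.cast_le.2 (Finset.card_le_card fun a ha => ?_)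
  rw [Finset.mem_filter] at ha ⊢
  refine ⟨ha.1, fun hgood => ha.2 ?_⟩
  refine h _ ?_ B (by exact_mod_cast hB2) ?_ ?_
  · intro n i
    rw [← hpw]
    exact orbZ_cast _ _ _ _
  · intro j
    have h1 := Finset.mem_Icc.1 (Fintype.mem_piFinset.1 ha.1 j)
    have h2 : |a j| ≤ (B : ℤ) := abs_le.2 h1
    have h3 : ((|a j| : ℤ) : ℝ) ≤ (B : ℝ) := by exact_mod_cast h2
    simpa [orbZ] using h3
  · intro i
    have h1 := hgood i
    simpa [orbZ] using h1

end MP_f4ff90_agP
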