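import Mathlib

/-!
# Linear substitutions do not raise the total degree
-/

set_option autoImplicit false

open Filter Topology

namespace MP_f4ff90_agP

/-- the linear form with the coefficients `A i` -/
noncomputable def lf {g : ℕ} {R : Type*} [CommSemiring R] (A : Matrix (Fin g) (Fin g) R)
    (i : Fin g) : MvPolynomial (Fin g) R := ∑ k, MvPolynomial.C (A i k) * MvPolynomial.X k

theorem lf_deg {g : ℕ} {R : Type*} [CommSemiring R] [Nontrivial R] (A : Matrix (Fin g) (Fin g) R)
    (i : Fin g) : (lf A i).totalDegree ≤ 1 := by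
  refine MvPolynomial.totalDegree_finsetSum_le fun k _ => ?_
  refine (MvPolynomial.totalDegree_mul _ _).trans ?_
  rw [MvPolynomial.totalDegree_C, MvPolynomial.totalDegree_X]

theorem sub_deg {g : ℕ} {R : Type*} [CommSemiring R] [Nontrivial R] (A : Matrix (Fin g) (Fin g) R)
    (P : MvPolynomial (Fin g) R) : (MvPolynomial.bind₁ (lf A) P).totalDegree ≤ P.totalDegree := by
  conv_lhs => rw [P.as_sum]
  rw [map_sum]
  refine MvPolynomial.totalDegree_finsetSum_le fun m hm => ?_
  rw [MvPolynomial.bind₁_monomial]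
  refine (MvPolynomial.totalDegree_mul _ _).trans ?_
  rw [MvPolynomial.totalDegree_C, zero_add]
  refine (MvPolynomial.totalDegree_finsetProd _ _).trans ?_
  calc ∑ i ∈ m.support, (lf A i ^ m i).totalDegree ≤ ∑ i ∈ m.support, m i := by
        refine Finset.sum_le_sum fun i _ => ?_
        refine (MvPolynomial.totalDegree_pow _ _).trans ?_
        calc m i * (lf A i).totalDegree ≤ m i * 1 := Nat.mul_le_mul_left _ (lf_deg A i)
          _ = m i := mul_one _
    _ ≤ P.totalDegree := MvPolynomial.le_totalDegree hm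

theorem lf_eval {g : ℕ} {R : Type*} [CommSemiring R] (A : Matrix (Fin g) (Fin g) R)
    (v : Fin g → R) (i : Fin g) : MvPolynomial.eval v (lf A i) = A.mulVec v i := by
  simp [lf, Matrix.mulVec, dotProduct]

theorem eval_sub {g : ℕ} {R : Type*} [CommSemiring R] (A : Matrix (Fin g) (Fin g) R)
    (v : Fin g → R) (P : MvPolynomial (Fin g) R) :
    MvPolynomial.eval v (MvPolynomial.bind₁ (lf A) P) = MvPolynomial.eval (A.mulVec v) P := by
  have h1 : MvPolynomial.eval v (MvPolynomial.bind₁ (lf A) P) =
      MvPolynomial.eval (fun i => MvPolynomial.eval v (lf A i)) P := by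
    rw [← MvPolynomial.coe_aeval_eq_eval, ← MvPolynomial.coe_aeval_eq_eval]
    show MvPolynomial.aeval v (MvPolynomial.bind₁ (lf A) P) = _
    rw [MvPolynomial.aeval_bind₁]
    rfl
  rw [h1]
  congr 2
  ext i
  rw [lf_eval]

end MP_f4ff90_agP
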