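import Pool.Agent.Lib.MP_f4ff90_agP.Fin
import Pool.Agent.Lib.MP_f4ff90_agP.LinA
import Pool.Agent.Lib.MP_f4ff90_agP.CntL

/-!
# Power-dominated maps in linear coordinates, lattices of starting points
-/

set_option autoImplicit false

open Filter Topology

namespace MP_f4ff90_agP

open Pool.Agent.Lib.MP_f4ff90_ag

theorem SignPer.lin {g : ℕ} {K : Type*} [Field K] {τ : K →+* ℝ} {m : ℕ} {x y : ℕ → Fin g → K}
    (B : Matrix (Fin g) (Fin g) K) (hy : ∀ n, x n = B.mulVec (y n)) (h : SignPer τ m y) :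
    SignPer τ m x := by
  intro P
  obtain ⟨n₀, h0⟩ := h (MvPolynomial.bind₁ (lf B) P)
  refine ⟨n₀, fun n hn => ?_⟩
  have h1 := h0 n hn
  rw [eval_sub, eval_sub, ← hy, ← hy] at h1
  exact h1

/-- in the linear coordinates `A`, the map `F` is `c_i x_(σ i) ^ e` plus terms of lower degree -/
def Diag {g : ℕ} {K : Type*} [CommRing K] (e : ℕ) (σ : Equiv.Perm (Fin g))
    (A : Matrix (Fin g) (Fin g) K) (F : Fin g → MvPolynomial (Fin g) K) : Prop :=
  ∃ c : Fin g → K, (∀ i, c i ≠ 0) ∧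
    ∀ i, (∑ j, MvPolynomial.C (A i j) * F j -
      MvPolynomial.C (c i) * lf A (σ i) ^ e).totalDegree < e

/-- **Part 2**, linear coordinates -/
theorem lin_two {g : ℕ} {K : Type*} [Field K] [NumberField K] (τ : K →+* ℝ) {e : ℕ} (he : 2 ≤ e)
    (σ : Equiv.Perm (Fin g)) (A : Matrix (Fin g) (Fin g) K) (hA : IsUnit A.det)
    (F : Fin g → MvPolynomial (Fin g) K) (hF : Diag e σ A F) :
    ∃ C : ℝ, 0 < C ∧ ∀ x : ℕ → Fin g → K,
      (∀ n i, x (n + 1) i = MvPolynomial.eval (x n) (F i)) →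
      ∀ X : ℝ, 1 ≤ X → (∀ j, |τ (A.mulVec (x 0) j)| ≤ X) →
        (∀ i, C * X ^ (e - 1) ≤ |τ (A.mulVec (x 0) i)| ^ e) →
        SignPer τ (2 * orderOf σ) x := by
  obtain ⟨c, hc, hdeg⟩ := hF
  obtain ⟨C, hC, h⟩ := main_two τ he σ c hc
    (fun i => MvPolynomial.bind₁ (lf A⁻¹) (∑ j, MvPolynomial.C (A i j) * F j -
      MvPolynomial.C (c i) * lf A (σ i) ^ e)) (fun i => (sub_deg _ _).trans_lt (hdeg i))
  refine ⟨C, hC, fun x hx X hX h1 h2 => ?_⟩
  have hinv : ∀ n, x n = A⁻¹.mulVec (A.mulVec (x n)) := by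
    intro n
    rw [Matrix.mulVec_mulVec, Matrix.nonsing_inv_mul A hA, Matrix.one_mulVec]
  refine SignPer.lin (y := fun n => A.mulVec (x n)) A⁻¹ hinv (h (fun n => A.mulVec (x n)) ?_ X hX h1 h2)
  intro n i
  have e1 : MvPolynomial.eval (A.mulVec (x n)) (MvPolynomial.bind₁ (lf A⁻¹)
      (∑ j, MvPolynomial.C (A i j) * F j - MvPolynomial.C (c i) * lf A (σ i) ^ e)) =
      MvPolynomial.eval (x n) (∑ j, MvPolynomial.C (A i j) * F j -
        MvPolynomial.C (c i) * lf A (σ i) ^ e) := by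
    rw [eval_sub, ← hinv]
  show A.mulVec (x (n + 1)) i = _
  rw [pw, map_add, e1]
  simp only [map_sub, map_sum, map_mul, map_pow, MvPolynomial.eval_C, MvPolynomial.eval_X, lf_eval,
    ← hx]
  rw [add_sub_cancel]
  rfl

/-- the orbit of `a` -/
noncomputable def orbK {g : ℕ} {K : Type*} [CommRing K] (F : Fin g → MvPolynomial (Fin g) K)
    (a : Fin g → K) : ℕ → Fin g → K
  | 0 => a
  | n + 1 => fun i => MvPolynomial.eval (orbK F a n) (F i)

open Classical in
/-- **Part 3**, linear coordinates, lattices -/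
theorem lin_three {g N : ℕ} {K : Type*} [Field K] [NumberField K] (τ : K →+* ℝ) {e : ℕ} (he : 2 ≤ e)
    (σ : Equiv.Perm (Fin g)) (A : Matrix (Fin g) (Fin g) K) (hA : IsUnit A.det)
    (F : Fin g → MvPolynomial (Fin g) K) (hF : Diag e σ A F) (w : Fin N → Fin g → K)
    (hw : Submodule.span K (Set.range w) = ⊤) :
    ∀ ε > (0 : ℝ), ∃ B₀ : ℕ, ∀ B ≥ B₀,
      (((Fintype.piFinset fun _ : Fin N => Finset.Icc (-(B : ℤ)) B).filter fun u =>
        ¬ SignPer τ (2 * orderOf σ) (orbK F (∑ k, u k • w k))).card : ℝ) ≤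
        ε * (2 * (B : ℝ) + 1) ^ N := by
  obtain ⟨C, hC, h⟩ := lin_two τ he σ A hA F hF
  set b : Fin g → Fin N → ℝ := fun i k => τ (A.mulVec (w k) i) with hb
  have hval : ∀ (u : Fin N → ℤ) (i : Fin g),
      τ (A.mulVec (∑ k, u k • w k) i) = ∑ k, b i k * (u k : ℝ) := by
    intro u i
    have e1 : A.mulVec (∑ k, u k • w k) = ∑ k, u k • A.mulVec (w k) := by
      have e2 := map_sum (Matrix.mulVecLin A) (fun k => u k • w k) Finset.univ
      simpa only [map_zsmul, Matrix.mulVecLin_apply] using e2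
    rw [e1, Finset.sum_apply, map_sum]
    refine Finset.sum_congr rfl fun k _ => ?_
    rw [Pi.smul_apply, zsmul_eq_mul, map_mul, map_intCast, mul_comm]
  have hrow : ∀ i, ∃ k, b i k ≠ 0 := by
    intro i
    by_contra hcon
    push Not at hcon
    have h0 : ∀ v : Fin g → K, A.mulVec v i = 0 := by
      intro v
      have hv : v ∈ Submodule.span K (Set.range w) := by rw [hw]; trivial
      refine Submodule.span_induction (p := fun v _ => A.mulVec v i = 0) ?_ ?_ ?_ ?_ hv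
      · rintro _ ⟨k, rfl⟩
        exact (map_eq_zero τ).1 (hcon k)
      · rw [Matrix.mulVec_zero]; rfl
      · intro v v' _ _ h1 h2
        rw [Matrix.mulVec_add, Pi.add_apply, h1, h2, add_zero]
      · intro r v _ h1
        rw [Matrix.mulVec_smul, Pi.smul_apply, h1, smul_zero]
    have h1 := h0 (A⁻¹.mulVec (Pi.single i 1))
    rw [Matrix.mulVec_mulVec, Matrix.mul_nonsing_inv A hA, Matrix.one_mulVec, Pi.single_eq_same] at h1
    exact one_ne_zero h1
  set κ : ℝ := 1 + ∑ i, ∑ k, |b i k| with hκ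
  have hκ1 : 1 ≤ κ := by
    rw [hκ]
    have : 0 ≤ ∑ i, ∑ k, |b i k| := Finset.sum_nonneg fun i _ => Finset.sum_nonneg fun k _ => abs_nonneg _
    linarith
  have hκ0 : 0 < κ := one_pos.trans_le hκ1
  intro ε hε
  obtain ⟨B₀, hB⟩ := countL (e := e) (by omega) (C * κ ^ (e - 1)) (by positivity) b hrow ε hε
  refine ⟨max B₀ 1, fun B hB1 => le_trans ?_ (hB B (le_trans (le_max_left _ _) hB1))⟩
  have hB2 : (1 : ℝ) ≤ (B : ℝ) := by exact_mod_cast le_trans (le_max_right _ _) hB1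
  refine Nat.cast_le.2 (Finset.card_le_card fun u hu => ?_)
  rw [Finset.mem_filter] at hu ⊢
  refine ⟨hu.1, fun hgood => hu.2 ?_⟩
  refine h (orbK F (∑ k, u k • w k)) (fun n i => rfl) (κ * B) (by nlinarith) (fun j => ?_) (fun i => ?_)
  · show |τ (A.mulVec (∑ k, u k • w k) j)| ≤ κ * B
    rw [hval]
    have h3 : ∀ k, |(u k : ℝ)| ≤ B := by
      intro k
      have h4 : |u k| ≤ (B : ℤ) := abs_le.2 (Finset.mem_Icc.1 (Fintype.mem_piFinset.1 hu.1 k))
      exact_mod_cast h4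
    calc |∑ k, b j k * (u k : ℝ)| ≤ ∑ k, |b j k * (u k : ℝ)| := Finset.abs_sum_le_sum_abs _ _
      _ ≤ ∑ k, |b j k| * B := by
        refine Finset.sum_le_sum fun k _ => ?_
        rw [abs_mul]
        exact mul_le_mul_of_nonneg_left (h3 k) (abs_nonneg _)
      _ = (∑ k, |b j k|) * B := by rw [Finset.sum_mul]
      _ ≤ κ * B := by
        refine mul_le_mul_of_nonneg_right ?_ (by linarith)
        have h5 : ∑ k, |b j k| ≤ ∑ i, ∑ k, |b i k| :=
          Finset.single_le_sum (f := fun i => ∑ k, |b i k|)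
            (fun i _ => Finset.sum_nonneg fun k _ => abs_nonneg _) (Finset.mem_univ j)
        rw [hκ]
        linarith
  · show C * (κ * B) ^ (e - 1) ≤ |τ (A.mulVec (∑ k, u k • w k) i)| ^ e
    rw [hval, mul_pow, ← mul_assoc]
    exact hgood i

end MP_f4ff90_agP
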