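import Mathlib

/-!
LEAF Lio.  Liouville's inequality along the orbit.
PROOF.  Say that `y : Fin g → K` has size `≤ B` (`B ≥ 1` real) if there is `q : ℕ`, `0 < q ≤ B`, with `(q : K) * y i` integral over `ℤ` for all `i` and `‖φ (y i)‖ ≤ B` for all `i` and all
`φ : K →+* ℂ`.  (1) For a polynomial `P` of total degree `≤ D` there is `C ≥ 1` such that for `y` of size `≤ B` there is `q'`, `0 < q' ≤ C B^D`, with `q' * eval y P`
integral and `‖φ (eval y P)‖ ≤ C B^D`: `q' = q₀ q^D`, `q₀` a common denominator of the coefficients (`IsLocalization`/`exists_integral_multiple`); for a vector of polynomials take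
a common `q₀`.  (2) So `x n` has size `≤ B n` with `B 0 ≥ 1`, `B (n+1) = C (B n)^e`, and `C B n ≤ (C B 0)^(e^n)` by induction (`C * C * B^e ≤ (C B)^e`, `e ≥ 2`).
(3) `α = eval (x n) P ≠ 0`, `q' α` integral, `q' ≤ B'`, `‖φ α‖ ≤ B'`, `B' = C' G^(e^n)`: the norm of `q' α` is a nonzero integer, so
`1 ≤ ∏_φ ‖φ (q' α)‖ ≤ B'^N * |τ α| * B'^(N-1)` (`Algebra.norm_eq_prod_embeddings`; `N = finrank ℚ K`; the embedding `τ` composed with `ℝ → ℂ` is one of the `φ`), so
`|τ α| ≥ B'^(-2N) ≥ exp (-A e^n)` for some `A` (`C' ≤ exp (c) ≤ exp (c e^n)`).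
-/

set_option autoImplicit false

open Filter Topology

namespace MP_f4ff90_agP

/-- The vector `y` has size at most `B`. -/
private def Lio_sz {K : Type*} [Field K] {ι : Type*} (B : ℝ) (y : ι → K) : Prop :=
  ∃ q : ℕ, 0 < q ∧ (q : ℝ) ≤ B ∧ (∀ i, IsIntegral ℤ ((q : K) * y i)) ∧
    ∀ i (φ : K →+* ℂ), ‖φ (y i)‖ ≤ B

private theorem Lio_den {K : Type*} [Field K] [NumberField K] (s : Finset K) :
    ∃ q : ℕ, 0 < q ∧ ∀ a ∈ s, IsIntegral ℤ ((q : K) * a) := by
  classical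
  induction s using Finset.induction_on with
  | empty => exact ⟨1, one_pos, fun a ha => absurd ha (Finset.notMem_empty a)⟩
  | insert a s ha ih =>
    obtain ⟨q, hq, h⟩ := ih
    have halg : IsAlgebraic ℤ a :=
      (IsFractionRing.isAlgebraic_iff ℤ ℚ K).2 (Algebra.IsAlgebraic.isAlgebraic a)
    obtain ⟨z, hz0, hz⟩ := halg.exists_integral_multiple
    have hz1 : IsIntegral ℤ ((z.natAbs : K) * a) := by
      rw [zsmul_eq_mul] at hz
      rcases Int.natAbs_eq z with h1 | h1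
      · rw [h1, Int.cast_natCast] at hz
        exact hz
      · rw [h1, Int.cast_neg, Int.cast_natCast, neg_mul] at hz
        have := hz.neg
        rwa [neg_neg] at this
    refine ⟨z.natAbs * q, Nat.mul_pos (Int.natAbs_pos.2 hz0) hq, fun b hb => ?_⟩
    rcases Finset.mem_insert.1 hb with h1 | h1
    · rw [h1, Nat.cast_mul, mul_comm (z.natAbs : K), mul_assoc]
      exact (isIntegral_natCast (R := ℤ) (B := K) q).mul hz1
    · rw [Nat.cast_mul, mul_assoc]
      exact (isIntegral_natCast (R := ℤ) (B := K) _).mul (h b h1)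

/-- Every vector has a size. -/
private theorem Lio_ex {K : Type*} [Field K] [NumberField K] {ι : Type*} [Finite ι] (y : ι → K) :
    ∃ B : ℝ, 1 ≤ B ∧ Lio_sz B y := by
  classical
  have := Fintype.ofFinite ι
  obtain ⟨q, hq, h⟩ := Lio_den (Finset.univ.image y)
  have h0 : ∀ i (φ : K →+* ℂ), 0 ≤ ‖φ (y i)‖ := fun i φ => norm_nonneg _
  have h1 : 0 ≤ ∑ i, ∑ φ : K →+* ℂ, ‖φ (y i)‖ :=
    Finset.sum_nonneg fun i _ => Finset.sum_nonneg fun φ _ => h0 i φ
  refine ⟨1 + q + ∑ i, ∑ φ : K →+* ℂ, ‖φ (y i)‖, ?_, q, hq, ?_, fun i => h _ ?_, fun i φ => ?_⟩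
  · have : (0 : ℝ) ≤ q := Nat.cast_nonneg q
    linarith
  · linarith
  · exact Finset.mem_image_of_mem y (Finset.mem_univ i)
  · have h2 : ‖φ (y i)‖ ≤ ∑ φ : K →+* ℂ, ‖φ (y i)‖ :=
      Finset.single_le_sum (fun φ _ => h0 i φ) (Finset.mem_univ φ)
    have h3 : ∑ φ : K →+* ℂ, ‖φ (y i)‖ ≤ ∑ i, ∑ φ : K →+* ℂ, ‖φ (y i)‖ :=
      Finset.single_le_sum (f := fun i => ∑ φ : K →+* ℂ, ‖φ (y i)‖)
        (fun i _ => Finset.sum_nonneg fun φ _ => h0 i φ) (Finset.mem_univ i)
    have : (0 : ℝ) ≤ q := Nat.cast_nonneg q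
    linarith

/-- The size of the values of polynomials. -/
private theorem Lio_poly {g : ℕ} {K : Type*} [Field K] [NumberField K] {ι : Type*} [Finite ι]
    (P : ι → MvPolynomial (Fin g) K) {D : ℕ} (hP : ∀ i, (P i).totalDegree ≤ D) :
    ∃ C : ℝ, 1 ≤ C ∧ ∀ (B : ℝ) (y : Fin g → K), 1 ≤ B → Lio_sz B y →
      Lio_sz (C * B ^ D) fun i => MvPolynomial.eval y (P i) := by
  classical
  have := Fintype.ofFinite ι
  obtain ⟨q₀, hq₀, h⟩ := Lio_den
    (Finset.univ.biUnion fun i => (P i).support.image fun m => MvPolynomial.coeff m (P i))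
  have hco : ∀ i, ∀ m ∈ (P i).support, IsIntegral ℤ ((q₀ : K) * MvPolynomial.coeff m (P i)) :=
    fun i m hm => h _ (Finset.mem_biUnion.2 ⟨i, Finset.mem_univ i,
      Finset.mem_image_of_mem (fun m => MvPolynomial.coeff m (P i)) hm⟩)
  set S : ℝ := ∑ i, ∑ φ : K →+* ℂ, ∑ m ∈ (P i).support, ‖φ (MvPolynomial.coeff m (P i))‖ with hS
  have hS1 : ∀ i (φ : K →+* ℂ), ∑ m ∈ (P i).support, ‖φ (MvPolynomial.coeff m (P i))‖ ≤ S := by
    intro i φ
    have h2 : ∑ m ∈ (P i).support, ‖φ (MvPolynomial.coeff m (P i))‖ ≤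
        ∑ φ : K →+* ℂ, ∑ m ∈ (P i).support, ‖φ (MvPolynomial.coeff m (P i))‖ :=
      Finset.single_le_sum (f := fun φ : K →+* ℂ => ∑ m ∈ (P i).support,
        ‖φ (MvPolynomial.coeff m (P i))‖)
        (fun φ _ => Finset.sum_nonneg fun m _ => norm_nonneg _) (Finset.mem_univ φ)
    have h3 : ∑ φ : K →+* ℂ, ∑ m ∈ (P i).support, ‖φ (MvPolynomial.coeff m (P i))‖ ≤ S :=
      Finset.single_le_sum (f := fun i => ∑ φ : K →+* ℂ, ∑ m ∈ (P i).support,
        ‖φ (MvPolynomial.coeff m (P i))‖)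
        (fun i _ => Finset.sum_nonneg fun φ _ => Finset.sum_nonneg fun m _ => norm_nonneg _)
        (Finset.mem_univ i)
    exact h2.trans h3
  have hS0 : 0 ≤ S := Finset.sum_nonneg fun i _ => Finset.sum_nonneg fun φ _ =>
    Finset.sum_nonneg fun m _ => norm_nonneg _
  have hq0 : (0 : ℝ) ≤ q₀ := Nat.cast_nonneg q₀
  have hdeg : ∀ i, ∀ m ∈ (P i).support, ∑ j, m j ≤ D := by
    intro i m hm
    have h1 := MvPolynomial.le_totalDegree hm
    rw [Finsupp.sum_fintype _ _ fun _ => rfl] at h1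
    exact h1.trans (hP i)
  refine ⟨1 + q₀ + S, by linarith, fun B y hB hy => ?_⟩
  obtain ⟨q, hq, hqB, hqi, hφ⟩ := hy
  have hBD : 1 ≤ B ^ D := one_le_pow₀ hB
  have hB0 : 0 ≤ B := by linarith
  refine ⟨q₀ * q ^ D, Nat.mul_pos hq₀ (pow_pos hq D), ?_, fun i => ?_, fun i φ => ?_⟩
  · rw [Nat.cast_mul, Nat.cast_pow]
    refine mul_le_mul ?_ (pow_le_pow_left₀ (Nat.cast_nonneg q) hqB D) (by positivity) (by linarith)
    linarith
  · show IsIntegral ℤ (((q₀ * q ^ D : ℕ) : K) * MvPolynomial.eval y (P i))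
    rw [MvPolynomial.eval_eq', Finset.mul_sum]
    refine IsIntegral.sum _ fun m hm => ?_
    obtain ⟨k, hk⟩ := Nat.exists_eq_add_of_le (hdeg i m hm)
    have h1 : ((q₀ * q ^ D : ℕ) : K) * (MvPolynomial.coeff m (P i) * ∏ j, y j ^ m j) =
        ((q₀ : K) * MvPolynomial.coeff m (P i)) * ((q : K) ^ k * ∏ j, ((q : K) * y j) ^ m j) := by
      simp only [mul_pow]
      rw [Finset.prod_mul_distrib, Finset.prod_pow_eq_pow_sum, hk]
      push_cast
      ring
    rw [h1]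
    refine (hco i m hm).mul (((isIntegral_natCast (R := ℤ) (B := K) q).pow k).mul ?_)
    exact IsIntegral.prod _ fun j _ => (hqi j).pow _
  · show ‖φ (MvPolynomial.eval y (P i))‖ ≤ _
    rw [MvPolynomial.eval_eq', map_sum]
    have h2 : ∀ m ∈ (P i).support, ‖φ (MvPolynomial.coeff m (P i) * ∏ j, y j ^ m j)‖ ≤
        ‖φ (MvPolynomial.coeff m (P i))‖ * B ^ D := by
      intro m hm
      rw [map_mul, norm_mul, map_prod, norm_prod]
      refine mul_le_mul_of_nonneg_left ?_ (norm_nonneg _)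
      calc ∏ j, ‖φ (y j ^ m j)‖ ≤ ∏ j, B ^ m j := by
            refine Finset.prod_le_prod (fun j _ => norm_nonneg _) fun j _ => ?_
            rw [map_pow, norm_pow]
            exact pow_le_pow_left₀ (norm_nonneg _) (hφ j φ) _
        _ = B ^ ∑ j, m j := Finset.prod_pow_eq_pow_sum _ _ _
        _ ≤ B ^ D := pow_le_pow_right₀ hB (hdeg i m hm)
    calc ‖∑ m ∈ (P i).support, φ (MvPolynomial.coeff m (P i) * ∏ j, y j ^ m j)‖
        ≤ ∑ m ∈ (P i).support, ‖φ (MvPolynomial.coeff m (P i) * ∏ j, y j ^ m j)‖ := norm_sum_le _ _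
      _ ≤ ∑ m ∈ (P i).support, ‖φ (MvPolynomial.coeff m (P i))‖ * B ^ D := Finset.sum_le_sum h2
      _ = (∑ m ∈ (P i).support, ‖φ (MvPolynomial.coeff m (P i))‖) * B ^ D :=
          (Finset.sum_mul _ _ _).symm
      _ ≤ (1 + q₀ + S) * B ^ D := by
          refine mul_le_mul_of_nonneg_right ?_ (by linarith)
          have := hS1 i φ
          linarith

/-- Liouville. -/
private theorem Lio_low {K : Type*} [Field K] [NumberField K] (τ : K →+* ℝ) {a : K} (ha : a ≠ 0)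
    {B : ℝ} (hB : 1 ≤ B) (h : Lio_sz B fun _ : Unit => a) :
    1 ≤ |τ a| * B ^ (2 * Module.finrank ℚ K + 1) := by
  classical
  obtain ⟨q, hq, hqB, hqi, hφ⟩ := h
  have hq1 : (1 : ℝ) ≤ q := by exact_mod_cast hq
  have hx0 : (q : K) * a ≠ 0 := mul_ne_zero (Nat.cast_ne_zero.2 hq.ne') ha
  have hint := Algebra.isIntegral_norm ℚ (hqi ())
  have hn0 : Algebra.norm ℚ ((q : K) * a) ≠ 0 := Algebra.norm_ne_zero_iff.2 hx0
  obtain ⟨z, hz⟩ := IsIntegrallyClosed.isIntegral_iff.1 hint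
  have hz1 : (1 : ℝ) ≤ ((|Algebra.norm ℚ ((q : K) * a)| : ℚ) : ℝ) := by
    have hz' : Algebra.norm ℚ ((q : K) * a) = (z : ℚ) := hz.symm
    rw [hz'] at hn0 ⊢
    have hz2 : z ≠ 0 := by exact_mod_cast hn0
    have hz3 : 1 ≤ |z| := Int.one_le_abs hz2
    have hz4 : (1 : ℚ) ≤ |(z : ℚ)| := by exact_mod_cast hz3
    exact_mod_cast hz4
  rw [← NumberField.InfinitePlace.prod_eq_abs_norm] at hz1
  set w₀ := NumberField.InfinitePlace.mk ((Complex.ofRealHom).comp τ) with hw₀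
  have e0 : ∀ x : K, w₀ x = |τ x| := by
    intro x
    rw [hw₀, NumberField.InfinitePlace.apply]
    show ‖((τ x : ℝ) : ℂ)‖ = _
    rw [Complex.norm_real, Real.norm_eq_abs]
  have e1 : ∀ w : NumberField.InfinitePlace K, w ((q : K) * a) ≤ B ^ 2 := by
    rw [NumberField.InfinitePlace.le_iff_le]
    intro φ
    rw [map_mul, norm_mul, map_natCast, pow_two, Complex.norm_natCast]
    exact mul_le_mul hqB (hφ () φ) (norm_nonneg _) (by linarith)
  have e2 : w₀ ((q : K) * a) ≤ B * |τ a| := by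
    rw [e0, map_mul, abs_mul, map_natCast, abs_of_nonneg (Nat.cast_nonneg q)]
    exact mul_le_mul_of_nonneg_right hqB (abs_nonneg _)
  have hBB : 1 ≤ B ^ 2 := one_le_pow₀ hB
  by_cases hc : w₀ ((q : K) * a) ≤ 1
  · have h1 : ∏ w : NumberField.InfinitePlace K, w ((q : K) * a) ^ w.mult ≤
        w₀ ((q : K) * a) * (B ^ 2) ^ Module.finrank ℚ K := by
      rw [← Finset.mul_prod_erase _ _ (Finset.mem_univ w₀),
        ← NumberField.InfinitePlace.sum_mult_eq (K := K), ← Finset.prod_pow_eq_pow_sum]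
      refine mul_le_mul ?_ ?_ ?_ (apply_nonneg _ _)
      · have hm : w₀.mult ≠ 0 := NumberField.InfinitePlace.mult_ne_zero
        calc w₀ ((q : K) * a) ^ w₀.mult ≤ w₀ ((q : K) * a) ^ 1 :=
              pow_le_pow_of_le_one (apply_nonneg _ _) hc (Nat.one_le_iff_ne_zero.2 hm)
          _ = _ := pow_one _
      · calc ∏ w ∈ Finset.univ.erase w₀, w ((q : K) * a) ^ w.mult
            ≤ ∏ w ∈ Finset.univ.erase w₀, (B ^ 2) ^ w.mult :=
              Finset.prod_le_prod (fun w _ => pow_nonneg (apply_nonneg _ _) _) fun w _ =>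
                pow_le_pow_left₀ (apply_nonneg _ _) (e1 w) _
          _ ≤ (B ^ 2) ^ w₀.mult * ∏ w ∈ Finset.univ.erase w₀, (B ^ 2) ^ w.mult :=
              le_mul_of_one_le_left (Finset.prod_nonneg fun w _ => by positivity)
                (one_le_pow₀ hBB)
          _ = ∏ w : NumberField.InfinitePlace K, (B ^ 2) ^ w.mult :=
              Finset.mul_prod_erase Finset.univ
                (fun w : NumberField.InfinitePlace K => (B ^ 2) ^ w.mult) (Finset.mem_univ w₀)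
      · exact Finset.prod_nonneg fun w _ => pow_nonneg (apply_nonneg _ _) _
    calc (1 : ℝ) ≤ _ := hz1
      _ ≤ _ := h1
      _ ≤ (B * |τ a|) * (B ^ 2) ^ Module.finrank ℚ K :=
          mul_le_mul_of_nonneg_right e2 (by positivity)
      _ = _ := by
          rw [← pow_mul, pow_succ]
          ring
  · push Not at hc
    calc (1 : ℝ) ≤ B * |τ a| := hc.le.trans e2
      _ ≤ (B ^ (2 * Module.finrank ℚ K + 1)) * |τ a| := by
          refine mul_le_mul_of_nonneg_right ?_ (abs_nonneg _)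
          exact le_self_pow₀ hB (by omega)
      _ = _ := mul_comm _ _

theorem liouville {g : ℕ} {K : Type*} [Field K] [NumberField K] (τ : K →+* ℝ) {e : ℕ} (he : 2 ≤ e)
    (F : Fin g → MvPolynomial (Fin g) K) (hF : ∀ i, (F i).totalDegree ≤ e) (x : ℕ → Fin g → K)
    (hx : ∀ n i, x (n + 1) i = MvPolynomial.eval (x n) (F i)) (P : MvPolynomial (Fin g) K) :
    ∃ A : ℝ, ∀ n, MvPolynomial.eval (x n) P ≠ 0 →
      Real.exp (-(A * (e : ℝ) ^ n)) ≤ |τ (MvPolynomial.eval (x n) P)| := by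
  obtain ⟨C, hC, hF'⟩ := Lio_poly F hF
  obtain ⟨C', hC', hP'⟩ := Lio_poly (fun _ : Unit => P) (D := P.totalDegree) fun _ => le_rfl
  obtain ⟨B₀, hB₀, hx0⟩ := Lio_ex (x 0)
  set G : ℝ := C * B₀ with hG
  have hG1 : 1 ≤ G := one_le_mul_of_one_le_of_one_le hC hB₀
  have hstep : ∀ n, ∃ B : ℝ, 1 ≤ B ∧ Lio_sz B (x n) ∧ C * B ≤ G ^ (e ^ n) := by
    intro n
    induction n with
    | zero => exact ⟨B₀, hB₀, hx0, by rw [pow_zero, pow_one]⟩
    | succ n ih =>
      obtain ⟨B, hB, hs, hle⟩ := ih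
      have h1 := hF' B (x n) hB hs
      have h2 : (fun i => MvPolynomial.eval (x n) (F i)) = x (n + 1) :=
        funext fun i => (hx n i).symm
      rw [h2] at h1
      refine ⟨C * B ^ e, one_le_mul_of_one_le_of_one_le hC (one_le_pow₀ hB), h1, ?_⟩
      have hC0 : 0 ≤ C := by linarith
      have hB0 : 0 ≤ B := by linarith
      calc C * (C * B ^ e) = C ^ 2 * B ^ e := by ring
        _ ≤ C ^ e * B ^ e := by
            refine mul_le_mul_of_nonneg_right (pow_le_pow_right₀ hC he) (by positivity)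
        _ = (C * B) ^ e := (mul_pow _ _ _).symm
        _ ≤ (G ^ (e ^ n)) ^ e := pow_le_pow_left₀ (by positivity) hle e
        _ = G ^ (e ^ (n + 1)) := by rw [← pow_mul, pow_succ]
  set N := Module.finrank ℚ K with hN
  set d := P.totalDegree with hd
  refine ⟨(2 * N + 1 : ℕ) * (Real.log C' + d * Real.log G), fun n hn => ?_⟩
  obtain ⟨B, hB, hs, hle⟩ := hstep n
  have hB0 : 0 ≤ B := by linarith
  have hBG : B ≤ G ^ (e ^ n) := (le_mul_of_one_le_left hB0 hC).trans hle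
  have h1 := hP' B (x n) hB hs
  have hB1 : 1 ≤ C' * B ^ d := one_le_mul_of_one_le_of_one_le hC' (one_le_pow₀ hB)
  have h2 := Lio_low τ hn hB1 h1
  have hC0 : 0 < C' := by linarith
  have hG0 : 0 < G := by linarith
  have he1 : (1 : ℝ) ≤ (e : ℝ) ^ n := one_le_pow₀ (by exact_mod_cast (show 1 ≤ e by omega))
  have h3 : C' * B ^ d ≤ Real.exp ((Real.log C' + d * Real.log G) * (e : ℝ) ^ n) := by
    have h4 : C' ≤ Real.exp (Real.log C' * (e : ℝ) ^ n) := by
      calc C' = Real.exp (Real.log C') := (Real.exp_log hC0).symm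
        _ ≤ _ := Real.exp_le_exp.2 (le_mul_of_one_le_right (Real.log_nonneg hC') he1)
    have h5 : B ^ d ≤ Real.exp (d * Real.log G * (e : ℝ) ^ n) := by
      calc B ^ d ≤ (G ^ (e ^ n)) ^ d := pow_le_pow_left₀ hB0 hBG d
        _ = Real.exp (d * Real.log G * (e : ℝ) ^ n) := by
            rw [← pow_mul, ← Real.exp_log (pow_pos hG0 (e ^ n * d)), Real.log_pow]
            congr 1
            push_cast
            ring
    calc C' * B ^ d ≤ Real.exp (Real.log C' * (e : ℝ) ^ n) * Real.exp (d * Real.log G * (e : ℝ) ^ n) :=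
          mul_le_mul h4 h5 (by positivity) (Real.exp_pos _).le
      _ = _ := by rw [← Real.exp_add, ← add_mul]
  have h6 : (C' * B ^ d) ^ (2 * N + 1) ≤
      Real.exp ((2 * N + 1 : ℕ) * (Real.log C' + d * Real.log G) * (e : ℝ) ^ n) := by
    calc (C' * B ^ d) ^ (2 * N + 1) ≤
          (Real.exp ((Real.log C' + d * Real.log G) * (e : ℝ) ^ n)) ^ (2 * N + 1) :=
          pow_le_pow_left₀ (by positivity) h3 _
      _ = _ := by rw [← Real.exp_nat_mul, mul_assoc]
  have h7 : 1 ≤ |τ (MvPolynomial.eval (x n) P)| *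
      Real.exp ((2 * N + 1 : ℕ) * (Real.log C' + d * Real.log G) * (e : ℝ) ^ n) :=
    h2.trans (mul_le_mul_of_nonneg_left h6 (abs_nonneg _))
  rw [Real.exp_neg]
  exact (inv_le_iff_one_le_mul₀ (Real.exp_pos _)).2 h7

end MP_f4ff90_agP
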