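import Mathlib
import Pool.Agent.Lib.MP_f4ff90_agP.DomD

/-!
LEAF Reg.  An explicit region.
PROOF.  `c₁ ≤ |coeff (single (σ i) e)| ≤ c₂`, `A ≥ ∑_m |coeff m| / c₁` for all `i`.  Put `Y 0 = X`, `Y (n+1) = max 1 (2 c₂) * Y n ^ e`, `q n` by: invariant at time `n`:
`1 ≤ Y n`, `|x n j| ≤ Y n` for all `j`, and `Y n ^ (e-1) ≤ q_n |x n i|^e` for all `i`, with `q_0 = 1/C`, `q_(n+1) = C₁ q_n^e`, `C₁ = (max 1 (2 c₂))^(e-1) / (c₁/2)^e`.  Step: all other monomials have degree `≤ e-1`, so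
`|Tt i m n| ≤ Y n^(e-1) / |x n (σ i)|^e ≤ q_n ≤ 1/C`, `|eps| ≤ A q_n ≤ 1/2`, so `(c₁/2) |x n (σ i)|^e ≤ |x (n+1) i| ≤ 2 c₂ Y n^e ≤ Y (n+1)` and
`Y (n+1)^(e-1) = (max 1 (2c₂))^(e-1) (Y n^(e-1))^e ≤ (max 1 (2c₂))^(e-1) (q_n |x n (σ i)|^e)^e ≤ C₁ q_n^e |x (n+1) i|^e`.  With `C ≥ 2 C₁ + 2 A + 1`: `q_n ≤ 2^(-n) / C` (`C₁ q^e ≤ C₁ q * q ≤ q/2`, as `q ≤ 1/C ≤ 1`, `e ≥ 2`).  So
`x n i ≠ 0` and `Tt i m n → 0`.
-/

set_option autoImplicit false

open Filter Topology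

namespace MP_f4ff90_agP

private theorem Reg_mon {g : ℕ} {y : Fin g → ℝ} {Y : ℝ} (hY : 1 ≤ Y) (hy : ∀ j, |y j| ≤ Y)
    (m : Fin g →₀ ℕ) {d : ℕ} (hd : m.degree ≤ d) : |∏ j, y j ^ m j| ≤ Y ^ d := by
  rw [Finset.abs_prod]
  have h1 : ∏ j, |y j ^ m j| ≤ ∏ j, Y ^ m j := by
    refine Finset.prod_le_prod (fun j _ => abs_nonneg _) fun j _ => ?_
    rw [abs_pow]
    exact pow_le_pow_left₀ (abs_nonneg _) (hy j) _
  refine h1.trans ?_
  rw [Finset.prod_pow_eq_pow_sum, ← Finsupp.degree_eq_sum]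
  exact pow_le_pow_right₀ hY hd

/-- one step -/
private theorem Reg_step {g e : ℕ} (he : 2 ≤ e) (σ : Equiv.Perm (Fin g))
    (F : Fin g → MvPolynomial (Fin g) ℝ)
    (hF : ∀ i, ∀ m ∈ (F i).support, m ≠ Finsupp.single (σ i) e → m.degree < e)
    {K : ℝ} (hK : 1 ≤ K) (h1 : ∀ i, |(F i).coeff (Finsupp.single (σ i) e)| ≤ K)
    (h2 : ∀ i, 1 ≤ K * |(F i).coeff (Finsupp.single (σ i) e)|)
    (h3 : ∀ i, ∑ m ∈ (F i).support, |(F i).coeff m| ≤ K)
    (hc : ∀ i, (F i).coeff (Finsupp.single (σ i) e) ≠ 0)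
    {y z : Fin g → ℝ} (hz : ∀ i, z i = MvPolynomial.eval y (F i)) {Y q C : ℝ} (hY : 1 ≤ Y)
    (hq : 0 < q) (hC : 0 < C) (hC1 : 2 * (2 * K) ^ (2 * e - 1) ≤ C) (hC2 : 2 * K ^ 2 ≤ C)
    (hqC : q * C ≤ 1) (hy : ∀ j, |y j| ≤ Y) (hyq : ∀ i, Y ^ (e - 1) ≤ q * |y i| ^ e) :
    1 ≤ 2 * K * Y ^ e ∧ 0 < (2 * K) ^ (2 * e - 1) * q ^ e ∧
      (2 * K) ^ (2 * e - 1) * q ^ e ≤ q / 2 ∧ (∀ j, |z j| ≤ 2 * K * Y ^ e) ∧
      ∀ i, (2 * K * Y ^ e) ^ (e - 1) ≤ (2 * K) ^ (2 * e - 1) * q ^ e * |z i| ^ e := by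
  have hK0 : 0 < K := by linarith
  have hY0 : 0 < Y := by linarith
  have hYe : 1 ≤ Y ^ e := one_le_pow₀ hY
  have hCbig : 1 ≤ C := by nlinarith
  have hq1 : q ≤ 1 := by
    have h4 : q * 1 ≤ q * C := mul_le_mul_of_nonneg_left hCbig hq.le
    linarith
  -- the rest
  have hrest : ∀ i, |z i - (F i).coeff (Finsupp.single (σ i) e) * y (σ i) ^ e| ≤
      |(F i).coeff (Finsupp.single (σ i) e)| / 2 * |y (σ i)| ^ e := by
    intro i
    set s := Finsupp.single (σ i) e with hs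
    set a := (F i).coeff s with ha
    have hsm : s ∈ (F i).support := MvPolynomial.mem_support_iff.2 (hc i)
    have hprod : ∏ j, y j ^ s j = y (σ i) ^ e := by
      rw [hs, Finset.prod_eq_single (σ i)]
      · rw [Finsupp.single_eq_same]
      · intro j _ hj
        rw [Finsupp.single_eq_of_ne hj, pow_zero]
      · intro h
        exact absurd (Finset.mem_univ _) h
    have hz' : z i = a * y (σ i) ^ e +
        ∑ m ∈ (F i).support.erase s, (F i).coeff m * ∏ j, y j ^ m j := by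
      rw [hz i, MvPolynomial.eval_eq', ← Finset.add_sum_erase _ _ hsm, hprod]
    have hR : |∑ m ∈ (F i).support.erase s, (F i).coeff m * ∏ j, y j ^ m j| ≤ K * Y ^ (e - 1) := by
      refine (Finset.abs_sum_le_sum_abs _ _).trans ?_
      have h5 : ∀ m ∈ (F i).support.erase s, |(F i).coeff m * ∏ j, y j ^ m j| ≤
          |(F i).coeff m| * Y ^ (e - 1) := by
        intro m hm
        rw [Finset.mem_erase] at hm
        rw [abs_mul]
        have h6 : m.degree ≤ e - 1 := by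
          have := hF i m hm.2 hm.1
          omega
        exact mul_le_mul_of_nonneg_left (Reg_mon hY hy m h6) (abs_nonneg _)
      refine (Finset.sum_le_sum h5).trans ?_
      rw [← Finset.sum_mul]
      refine mul_le_mul_of_nonneg_right ?_ (by positivity)
      refine le_trans (Finset.sum_le_sum_of_subset_of_nonneg (Finset.erase_subset _ _) fun m _ _ =>
        abs_nonneg _) (h3 i)
    have hdiff : z i - a * y (σ i) ^ e =
        ∑ m ∈ (F i).support.erase s, (F i).coeff m * ∏ j, y j ^ m j := by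
      rw [hz']
      ring
    rw [hdiff]
    refine hR.trans ?_
    have h7 : K * Y ^ (e - 1) ≤ K * (q * |y (σ i)| ^ e) := mul_le_mul_of_nonneg_left (hyq (σ i)) hK0.le
    refine h7.trans ?_
    have h8 : K * q ≤ |a| / 2 := by
      have h9 : K * q * (2 * K) ≤ 1 := by nlinarith
      have h10 : 1 ≤ K * |a| := h2 i
      have h11 : K * q * (2 * K) ≤ K * |a| := h9.trans h10
      have h12 : K * (2 * (K * q)) ≤ K * |a| := by linarith
      have h13 := le_of_mul_le_mul_left h12 hK0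
      linarith
    have h14 : 0 ≤ |y (σ i)| ^ e := by positivity
    calc K * (q * |y (σ i)| ^ e) = (K * q) * |y (σ i)| ^ e := by ring
      _ ≤ |a| / 2 * |y (σ i)| ^ e := mul_le_mul_of_nonneg_right h8 h14
  have hup : ∀ i, |z i| ≤ 2 * K * Y ^ e := by
    intro i
    have h4 := hrest i
    have h5 : |z i| ≤ |(F i).coeff (Finsupp.single (σ i) e) * y (σ i) ^ e| +
        |z i - (F i).coeff (Finsupp.single (σ i) e) * y (σ i) ^ e| := by
      have h6 := abs_add_le ((F i).coeff (Finsupp.single (σ i) e) * y (σ i) ^ e)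
        (z i - (F i).coeff (Finsupp.single (σ i) e) * y (σ i) ^ e)
      rw [add_sub_cancel] at h6
      exact h6
    rw [abs_mul, abs_pow] at h5
    have h7 : |y (σ i)| ^ e ≤ Y ^ e := pow_le_pow_left₀ (abs_nonneg _) (hy _) _
    have h8 : |(F i).coeff (Finsupp.single (σ i) e)| * |y (σ i)| ^ e ≤ K * Y ^ e :=
      mul_le_mul (h1 i) h7 (by positivity) hK0.le
    nlinarith
  have hlow : ∀ i, |y (σ i)| ^ e ≤ 2 * K * |z i| := by
    intro i
    have h4 := hrest i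
    have h5 : |(F i).coeff (Finsupp.single (σ i) e) * y (σ i) ^ e| ≤ |z i| +
        |z i - (F i).coeff (Finsupp.single (σ i) e) * y (σ i) ^ e| := by
      have h6 := abs_add_le (z i) (-(z i - (F i).coeff (Finsupp.single (σ i) e) * y (σ i) ^ e))
      rw [abs_neg] at h6
      have h7 : z i + -(z i - (F i).coeff (Finsupp.single (σ i) e) * y (σ i) ^ e) =
          (F i).coeff (Finsupp.single (σ i) e) * y (σ i) ^ e := by ring
      rw [h7] at h6
      exact h6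
    rw [abs_mul, abs_pow] at h5
    have h7 : |(F i).coeff (Finsupp.single (σ i) e)| / 2 * |y (σ i)| ^ e ≤ |z i| := by linarith
    have h8 : 0 ≤ |y (σ i)| ^ e := by positivity
    have h9 := h2 i
    have h10 : K * (|(F i).coeff (Finsupp.single (σ i) e)| / 2 * |y (σ i)| ^ e) ≤ K * |z i| :=
      mul_le_mul_of_nonneg_left h7 hK0.le
    nlinarith
  refine ⟨?_, by positivity, ?_, hup, ?_⟩
  · nlinarith
  · have h4 : q ^ e ≤ q * q := by
      rw [← sq]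
      exact pow_le_pow_of_le_one hq.le hq1 he
    have h5 : 0 ≤ (2 * K) ^ (2 * e - 1) := by positivity
    have h6 : (2 * K) ^ (2 * e - 1) * q ^ e ≤ (2 * K) ^ (2 * e - 1) * (q * q) :=
      mul_le_mul_of_nonneg_left h4 h5
    have h7 : 2 * (2 * K) ^ (2 * e - 1) * q ≤ C * q := mul_le_mul_of_nonneg_right hC1 hq.le
    nlinarith
  · intro i
    have h4 : (2 * K * Y ^ e) ^ (e - 1) = (2 * K) ^ (e - 1) * (Y ^ (e - 1)) ^ e := by
      rw [mul_pow, ← pow_mul, ← pow_mul, mul_comm e (e - 1)]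
    rw [h4]
    have h5 : (Y ^ (e - 1)) ^ e ≤ (q * (2 * K * |z i|)) ^ e := by
      refine pow_le_pow_left₀ (by positivity) ?_ _
      exact (hyq (σ i)).trans (mul_le_mul_of_nonneg_left (hlow i) hq.le)
    have h6 : (2 * K) ^ (e - 1) * (Y ^ (e - 1)) ^ e ≤ (2 * K) ^ (e - 1) * (q * (2 * K * |z i|)) ^ e :=
      mul_le_mul_of_nonneg_left h5 (by positivity)
    refine h6.trans (le_of_eq ?_)
    have h7 : 2 * e - 1 = (e - 1) + e := by omega
    rw [h7, pow_add, mul_pow q, mul_pow (2 * K)]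
    ring

theorem region {g e : ℕ} (he : 2 ≤ e) (σ : Equiv.Perm (Fin g)) (F : Fin g → MvPolynomial (Fin g) ℝ)
    (hc : ∀ i, (F i).coeff (Finsupp.single (σ i) e) ≠ 0)
    (hF : ∀ i, ∀ m ∈ (F i).support, m ≠ Finsupp.single (σ i) e → m.degree < e) :
    ∃ C : ℝ, 0 < C ∧ ∀ x : ℕ → Fin g → ℝ, (∀ n i, x (n + 1) i = MvPolynomial.eval (x n) (F i)) →
      ∀ X : ℝ, 1 ≤ X → (∀ j, |x 0 j| ≤ X) → (∀ i, C * X ^ (e - 1) ≤ |x 0 i| ^ e) → Dom e σ F x := by
  obtain ⟨K, hK⟩ : ∃ K : ℝ, K = 1 + ∑ i, (|(F i).coeff (Finsupp.single (σ i) e)| +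
      |(F i).coeff (Finsupp.single (σ i) e)|⁻¹ + ∑ m ∈ (F i).support, |(F i).coeff m|) := ⟨_, rfl⟩
  have hpos : ∀ i, 0 < |(F i).coeff (Finsupp.single (σ i) e)| := fun i => abs_pos.2 (hc i)
  have hterm : ∀ i, 0 ≤ |(F i).coeff (Finsupp.single (σ i) e)| +
      |(F i).coeff (Finsupp.single (σ i) e)|⁻¹ + ∑ m ∈ (F i).support, |(F i).coeff m| := by
    intro i
    have h4 : 0 ≤ ∑ m ∈ (F i).support, |(F i).coeff m| := Finset.sum_nonneg fun m _ => abs_nonneg _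
    have h5 := hpos i
    have h6 : 0 ≤ |(F i).coeff (Finsupp.single (σ i) e)|⁻¹ := by positivity
    linarith
  have hK1 : 1 ≤ K := by
    rw [hK]
    have h4 := Finset.sum_nonneg (s := Finset.univ) fun i _ => hterm i
    linarith
  have hKi : ∀ i, |(F i).coeff (Finsupp.single (σ i) e)| +
      |(F i).coeff (Finsupp.single (σ i) e)|⁻¹ + ∑ m ∈ (F i).support, |(F i).coeff m| ≤ K := by
    intro i
    have h4 := Finset.single_le_sum (f := fun i => |(F i).coeff (Finsupp.single (σ i) e)| +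
      |(F i).coeff (Finsupp.single (σ i) e)|⁻¹ + ∑ m ∈ (F i).support, |(F i).coeff m|)
      (fun i _ => hterm i) (Finset.mem_univ i)
    rw [hK]
    linarith
  have h1 : ∀ i, |(F i).coeff (Finsupp.single (σ i) e)| ≤ K := by
    intro i
    have h4 : 0 ≤ ∑ m ∈ (F i).support, |(F i).coeff m| := Finset.sum_nonneg fun m _ => abs_nonneg _
    have h5 : 0 ≤ |(F i).coeff (Finsupp.single (σ i) e)|⁻¹ := inv_nonneg.2 (hpos i).le
    have h6 := hKi i
    linarith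
  have h2 : ∀ i, 1 ≤ K * |(F i).coeff (Finsupp.single (σ i) e)| := by
    intro i
    have h4 : 0 ≤ ∑ m ∈ (F i).support, |(F i).coeff m| := Finset.sum_nonneg fun m _ => abs_nonneg _
    have h5 := hpos i
    have h6 := hKi i
    have h7 : |(F i).coeff (Finsupp.single (σ i) e)|⁻¹ ≤ K := by linarith
    have h8 := mul_le_mul_of_nonneg_right h7 h5.le
    rw [inv_mul_cancel₀ h5.ne'] at h8
    exact h8
  have h3 : ∀ i, ∑ m ∈ (F i).support, |(F i).coeff m| ≤ K := by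
    intro i
    have h5 : 0 ≤ |(F i).coeff (Finsupp.single (σ i) e)|⁻¹ := inv_nonneg.2 (hpos i).le
    have h6 := hKi i
    have h7 := hpos i
    linarith
  have hK0 : 0 < K := by linarith
  refine ⟨2 * (2 * K) ^ (2 * e - 1) + 2 * K ^ 2, by positivity, ?_⟩
  intro x hx X hX hX1 hX2
  obtain ⟨C, hCdef⟩ : ∃ C : ℝ, C = 2 * (2 * K) ^ (2 * e - 1) + 2 * K ^ 2 := ⟨_, rfl⟩
  rw [← hCdef] at hX2
  have hC0 : 0 < C := by rw [hCdef]; positivity
  have hC1 : 2 * (2 * K) ^ (2 * e - 1) ≤ C := by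
    rw [hCdef]
    have : 0 ≤ 2 * K ^ 2 := by positivity
    linarith
  have hC2 : 2 * K ^ 2 ≤ C := by
    rw [hCdef]
    have : 0 ≤ 2 * (2 * K) ^ (2 * e - 1) := by positivity
    linarith
  have hCone : 1 ≤ C := by nlinarith
  have hinv : ∀ n, ∃ Y q : ℝ, 1 ≤ Y ∧ 0 < q ∧ q * C ≤ 1 ∧ q ≤ (1 / 2) ^ n ∧ (∀ j, |x n j| ≤ Y) ∧
      ∀ i, Y ^ (e - 1) ≤ q * |x n i| ^ e := by
    intro n
    induction n with
    | zero =>
      refine ⟨X, C⁻¹, hX, inv_pos.2 hC0, (inv_mul_cancel₀ hC0.ne').le, ?_, hX1, fun i => ?_⟩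
      · rw [pow_zero]
        exact inv_le_one_of_one_le₀ hCone
      · have h4 := mul_le_mul_of_nonneg_left (hX2 i) (inv_pos.2 hC0).le
        rw [← mul_assoc, inv_mul_cancel₀ hC0.ne', one_mul] at h4
        exact h4
    | succ n ih =>
      obtain ⟨Y, q, hY, hq, hqC, hqn, hy, hyq⟩ := ih
      obtain ⟨s1, s2, s3, s4, s5⟩ := Reg_step he σ F hF hK1 h1 h2 h3 hc (hx n) hY hq hC0 hC1 hC2 hqC
        hy hyq
      refine ⟨_, _, s1, s2, ?_, ?_, s4, s5⟩
      · have h4 := mul_le_mul_of_nonneg_right s3 hC0.le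
        linarith
      · rw [pow_succ]
        linarith
  have hne : ∀ n i, x n i ≠ 0 := by
    intro n i h0
    obtain ⟨Y, q, hY, hq, _, _, _, hyq⟩ := hinv n
    have h4 := hyq i
    rw [h0, abs_zero, zero_pow (by omega), mul_zero] at h4
    have h5 : 0 < Y ^ (e - 1) := by positivity
    linarith
  refine ⟨hc, hx, ⟨0, fun n _ i => hne n i⟩, fun i m hm hms => ?_⟩
  have hbd : ∀ n, |(∏ j, x n j ^ m j) / x n (σ i) ^ e| ≤ (1 / 2 : ℝ) ^ n := by
    intro n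
    obtain ⟨Y, q, hY, hq, _, hqn, hy, hyq⟩ := hinv n
    have h4 : m.degree ≤ e - 1 := by
      have := hF i m hm hms
      omega
    have h5 := Reg_mon hY hy m h4
    have h6 : 0 < |x n (σ i)| ^ e := pow_pos (abs_pos.2 (hne n (σ i))) _
    rw [abs_div, abs_pow, div_le_iff₀ h6]
    refine h5.trans ((hyq (σ i)).trans ?_)
    exact mul_le_mul_of_nonneg_right hqn h6.le
  refine squeeze_zero_norm (fun n => ?_) (tendsto_pow_atTop_nhds_zero_of_lt_one (by norm_num : (0 : ℝ) ≤ 1 / 2) (by norm_num))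
  rw [Real.norm_eq_abs]
  exact hbd n

end MP_f4ff90_agP
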