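import Pool.Agent.Lib.MP_f4ff90_agP.DomB
import Pool.Agent.Lib.MP_f4ff90_agP.DomE
import Pool.Agent.Lib.MP_f4ff90_agP.ExD
import Pool.Agent.Lib.MP_f4ff90_agP.Lio
import Pool.Agent.Lib.MP_f4ff90_agP.Reg
import Pool.Agent.Lib.MP_f4ff90_agP.Cnt

/-!
# Power-dominated maps: the main theorem
-/

set_option autoImplicit false

open Filter Topology

namespace MP_f4ff90_agP

/-- signs of polynomials along `x` are eventually periodic -/
def SignPer {g : ℕ} {K : Type*} [Field K] (τ : K →+* ℝ) (m : ℕ) (x : ℕ → Fin g → K) : Prop :=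
  ∀ P : MvPolynomial (Fin g) K, ∃ n₀, ∀ n ≥ n₀,
    SignType.sign (τ (MvPolynomial.eval (x (n + m)) P)) =
      SignType.sign (τ (MvPolynomial.eval (x n) P))

theorem sign_main {g : ℕ} {K : Type*} [Field K] [NumberField K] (τ : K →+* ℝ) {e : ℕ} (he : 2 ≤ e)
    (σ : Equiv.Perm (Fin g)) (F : Fin g → MvPolynomial (Fin g) K)
    (hF : ∀ i, (F i).totalDegree ≤ e) (x : ℕ → Fin g → K)
    (hx : ∀ n i, x (n + 1) i = MvPolynomial.eval (x n) (F i))
    (hdom : Dom e σ (fun i => MvPolynomial.map τ (F i)) (fun n i => τ (x n i))) :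
    SignPer τ (2 * orderOf σ) x := by
  intro P
  obtain ⟨κ, η, γ, ℓ, n₁, hR⟩ := exists_rp he hdom
  obtain ⟨A, hA⟩ := liouville τ he F hF x hx P
  set r := 2 * orderOf σ with hr
  have hr0 : 0 < r := hR.rpos
  have hexq := exq_poly he hR (MvPolynomial.map τ P) (A + 1)
  have hval : ∀ n, MvPolynomial.eval (fun i => τ (x n i)) (MvPolynomial.map τ P) =
      τ (MvPolynomial.eval (x n) P) := by
    intro n
    rw [MvPolynomial.eval_map]
    exact (MvPolynomial.eval₂_comp (f := τ) (g := x n) (p := P)).symm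
  have hE : Tendsto (fun n : ℕ => (e : ℝ) ^ n) atTop atTop :=
    tendsto_pow_atTop_atTop_of_one_lt (by exact_mod_cast (by omega : 1 < e))
  have key : ∀ c : ℕ, ∃ (s : SignType) (n₀ : ℕ), ∀ k, n₀ ≤ k →
      SignType.sign (τ (MvPolynomial.eval (x (c + r * k)) P)) = s := by
    intro c
    rcases exq_dich he hr0 hexq c with ⟨s, n₀, -, h⟩ | ⟨C, n₀, h⟩
    · refine ⟨s, n₀, fun k hk => ?_⟩
      rw [← hval]
      exact h k hk
    · have h1 : ∀ᶠ k : ℕ in atTop, C * Real.exp (-((e : ℝ) ^ (c + r * k))) < 1 := by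
        have h2 : Tendsto (fun k : ℕ => c + r * k) atTop atTop :=
          tendsto_atTop_mono (fun k => (Nat.le_mul_of_pos_left k hr0).trans (Nat.le_add_left _ _))
            tendsto_id
        have h3 : Tendsto (fun k : ℕ => C * Real.exp (-((e : ℝ) ^ (c + r * k)))) atTop (𝓝 (C * 0)) :=
          (Real.tendsto_exp_neg_atTop_nhds_zero.comp (hE.comp h2)).const_mul C
        rw [mul_zero] at h3
        exact h3.eventually (gt_mem_nhds one_pos)
      obtain ⟨n₂, hn₂⟩ := eventually_atTop.1 h1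
      refine ⟨0, max n₀ n₂, fun k hk => ?_⟩
      have h4 := h k ((le_max_left _ _).trans hk)
      have h5 := hn₂ k ((le_max_right _ _).trans hk)
      rw [hval] at h4
      by_contra hne
      have h6 : MvPolynomial.eval (x (c + r * k)) P ≠ 0 := by
        intro h0
        rw [h0, map_zero, sign_zero] at hne
        exact hne rfl
      have h7 := (hA _ h6).trans h4
      have h8 : ∀ E : ℝ, C * Real.exp (-((A + 1) * E)) =
          C * Real.exp (-E) * Real.exp (-(A * E)) := by
        intro E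
        rw [mul_assoc, ← Real.exp_add]
        congr 2
        ring
      rw [h8] at h7
      have h9 := Real.exp_pos (-(A * (e : ℝ) ^ (c + r * k)))
      nlinarith
  choose s n₀ hs using key
  refine ⟨r * ((Finset.range r).sup n₀ + 1), fun n hn => ?_⟩
  have h1 : n % r + r * (n / r) = n := Nat.mod_add_div n r
  have h2 : n % r + r * (n / r + 1) = n + r := by rw [mul_add, mul_one, ← add_assoc, h1]
  have h3 : n₀ (n % r) ≤ n / r := by
    have h4 : n₀ (n % r) ≤ (Finset.range r).sup n₀ :=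
      Finset.le_sup (Finset.mem_range.2 (Nat.mod_lt _ hr0))
    have h5 : (Finset.range r).sup n₀ + 1 ≤ n / r := (Nat.le_div_iff_mul_le hr0).2 (by rwa [mul_comm])
    omega
  have h6 := hs (n % r) (n / r) h3
  have h7 := hs (n % r) (n / r + 1) (h3.trans (Nat.le_succ _))
  rw [h1] at h6
  rw [h2] at h7
  rw [h6, h7]

theorem SignPer.hyp {g : ℕ} {K : Type*} [Field K] {τ : K →+* ℝ} {m : ℕ} {x : ℕ → Fin g → K}
    (h : SignPer τ m x) : Pool.Agent.Lib.MP_f4ff90_ag.HypPeriodic m x := by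
  intro P
  obtain ⟨n₀, h0⟩ := h P
  refine ⟨n₀, fun n hn => ?_⟩
  have h1 := h0 n hn
  have h2 : ∀ k, MvPolynomial.eval (x k) P = 0 ↔ SignType.sign (τ (MvPolynomial.eval (x k) P)) = 0 := by
    intro k
    rw [sign_eq_zero_iff, map_eq_zero τ]
  rw [h2, h2, h1]

end MP_f4ff90_agP
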